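import Pool.Agent.Lib.MP_943dad_ag.SO.Frame

set_option linter.all false

/-!
The point criterion: a handle travels over the points and absorbs some of them.
-/

namespace Pool.Agent.HMv

universe u v

open Item

section Pt

variable {G : Type u} [Group G]

/-- A handle absorbs the point to its right and passes it. -/
theorem absorb (p q r : G) (L : List (Item G)) :
    ∃ r' : G, Mv (hd p q :: pt r :: L) (pt r' :: hd (p * r) (r⁻¹ * q * r) :: L) := by
  have h1 := Mv.dp p q r 1 L
  have h2 := Mv.twist (p * (q⁻¹ * r) ^ (1 : ℤ)) ((q⁻¹ * r) ^ (-1 : ℤ) * q * (q⁻¹ * r) ^ (1 : ℤ)) 1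
    (pt ((q⁻¹ * r) ^ (-1 : ℤ) * r * (q⁻¹ * r) ^ (1 : ℤ)) :: L)
  have e1 : p * (q⁻¹ * r) ^ (1 : ℤ) * ((q⁻¹ * r) ^ (-1 : ℤ) * q * (q⁻¹ * r) ^ (1 : ℤ)) ^ (1 : ℤ) = p * r := by
    group
  have e2 : (q⁻¹ * r) ^ (-1 : ℤ) * q * (q⁻¹ * r) ^ (1 : ℤ) = r⁻¹ * q * r := by group
  rw [e1] at h2
  rw [e2] at h2
  rw [e2] at h1
  exact ⟨_, (h1.trans h2).trans (Mv.exchP _ _ _ L)⟩

/-- A handle travels to the right over the points `P` and absorbs the points of the sublist `Q`. -/
theorem travel {P Q : List G} (h : Q.Sublist P) : ∀ (p q : G) (L : List (Item G)),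
    ∃ P' : List G, Mv (hd p q :: (pts P ++ L)) (pts P' ++ hd (p * Q.prod) (Q.prod⁻¹ * q * Q.prod) :: L) := by
  induction h with
  | slnil =>
    intro p q L
    refine ⟨[], ?_⟩
    simpa [pts] using Mv.refl (hd p q :: L)
  | cons r _ ih =>
    intro p q L
    rename_i Q P _
    obtain ⟨P', h1⟩ := ih p q L
    exact ⟨_ :: P', (Mv.exchP p q r (pts P ++ L)).trans (Mv.cons _ h1)⟩
  | cons_cons r _ ih =>
    intro p q L
    rename_i Q P _
    obtain ⟨r', h0⟩ := absorb p q r (pts P ++ L)
    obtain ⟨P', h1⟩ := ih (p * r) (r⁻¹ * q * r) L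
    refine ⟨r' :: P', ?_⟩
    have h2 := h0.trans (Mv.cons (pt r') h1)
    have e1 : p * r * Q.prod = p * (r :: Q).prod := by rw [List.prod_cons, mul_assoc]
    have e2 : Q.prod⁻¹ * (r⁻¹ * q * r) * Q.prod = (r :: Q).prod⁻¹ * q * (r :: Q).prod := by
      rw [List.prod_cons]
      group
    rw [e1, e2] at h2
    exact h2

/-- The products of the sublists of `P` repeated `k` times. -/
def SP (P : List G) (k : ℕ) : Set G := {x | ∃ Q : List G, Q.Sublist (List.replicate k P).flatten ∧ Q.prod = x}

theorem one_mem_SP (P : List G) (k : ℕ) : (1 : G) ∈ SP P k := ⟨[], List.nil_sublist _, rfl⟩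

theorem SP_succ (P : List G) (k : ℕ) : SP P k ⊆ SP P (k + 1) := by
  rintro x ⟨Q, h, rfl⟩
  refine ⟨Q, h.trans ?_, rfl⟩
  rw [List.replicate_succ', List.flatten_append]
  exact List.sublist_append_left _ _

theorem SP_mul (P : List G) (k : ℕ) {x y : G} (hx : x ∈ SP P k) (hy : y ∈ P) : x * y ∈ SP P (k + 1) := by
  obtain ⟨Q, h, rfl⟩ := hx
  refine ⟨Q ++ [y], ?_, by simp⟩
  rw [List.replicate_succ', List.flatten_append]
  refine h.append ?_
  simpa using hy

theorem SP_sub {B : Subgroup G} {P : List G} (hP : ∀ y ∈ P, y ∈ B) (k : ℕ) : SP P k ⊆ B := by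
  rintro x ⟨Q, h, rfl⟩
  refine Subgroup.list_prod_mem _ fun y hy => hP y ?_
  have h1 := h.subset hy
  rw [List.mem_flatten] at h1
  obtain ⟨l, hl, hyl⟩ := h1
  rw [List.eq_of_mem_replicate hl] at hyl
  exact hyl

theorem SP_grow {B : Subgroup G} [Finite B] {P : List G} (hP : Subgroup.closure {x | x ∈ P} = B) (k : ℕ) :
    ((B : Set G) ⊆ SP P k) ∨ k + 1 ≤ (SP P k).ncard := by
  have hB : (B : Set G).Finite := Set.toFinite _
  have hPB : ∀ y ∈ P, y ∈ B := fun y hy => by
    rw [← hP]
    exact Subgroup.subset_closure hy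
  have hfin : ∀ k, (SP P k).Finite := fun k => hB.subset (SP_sub hPB k)
  induction k with
  | zero =>
    right
    rw [Nat.one_le_iff_ne_zero, Ne, Set.ncard_eq_zero (hfin 0)]
    intro h
    have := one_mem_SP P 0
    rw [h] at this
    exact this
  | succ k ih =>
    rcases ih with ih | ih
    · exact Or.inl (ih.trans (SP_succ P k))
    by_cases hc : SP P (k + 1) = SP P k
    · left
      rw [hc]
      have hmul : ∀ y ∈ P, ∀ x, x ∈ SP P k ↔ x * y ∈ SP P k := by
        intro y hy
        have hsub : (fun x => x * y) '' SP P k ⊆ SP P k := by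
          rintro _ ⟨x, hx, rfl⟩
          rw [← hc]
          exact SP_mul P k hx hy
        have heq : (fun x => x * y) '' SP P k = SP P k := by
          refine Set.eq_of_subset_of_ncard_le hsub ?_ (hfin k)
          rw [Set.ncard_image_of_injective _ (mul_left_injective y)]
        intro x
        constructor
        · intro hx
          exact hsub ⟨x, hx, rfl⟩
        · intro hx
          rw [← heq] at hx
          obtain ⟨z, hz, hzx⟩ := hx
          have : z = x := mul_right_cancel hzx
          rwa [← this]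
      let K : Subgroup G :=
        { carrier := {y | ∀ x, x ∈ SP P k ↔ x * y ∈ SP P k}
          mul_mem' := by
            intro y z hy hz x
            rw [← mul_assoc, ← hz, ← hy]
          one_mem' := by
            intro x
            rw [mul_one]
          inv_mem' := by
            intro y hy x
            rw [hy (x * y⁻¹), inv_mul_cancel_right] }
      have hK : B ≤ K := by
        rw [← hP, Subgroup.closure_le]
        intro y hy
        exact hmul y hy
      intro x hx
      have h1 := (hK hx) 1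
      rw [one_mul] at h1
      exact h1.1 (one_mem_SP P k)
    · right
      have hss : SP P k ⊂ SP P (k + 1) := (SP_succ P k).ssubset_of_ne (fun h => hc h.symm)
      have := Set.ncard_lt_ncard hss (hfin (k + 1))
      omega

theorem exists_sublist {B : Subgroup G} [Finite B] {P : List G} (hP : Subgroup.closure {x | x ∈ P} = B) {x : G}
    (hx : x ∈ B) : ∃ Q : List G, Q.Sublist (List.replicate (Nat.card B - 1) P).flatten ∧ Q.prod = x := by
  have hPB : ∀ y ∈ P, y ∈ B := fun y hy => by
    rw [← hP]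
    exact Subgroup.subset_closure hy
  rcases SP_grow hP (Nat.card B - 1) with h | h
  · exact h hx
  · have h1 : SP P (Nat.card B - 1) = (B : Set G) := by
      refine Set.eq_of_subset_of_ncard_le (SP_sub hPB _) ?_ (Set.toFinite _)
      have h2 : (B : Set G).ncard = Nat.card B := rfl
      rw [h2]
      have h3 : 0 < Nat.card B := Nat.card_pos
      omega
    have h2 : x ∈ SP P (Nat.card B - 1) := by
      rw [h1]
      exact hx
    exact h2

/-- **The point criterion.** `B` is a normal subgroup, generated by the entries of `P`, the points contain `P` repeated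
`|B|` times, and `m` handles are enough for `G / B`: then the last handle can be made trivial. -/
theorem pt_criterion (B : Subgroup G) [B.Normal] [Finite B] {m : ℕ} (hm : Kills (G ⧸ B) m) {P : List G}
    (hP : Subgroup.closure {x | x ∈ P} = B) {L : List (G × G)} {C : List G} (hL : m < L.length)
    (hC : (List.replicate (Nat.card B) P).flatten.Sublist C) :
    ∃ (L1 : List (G × G)) (C1 : List G), Mv (hds L ++ pts C) (hds (L1 ++ List.replicate 1 (1, 1)) ++ pts C1) := by
  have hPB : ∀ y ∈ P, y ∈ B := fun y hy => by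
    rw [← hP]
    exact Subgroup.subset_closure hy
  -- the last handle has entries in `B`
  obtain ⟨L1, h1⟩ := hm (L.length - m) (pmap (QuotientGroup.mk' B) L) (by rw [pmap_length]; omega)
  rw [← mp_hds] at h1
  obtain ⟨D, hD, eD⟩ := Mv.lift (QuotientGroup.mk' B) h1
  obtain ⟨D, rfl, eD'⟩ := mp_eq_hds eD
  obtain ⟨A, E, rfl, hE, hEN⟩ := pmap_eq_replicate_split eD'
  obtain ⟨E', p, q, rfl⟩ : ∃ (E' : List (G × G)) (p q : G), E = E' ++ [(p, q)] := by
    rcases List.eq_nil_or_concat E with h | ⟨E', x, h⟩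
    · rw [h] at hE
      simp at hE
      omega
    · exact ⟨E', x.1, x.2, by simpa using h⟩
  have hpq := hEN (p, q) (by simp)
  have hp : p ∈ B := by simpa using hpq.1
  have hq : q ∈ B := by simpa using hpq.2
  -- the points
  have hcard : 0 < Nat.card B := Nat.card_pos
  have e0 : Nat.card B = (Nat.card B - 1) + 1 := by omega
  rw [e0, List.replicate_succ', List.flatten_append, List.append_sublist_iff] at hC
  obtain ⟨C1, C2, rfl, hC1, hC2⟩ := hC
  obtain ⟨Q, hQ, hQp⟩ := exists_sublist hP (B.inv_mem hp)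
  obtain ⟨P', h2⟩ := travel (hQ.trans hC1) p q (pts C2)
  rw [hQp, mul_inv_cancel] at h2
  -- back to the left
  have h3 := passL (pts P') 1 (p⁻¹⁻¹ * q * p⁻¹) (pts C2)
  rw [mul_one, mul_inv_cancel] at h3
  obtain ⟨s, hs⟩ : ∃ s, s = cp (pts P') * (p⁻¹⁻¹ * q * p⁻¹) * (cp (pts P'))⁻¹ := ⟨_, rfl⟩
  rw [← hs] at h3
  have hsB : s ∈ B := by
    rw [hs]
    refine Subgroup.Normal.conj_mem inferInstance _ ?_ _
    exact B.mul_mem (B.mul_mem (B.inv_mem (B.inv_mem hp)) hq) (B.inv_mem hp)
  obtain ⟨X, hX⟩ : ∃ X, X = pts P' ++ pts C2 := ⟨_, rfl⟩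
  rw [← hX] at h3
  have h4 := flat_end (Commute.one_left s) X
  have h5 : s ∈ gen (hds (A ++ E') ++ X) := by
    have h6 : B ≤ gen (hds (A ++ E') ++ X) := by
      rw [← hP, Subgroup.closure_le]
      intro y hy
      have h7 : y ∈ C2 := by
        have : y ∈ (List.flatten [P]) := by simpa using hy
        exact hC2.subset (by simpa using hy)
      refine ent_mem_gen (p := pt y) ?_ rfl
      rw [hX]
      refine List.mem_append_right _ (List.mem_append_right _ ?_)
      exact List.mem_map_of_mem h7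
    exact h6 hsB
  have h6 := kill_end h5
  have h7 := (flat_end (Commute.one_left (1 : G)) X).symm
  refine ⟨A ++ E', P' ++ C2, ?_⟩
  have h8 : Mv (hds L ++ pts (C1 ++ C2)) (hds (A ++ (E' ++ [(p, q)])) ++ pts (C1 ++ C2)) := hD.app_right _
  refine h8.trans ?_
  have e1 : hds (A ++ (E' ++ [(p, q)])) ++ pts (C1 ++ C2) = hds (A ++ E') ++ (hd p q :: (pts C1 ++ pts C2)) := by
    simp [hds, pts]
  have e2 : hds (A ++ E' ++ List.replicate 1 ((1 : G), (1 : G))) ++ pts (P' ++ C2) =
      hds (A ++ E') ++ (hd 1 1 :: X) := by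
    rw [hX]
    simp [hds, pts]
  rw [e1, e2]
  refine ((h2.trans (h3.trans h4)).app_left _).trans ?_
  have h9 : Mv (hds (A ++ E') ++ (X ++ [hd 1 s])) (hds (A ++ E') ++ (X ++ [hd 1 1])) := by
    have := h6
    rw [List.append_assoc, List.append_assoc] at this
    exact this
  exact h9.trans (h7.app_left _)

end Pt

end Pool.Agent.HMv
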