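import Pool.Agent.Lib.MP_943dad_ag.SO.Cost

set_option linter.all false

/-!
# The costs of the quotients of a group
-/

namespace Pool.Agent.HMv

/-- `Adm g Q`: the group `Q` has `d` generators and a cost `m < g`, for some `d`. -/
def Adm (g : ℕ) (Q : Type) [Group Q] : Prop :=
  ∃ (d m : ℕ) (s : Fin d → Q), Subgroup.closure (Set.range s) = ⊤ ∧ GCost d Q m ∧ m < g

theorem quot_quot {G G' : Type} [Group G] [Group G'] (f : G →* G') (hf : Function.Surjective f) (N : Subgroup G)
    [N.Normal] [(N.map f).Normal] :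
    ∃ q : G ⧸ N →* G' ⧸ N.map f, Function.Surjective q := by
  refine ⟨QuotientGroup.map N (N.map f) f (Subgroup.le_comap_map f N), ?_⟩
  intro x
  obtain ⟨y, rfl⟩ := QuotientGroup.mk_surjective x
  obtain ⟨z, rfl⟩ := hf y
  exact ⟨(z : G ⧸ N), rfl⟩

/-- The cost of an image. -/
theorem cost_image {G : Type} [Group G] {m : ℕ} (h : Cost G m) : ∀ {G' : Type} [Group G'] (f : G →* G'),
    Function.Surjective f → ∃ m' ≤ m, Cost G' m' := by
  induction h with
  | trivial G hG =>
    intro G' _ f hf
    haveI := hG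
    exact ⟨0, le_rfl, Cost.trivial G' hf.subsingleton⟩
  | cyclic G N m hN _ ih =>
    intro G' _ f hf
    haveI : (N.map f).Normal := Subgroup.Normal.map inferInstance _ hf
    obtain ⟨q, hq⟩ := quot_quot f hf N
    haveI := hN
    obtain ⟨m', h1, h2⟩ := ih (f.subgroupMap N) (f.subgroupMap_surjective N)
    exact ⟨1 + m', by omega, Cost.cyclic G' (N.map f) m' (isCyclic_of_surjective q hq) h2⟩
  | index G K m hK _ ih =>
    intro G' _ f hf
    obtain ⟨m', h1, h2⟩ := ih (f.subgroupMap K) (f.subgroupMap_surjective K)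
    have h3 : (K.map f).index ∣ K.index := Subgroup.index_map_dvd K hf
    have h4 : (K.map f).index ≤ K.index := Nat.le_of_dvd (Nat.pos_of_ne_zero hK) h3
    have h5 : (K.map f).index ≠ 0 := fun h => hK (by rw [h, zero_dvd_iff] at h3; exact h3)
    exact ⟨(K.map f).index - 1 + m', by omega, Cost.index G' (K.map f) m' h5 h2⟩

/-- The cost of an image. -/
theorem gcost_image {d : ℕ} {G : Type} [Group G] {m : ℕ} (h : GCost d G m) : ∀ {G' : Type} [Group G'] (f : G →* G'),
    Function.Surjective f → ∃ m' ≤ m, GCost d G' m' := by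
  induction h with
  | trivial G hG =>
    intro G' _ f hf
    haveI := hG
    exact ⟨0, le_rfl, GCost.trivial G' hf.subsingleton⟩
  | cyclic G N m hN _ ih =>
    intro G' _ f hf
    haveI : (N.map f).Normal := Subgroup.Normal.map inferInstance _ hf
    obtain ⟨q, hq⟩ := quot_quot f hf N
    haveI := hN
    obtain ⟨m', h1, h2⟩ := ih q hq
    exact ⟨max m' d, by omega, GCost.cyclic G' (N.map f) m'
      (isCyclic_of_surjective (f.subgroupMap N) (f.subgroupMap_surjective N)) h2⟩
  | soluble G N m hN _ ih =>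
    intro G' _ f hf
    haveI : (N.map f).Normal := Subgroup.Normal.map inferInstance _ hf
    obtain ⟨q, hq⟩ := quot_quot f hf N
    haveI := hN
    obtain ⟨m', h1, h2⟩ := ih q hq
    exact ⟨max m' (d + 1), by omega, GCost.soluble G' (N.map f) m'
      (Group.isSolvable_of_surjective (f.subgroupMap_surjective N)) h2⟩
  | normal G N m m' hN _ ih =>
    intro G' _ f hf
    haveI : (N.map f).Normal := Subgroup.Normal.map inferInstance _ hf
    obtain ⟨q, hq⟩ := quot_quot f hf N
    obtain ⟨m1, h1, h2⟩ := ih q hq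
    obtain ⟨m2, h3, h4⟩ := cost_image hN (f.subgroupMap N) (f.subgroupMap_surjective N)
    exact ⟨m1 + m2, by omega, GCost.normal G' (N.map f) m1 m2 h4 h2⟩

theorem adm_image {g : ℕ} {G G' : Type} [Group G] [Group G'] (h : Adm g G) (f : G →* G')
    (hf : Function.Surjective f) : Adm g G' := by
  obtain ⟨d, m, s, hs, hm, hg⟩ := h
  obtain ⟨m', h1, h2⟩ := gcost_image hm f hf
  refine ⟨d, m', fun i => f (s i), ?_, h2, by omega⟩
  have h3 := congrArg (Subgroup.map f) hs
  rw [MonoidHom.map_closure, ← Set.range_comp, Subgroup.map_top_of_surjective f hf] at h3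
  exact h3

end Pool.Agent.HMv
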