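import Mathlib

/-!
# SO-Cnt1: values of a quadratic map (sharper form)

`D = range N`, a finite subgroup of `W` (the inverse of `N w` is `N w⁻¹`, `N 1 = 0`, `ε 1 = 0`, `ε w⁻¹ = - ε w`), `Θ = V / M`.
(1) `F : D → Θ`, `F (N w) = [h w]`, is well defined: if `N w = N w'` put `u = w * w'⁻¹`, so `w = u * w'`, `N u = 0`,
`h w = h u + h w' + ε u (N w')`, `h u ∈ M` and `ε u (N w') = ε u (N w') - ε w' (N u) ∈ M`.
(2) For `w`: `F (N w + d) = F d + [h w] + [ε w d]`, and `[ε w (N w')] = [ε w' (N w)]` for all `w, w'`.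
(3) Let `Q = card Θ`, `θ₀ = -[r]`, and suppose that `F d = θ₀` only for `d ∈ B`; so `b = #{d ∈ D : F d = θ₀} ≤ R`.
`S = #{(d, e) ∈ D × D : F (d + e) = F d}`.  For a fixed `e = N w` the condition is `[ε w d] = - [h w]`.  If `ε u e = 0` for all `u`, at most `card D` such `d`
(there are at most `R` such `e`).  Otherwise `d ↦ [ε w d]` is onto `Θ` (for `v` take `u` with `ε u e = v`; `d = N u`: `[ε w (N u)] = [ε u (N w)] = [v]`), a homomorphism, so the number
of `d` times `Q` is `card D`.  So `Q S ≤ Q R card D + (card D)²`.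
(4) `S = ∑_θ n_θ²`, `n_θ = #{d : F d = θ}`; Cauchy-Schwarz over `θ ≠ θ₀` (`Q - 1` values): `(card D - b)² ≤ (Q - 1) S`.  So
`Q (card D - b)² ≤ (Q - 1) (Q R card D + (card D)²)`.  If `b = 0` this gives `card D ≤ (Q - 1) Q R < q² R`; if `b ≤ R` it gives `card D < Q (Q + 1) R ≤ 2 q² R`, `q = card V ≥ Q`.
-/

namespace SO

theorem cnt1 {K W V : Type} [Group K] [AddCommGroup W] [Finite W] [AddCommGroup V] [Finite V] (N : K → W) (h : K → V) (ε : K → W →+ V)
    (hN : ∀ w w', N (w * w') = N w + N w') (hε : ∀ w w' d, ε (w * w') d = ε w d + ε w' d)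
    (hh : ∀ w w', h (w * w') = h w + h w' + ε w (N w')) (hdich : ∀ d : W, (∀ w, ε w d = 0) ∨ ∀ v, ∃ w, ε w d = v) (R : ℕ) (hR0 : 0 < R)
    (hR : Nat.card {d : W // ∀ w, ε w d = 0} ≤ R) (B : Set W) (hB : B.ncard ≤ R) (hD : R * Nat.card V ^ 2 ≤ (Set.range N).ncard)
    (hBD : B = ∅ ∨ 2 * R * Nat.card V ^ 2 ≤ (Set.range N).ncard)
    (M : AddSubgroup V) (hM1 : ∀ w w', ε w (N w') - ε w' (N w) ∈ M) (hM2 : ∀ w, N w = 0 → h w ∈ M) (r : V) : ∃ w, N w ∉ B ∧ r + h w ∈ M := by
  classical
  have _ := Fintype.ofFinite W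
  have _ := Fintype.ofFinite V
  have hN1 : N 1 = 0 := by
    have h1 := hN 1 1
    rw [mul_one] at h1
    exact left_eq_add.1 h1
  have hNinv : ∀ w, N w⁻¹ = - N w := by
    intro w
    have h1 := hN w⁻¹ w
    rw [inv_mul_cancel, hN1] at h1
    exact eq_neg_of_add_eq_zero_left h1.symm
  set π : V →+ V ⧸ M := QuotientAddGroup.mk' M with hπ
  have hπ0 : ∀ v, π v = 0 ↔ v ∈ M := fun v => QuotientAddGroup.eq_zero_iff v
  have hπs : Function.Surjective π := QuotientAddGroup.mk'_surjective M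
  have hwd : ∀ w w', N w = N w' → π (h w) = π (h w') := by
    intro w w' hww
    have h1 : N (w * w'⁻¹) = 0 := by rw [hN, hNinv, hww, add_neg_cancel]
    have h2 := hh (w * w'⁻¹) w'
    rw [inv_mul_cancel_right] at h2
    have h3 : ε (w * w'⁻¹) (N w') ∈ M := by
      have h4 := hM1 (w * w'⁻¹) w'
      rwa [h1, map_zero, sub_zero] at h4
    rw [h2, map_add, map_add, (hπ0 _).2 (hM2 _ h1), (hπ0 _).2 h3, zero_add, add_zero]
  set s : W → K := fun d => if hd : ∃ w, N w = d then hd.choose else 1 with hs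
  have hs1 : ∀ w, N (s (N w)) = N w := by
    intro w
    have hd : ∃ w', N w' = N w := ⟨w, rfl⟩
    rw [hs]
    simp only [dif_pos hd]
    exact hd.choose_spec
  set F : W → V ⧸ M := fun d => π (h (s d)) with hFdef
  have hF : ∀ w, F (N w) = π (h w) := fun w => hwd _ _ (hs1 w)
  have hF2 : ∀ w w', F (N w' + N w) = F (N w') + π (h w) + π (ε w (N w')) := by
    intro w w'
    rw [add_comm (N w'), ← hN, hF, hh, map_add, map_add, hF]
    abel
  by_contra hcon
  push Not at hcon
  set Df : Finset W := Finset.univ.filter fun d => d ∈ Set.range N with hDf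
  have hmem : ∀ d, d ∈ Df ↔ ∃ w, N w = d := by
    intro d
    rw [hDf, Finset.mem_filter]
    simp
  have hmN : ∀ w, N w ∈ Df := fun w => (hmem _).2 ⟨w, rfl⟩
  have hadd : ∀ d ∈ Df, ∀ e ∈ Df, d + e ∈ Df := by
    intro d hd e he
    obtain ⟨w, rfl⟩ := (hmem _).1 hd
    obtain ⟨w', rfl⟩ := (hmem _).1 he
    rw [← hN]
    exact hmN _
  have hneg : ∀ d ∈ Df, -d ∈ Df := by
    intro d hd
    obtain ⟨w, rfl⟩ := (hmem _).1 hd
    rw [← hNinv]
    exact hmN _
  have hsub : ∀ d ∈ Df, ∀ e ∈ Df, d - e ∈ Df := by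
    intro d hd e he
    rw [sub_eq_add_neg]
    exact hadd d hd _ (hneg e he)
  have hcard : (Set.range N).ncard = Df.card := by
    rw [← Set.ncard_coe_finset]
    congr 1
    ext d
    rw [Finset.mem_coe, hmem]
    rfl
  rw [hcard] at hD
  set n : ℕ := Df.card with hn
  set Q : ℕ := Fintype.card (V ⧸ M) with hQ
  set nt : V ⧸ M → ℕ := fun θ => (Df.filter fun d => F d = θ).card with hnt
  set A : W → ℕ := fun e => (Df.filter fun d => F (d + e) = F d).card with hA
  -- double counting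
  have hS1 : ∑ e ∈ Df, A e = ∑ θ, nt θ ^ 2 := by
    have h1 := Finset.sum_card_bipartiteAbove_eq_sum_card_bipartiteBelow (s := Df) (t := Df)
      (fun d e => F (d + e) = F d)
    have h2 : ∑ e ∈ Df, A e = ∑ d ∈ Df, (Df.filter fun e => F (d + e) = F d).card := h1.symm
    rw [h2]
    have h3 : ∀ d ∈ Df, (Df.filter fun e => F (d + e) = F d).card = nt (F d) := by
      intro d hd
      rw [hnt]
      refine Finset.card_nbij' (fun e => d + e) (fun e => e - d) ?_ ?_ ?_ ?_
      · intro e he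
        have he' := Finset.mem_filter.1 he
        exact Finset.mem_filter.2 ⟨hadd d hd e he'.1, he'.2⟩
      · intro e he
        have he' := Finset.mem_filter.1 he
        refine Finset.mem_filter.2 ⟨hsub e he'.1 d hd, ?_⟩
        rw [add_sub_cancel]
        exact he'.2
      · intro e _
        exact add_sub_cancel_left d e
      · intro e _
        exact add_sub_cancel d e
    rw [Finset.sum_congr rfl h3, ← Finset.sum_fiberwise Df F]
    refine Finset.sum_congr rfl fun θ _ => ?_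
    have h4 : ∀ d ∈ Df.filter (fun d => F d = θ), nt (F d) = nt θ := by
      intro d hd
      rw [(Finset.mem_filter.1 hd).2]
    rw [Finset.sum_congr rfl h4, Finset.sum_const, smul_eq_mul, sq]
  -- the second case
  have hA2 : ∀ e ∈ Df, (∀ v, ∃ u, ε u e = v) → Q * A e = n := by
    intro e he hsur
    obtain ⟨w, rfl⟩ := (hmem _).1 he
    set G : W →+ V ⧸ M := π.comp (ε w) with hG
    have hGs : ∀ θ, ∃ d ∈ Df, G d = θ := by
      intro θ
      obtain ⟨v, rfl⟩ := hπs θ
      obtain ⟨u, hu⟩ := hsur v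
      refine ⟨N u, hmN u, ?_⟩
      have h1 := (hπ0 _).2 (hM1 w u)
      rw [map_sub, sub_eq_zero, hu] at h1
      exact h1
    have hfib : ∀ θ, (Df.filter fun d => G d = θ).card = (Df.filter fun d => G d = 0).card := by
      intro θ
      obtain ⟨d0, hd0, hG0⟩ := hGs θ
      refine Finset.card_nbij' (fun d => d - d0) (fun d => d + d0) ?_ ?_ ?_ ?_
      · intro d hd
        have hd' := Finset.mem_filter.1 hd
        refine Finset.mem_filter.2 ⟨hsub d hd'.1 d0 hd0, ?_⟩
        rw [map_sub, hd'.2, hG0, sub_self]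
      · intro d hd
        have hd' := Finset.mem_filter.1 hd
        refine Finset.mem_filter.2 ⟨hadd d hd'.1 d0 hd0, ?_⟩
        rw [map_add, hd'.2, hG0, zero_add]
      · intro d _
        exact sub_add_cancel d d0
      · intro d _
        exact add_sub_cancel_right d d0
    have hAG : A (N w) = (Df.filter fun d => G d = - π (h w)).card := by
      rw [hA]
      simp only
      congr 1
      refine Finset.filter_congr fun d hd => ?_
      obtain ⟨w', rfl⟩ := (hmem _).1 hd
      rw [hF2, add_assoc, add_eq_left, add_comm, add_eq_zero_iff_eq_neg]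
      rfl
    have hsum : n = ∑ θ : V ⧸ M, (Df.filter fun d => G d = θ).card :=
      Finset.card_eq_sum_card_fiberwise fun d _ => Finset.mem_coe.2 (Finset.mem_univ _)
    rw [Finset.sum_congr rfl fun θ _ => hfib θ, Finset.sum_const, Finset.card_univ, smul_eq_mul] at hsum
    rw [hAG, hfib, hsum]
  -- the sum over all e
  have hbad : (Df.filter fun e => ∀ w, ε w e = 0).card ≤ R := by
    refine le_trans ?_ hR
    rw [Nat.card_eq_fintype_card, Fintype.card_subtype]
    exact Finset.card_le_card (Finset.filter_subset_filter _ (Finset.subset_univ _))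
  have hQS : Q * ∑ θ, nt θ ^ 2 ≤ Q * R * n + n * n := by
    rw [← hS1, Finset.mul_sum]
    have h1 : ∀ e ∈ Df, Q * A e ≤ (if (∀ w, ε w e = 0) then Q * n else 0) + n := by
      intro e he
      by_cases hb : ∀ w, ε w e = 0
      · rw [if_pos hb]
        have h2 : A e ≤ n := Finset.card_filter_le _ _
        have h3 := Nat.mul_le_mul_left Q h2
        omega
      · rw [if_neg hb, hA2 e he ((hdich e).resolve_left hb), zero_add]
    refine (Finset.sum_le_sum h1).trans ?_
    rw [Finset.sum_add_distrib, Finset.sum_const, smul_eq_mul, ← Finset.sum_filter, Finset.sum_const, smul_eq_mul]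
    have h4 := Nat.mul_le_mul_right (Q * n) hbad
    have h5 : R * (Q * n) = Q * R * n := by ring
    rw [h5] at h4
    exact Nat.add_le_add_right h4 _
  -- the value θ₀
  have hb0 : nt (- π r) ≤ B.ncard := by
    show (Df.filter fun d => F d = - π r).card ≤ B.ncard
    rw [← Set.ncard_coe_finset]
    refine Set.ncard_le_ncard ?_ (Set.toFinite _)
    intro d hd
    have hd' := Finset.mem_filter.1 (Finset.mem_coe.1 hd)
    obtain ⟨w, rfl⟩ := (hmem _).1 hd'.1
    by_contra hdB
    apply hcon w hdB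
    rw [← hπ0, map_add, ← hF w, hd'.2, add_neg_cancel]
  have hb : nt (- π r) ≤ R := hb0.trans hB
  have hn1 : ∑ θ, nt θ = n := (Finset.card_eq_sum_card_fiberwise fun d _ => Finset.mem_coe.2 (Finset.mem_univ _)).symm
  have hCS : (∑ θ ∈ Finset.univ.erase (- π r), (nt θ : ℤ)) ^ 2 ≤
      ((Finset.univ.erase (- π r)).card : ℤ) * ∑ θ ∈ Finset.univ.erase (- π r), (nt θ : ℤ) ^ 2 :=
    sq_sum_le_card_mul_sum_sq
  have hc1 : ((Finset.univ.erase (- π r)).card : ℤ) = (Q : ℤ) - 1 := by
    have h1 := Finset.card_erase_add_one (Finset.mem_univ (- π r))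
    rw [Finset.card_univ] at h1
    omega
  have hc2 : (∑ θ ∈ Finset.univ.erase (- π r), (nt θ : ℤ)) = (n : ℤ) - nt (- π r) := by
    have h1 := Finset.sum_erase_add Finset.univ nt (Finset.mem_univ (- π r))
    rw [hn1] at h1
    have h2 : ((∑ θ ∈ Finset.univ.erase (- π r), nt θ : ℕ) : ℤ) + nt (- π r) = n := by exact_mod_cast h1
    rw [← h2]
    push_cast
    ring
  have hc3 : (∑ θ ∈ Finset.univ.erase (- π r), (nt θ : ℤ) ^ 2) ≤ ((∑ θ, nt θ ^ 2 : ℕ) : ℤ) := by
    push_cast
    exact Finset.sum_le_sum_of_subset_of_nonneg (Finset.erase_subset _ _) fun i _ _ => by positivity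
  rw [hc1, hc2] at hCS
  have hQ1 : 1 ≤ Q := Fintype.card_pos
  have hQV : Q ≤ Nat.card V := by
    rw [Nat.card_eq_fintype_card]
    exact Fintype.card_le_of_surjective π hπs
  set S : ℕ := ∑ θ, nt θ ^ 2 with hSdef
  set b : ℕ := nt (- π r) with hbdef
  set q : ℕ := Nat.card V with hq
  have hCS' : ((n : ℤ) - b) ^ 2 ≤ ((Q : ℤ) - 1) * S :=
    hCS.trans (mul_le_mul_of_nonneg_left hc3 (by omega))
  have hbB : b = 0 ∨ 2 * R * q ^ 2 ≤ n := by
    rcases hBD with h0 | h0
    · left
      rw [h0, Set.ncard_empty] at hb0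
      exact Nat.le_zero.1 hb0
    · right
      rw [← hcard]
      exact h0
  clear_value S b q n Q
  have z1 : (b : ℤ) ≤ R := by exact_mod_cast hb
  have z2 : (R : ℤ) * (q : ℤ) ^ 2 ≤ n := by exact_mod_cast hD
  have z3 : (Q : ℤ) * S ≤ Q * R * n + n * n := by exact_mod_cast hQS
  have z4 : (Q : ℤ) ≤ q := by exact_mod_cast hQV
  have z5 : (1 : ℤ) ≤ Q := by exact_mod_cast hQ1
  have z7 : (1 : ℤ) ≤ R := by exact_mod_cast hR0
  have z8 : (0 : ℤ) ≤ b := Int.natCast_nonneg _
  have z9 : (b : ℤ) = 0 ∨ 2 * (R : ℤ) * (q : ℤ) ^ 2 ≤ n := by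
    rcases hbB with h0 | h0
    · left
      exact_mod_cast h0
    · right
      exact_mod_cast h0
  generalize (b : ℤ) = b' at *
  generalize (R : ℤ) = R' at *
  generalize (q : ℤ) = q' at *
  generalize (Q : ℤ) = Q' at *
  generalize (n : ℤ) = n' at *
  generalize (S : ℤ) = S' at *
  have z10 : (1 : ℤ) ≤ q' := z5.trans z4
  have z11 : (1 : ℤ) ≤ q' ^ 2 := one_le_pow₀ z10
  have y2 : R' ≤ n' := by nlinarith [mul_le_mul_of_nonneg_left z11 (by linarith : (0 : ℤ) ≤ R')]
  have x1 : Q' * (n' - b') ^ 2 ≤ (Q' - 1) * (Q' * R' * n' + n' * n') := by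
    calc Q' * (n' - b') ^ 2 ≤ Q' * ((Q' - 1) * S') := mul_le_mul_of_nonneg_left hCS' (by linarith)
      _ = (Q' - 1) * (Q' * S') := by ring
      _ ≤ (Q' - 1) * (Q' * R' * n' + n' * n') := mul_le_mul_of_nonneg_left z3 (by linarith)
  rcases z9 with z9 | z9
  · rw [z9, sub_zero] at x1
    have x2 : n' * n' ≤ ((Q' - 1) * Q' * R') * n' := by linarith
    have x3 : n' ≤ (Q' - 1) * Q' * R' := le_of_mul_le_mul_right x2 (by linarith)
    have x4 : (Q' - 1) * Q' * R' + Q' * R' ≤ R' * q' ^ 2 := by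
      have h1 : Q' * Q' ≤ q' * q' := mul_le_mul z4 z4 (by linarith) (by linarith)
      have h2 := mul_le_mul_of_nonneg_left h1 (by linarith : (0 : ℤ) ≤ R')
      linarith
    have x5 : 0 < Q' * R' := mul_pos (by linarith) (by linarith)
    linarith
  · have y3 : (n' - R') ^ 2 ≤ (n' - b') ^ 2 := pow_le_pow_left₀ (by linarith) (by linarith) 2
    have y4 : Q' * (n' - R') ^ 2 ≤ (Q' - 1) * (Q' * R' * n' + n' * n') :=
      (mul_le_mul_of_nonneg_left y3 (by linarith)).trans x1
    have y5 : n' * n' + Q' * R' ^ 2 ≤ (Q' * (Q' + 1) * R') * n' := by linarith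
    have y6 : 0 < Q' * R' ^ 2 := mul_pos (by linarith) (pow_pos (by linarith) 2)
    have y7 : n' < Q' * (Q' + 1) * R' := by
      by_contra hc
      rw [not_lt] at hc
      have := mul_le_mul_of_nonneg_right hc (by linarith : (0 : ℤ) ≤ n')
      linarith
    have y8 : Q' * (Q' + 1) ≤ 2 * q' ^ 2 := by
      have h1 : Q' * (Q' + 1) ≤ q' * (q' + 1) := mul_le_mul z4 (by linarith) (by linarith) (by linarith)
      have h2 : q' ≤ q' * q' := le_mul_of_one_le_left (by linarith) z10
      linarith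
    have y9 := mul_le_mul_of_nonneg_right y8 (by linarith : (0 : ℤ) ≤ R')
    linarith

end SO
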