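import Mathlib

/-!
# SO-Lo: the group of displacements is large
-/

namespace SO

theorem lo {P H V W : Type} [Group P] [Group H] [AddCommGroup V] [Finite V] [DistribMulAction H V] [AddCommGroup W] [Finite W] (Γ : P →* H) (Δ : P → V →+ W)
    (hΔ : ∀ a b v, Δ (a * b) v = Δ b v + Δ a (Γ b • v)) (K : Subgroup P) {δ : ℕ} (a : Fin δ → P) (hgen : Subgroup.closure ((K : Set P) ∪ Set.range a) = ⊤)
    (D : AddSubgroup W) (hD : ∀ w ∈ K, ∀ v, Δ w v ∈ D) (Wh : AddSubgroup W) (hWh : Wh ≤ AddSubgroup.closure {x | ∃ b v, x = Δ b v}) :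
    Nat.card Wh ≤ Nat.card D * Nat.card V ^ δ := by
  classical
  set f : D × (Fin δ → V) →+ W :=
    AddMonoidHom.coprod D.subtype (∑ j, (Δ (a j)).comp (Pi.evalAddMonoidHom (fun _ => V) j)) with hf
  have hfv : ∀ (d : D) (v : Fin δ → V), f (d, v) = d + ∑ j, Δ (a j) (v j) := by
    intro d v
    rw [hf]
    simp [AddMonoidHom.finsetSum_apply]
  have h1 : ∀ v, Δ 1 v = 0 := by
    intro v
    have h := hΔ 1 1 v
    rw [mul_one, map_one, one_smul] at h
    exact left_eq_add.mp h
  have h2 : ∀ b : P, ∀ v, Δ b v ∈ f.range := by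
    intro b
    have hb : b ∈ Subgroup.closure ((K : Set P) ∪ Set.range a) := by
      rw [hgen]
      trivial
    induction hb using Subgroup.closure_induction with
    | mem x hx =>
      intro v
      rcases hx with hx | ⟨j, rfl⟩
      · refine ⟨(⟨Δ x v, hD x hx v⟩, 0), ?_⟩
        rw [hfv]
        simp
      · refine ⟨(0, Pi.single j v), ?_⟩
        rw [hfv, Finset.sum_eq_single j]
        · simp
        · intro i _ hi
          simp [Pi.single_eq_of_ne hi]
        · intro h
          exact absurd (Finset.mem_univ j) h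
    | one =>
      intro v
      rw [h1]
      exact zero_mem _
    | mul x y _ _ hx hy =>
      intro v
      rw [hΔ]
      exact add_mem (hy v) (hx _)
    | inv x _ hx =>
      intro v
      have h := hΔ x⁻¹ x ((Γ x)⁻¹ • v)
      rw [inv_mul_cancel, h1, smul_inv_smul] at h
      rw [← neg_eq_of_add_eq_zero_right h.symm]
      exact neg_mem (hx _)
  have h3 : Wh ≤ f.range := by
    refine hWh.trans ((AddSubgroup.closure_le _).mpr ?_)
    rintro x ⟨b, v, rfl⟩
    exact h2 b v
  calc Nat.card Wh ≤ Nat.card f.range := Nat.card_mono (Set.toFinite _) h3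
    _ ≤ Nat.card (D × (Fin δ → V)) :=
        Nat.card_le_card_of_surjective _ f.rangeRestrict_surjective
    _ = Nat.card D * Nat.card V ^ δ := by
        rw [Nat.card_prod, Nat.card_fun, Nat.card_fin]

end SO
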