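import Mathlib

/-!
# SO-Up: the radical is small

`{a : P | E a d = 0}` is a subgroup for every `d` (`E 1 = 0` and `E a⁻¹ d = - (Γ a)⁻¹ • E a d` from `hE`).  If `d` is killed by all `E w`, `w ∈ K`, and by all `E (a j)`, this subgroup is `⊤`, so `d = 0` by `hsep`.
So the homomorphism `d ↦ (E (a j) d)_j` to `Fin δ → V` is injective on `{d | ∀ w ∈ K, E w d = 0}` (a subgroup).
-/

namespace SO

theorem up {P H V W : Type} [Group P] [Group H] [AddCommGroup V] [Finite V] [DistribMulAction H V] [AddCommGroup W] (Γ : P →* H) (E : P → W →+ V)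
    (hE : ∀ a b d, E (a * b) d = E a d + Γ a • E b d) (K : Subgroup P) {δ : ℕ} (a : Fin δ → P) (hgen : Subgroup.closure ((K : Set P) ∪ Set.range a) = ⊤)
    (hsep : ∀ d : W, (∀ b, E b d = 0) → d = 0) : Nat.card {d : W // ∀ w ∈ K, E w d = 0} ≤ Nat.card V ^ δ := by
  have hone : ∀ d, E 1 d = 0 := by
    intro d
    have h := hE 1 1 d
    rw [one_mul, map_one, one_smul] at h
    exact (left_eq_add.1 h)
  have hinj : Function.Injective (fun (d : {d : W // ∀ w ∈ K, E w d = 0}) (j : Fin δ) => E (a j) d.1) := by
    rintro ⟨d, hd⟩ ⟨d', hd'⟩ h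
    apply Subtype.ext
    show d = d'
    have key : ∀ b, E b (d - d') = 0 := by
      intro b
      have hb : b ∈ Subgroup.closure ((K : Set P) ∪ Set.range a) := by
        rw [hgen]
        exact Subgroup.mem_top b
      induction hb using Subgroup.closure_induction with
      | mem x hx =>
        rcases hx with hx | ⟨j, rfl⟩
        · rw [map_sub, hd x hx, hd' x hx, sub_zero]
        · have h1 : E (a j) d = E (a j) d' := congrFun h j
          rw [map_sub, h1, sub_self]
      | one => exact hone _
      | mul x y _ _ hx hy => rw [hE, hx, hy, smul_zero, add_zero]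
      | inv x _ hx =>
        have h1 := hE x⁻¹ x (d - d')
        rw [inv_mul_cancel, hone, hx, smul_zero, add_zero] at h1
        exact h1.symm
    exact sub_eq_zero.1 (hsep _ key)
  have h1 := Nat.card_le_card_of_injective _ hinj
  rwa [Nat.card_fun, Nat.card_fin] at h1

end SO
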