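import Mathlib

/-!
# SO-Up1: the radical is small (sharper form)

If moreover some vector `v` is not of the form `(E (a j) d)_j` with `d` in the radical, the radical has at most `card V ^ δ / 2` elements.
-/

namespace SO

theorem up1 {P H V W : Type} [Group P] [Group H] [AddCommGroup V] [Finite V] [DistribMulAction H V] [AddCommGroup W] (Γ : P →* H) (E : P → W →+ V)
    (hE : ∀ a b d, E (a * b) d = E a d + Γ a • E b d) (K : Subgroup P) {δ : ℕ} (a : Fin δ → P) (hgen : Subgroup.closure ((K : Set P) ∪ Set.range a) = ⊤)
    (hsep : ∀ d : W, (∀ b, E b d = 0) → d = 0) (v : Fin δ → V) (hv : ∀ d : W, (∀ w ∈ K, E w d = 0) → ∃ j, E (a j) d ≠ v j) :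
    2 * Nat.card {d : W // ∀ w ∈ K, E w d = 0} ≤ Nat.card V ^ δ := by
  have hone : ∀ d, E 1 d = 0 := by
    intro d
    have h := hE 1 1 d
    rw [one_mul, map_one, one_smul] at h
    exact (left_eq_add.1 h)
  let U : AddSubgroup W :=
    { carrier := {d | ∀ w ∈ K, E w d = 0}
      zero_mem' := fun w _ => map_zero _
      add_mem' := fun {x y} hx hy w hw => by rw [map_add, hx w hw, hy w hw, add_zero]
      neg_mem' := fun {x} hx w hw => by rw [map_neg, hx w hw, neg_zero] }
  let f : U →+ (Fin δ → V) :=
    { toFun := fun d j => E (a j) d.1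
      map_zero' := by
        funext j
        exact map_zero _
      map_add' := fun x y => by
        funext j
        exact map_add _ _ _ }
  have hinj : Function.Injective f := by
    intro d d' h
    apply Subtype.ext
    have key : ∀ b, E b (d.1 - d'.1) = 0 := by
      intro b
      have hb : b ∈ Subgroup.closure ((K : Set P) ∪ Set.range a) := by
        rw [hgen]
        exact Subgroup.mem_top b
      induction hb using Subgroup.closure_induction with
      | mem x hx =>
        rcases hx with hx | ⟨j, rfl⟩
        · rw [map_sub, d.2 x hx, d'.2 x hx, sub_zero]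
        · have h1 : E (a j) d.1 = E (a j) d'.1 := congrFun h j
          rw [map_sub, h1, sub_self]
      | one => exact hone _
      | mul x y _ _ hx hy => rw [hE, hx, hy, smul_zero, add_zero]
      | inv x _ hx =>
        have h1 := hE x⁻¹ x (d.1 - d'.1)
        rw [inv_mul_cancel, hone, hx, smul_zero, add_zero] at h1
        exact h1.symm
    exact sub_eq_zero.1 (hsep _ key)
  have hU : Nat.card {d : W // ∀ w ∈ K, E w d = 0} = Nat.card f.range :=
    Nat.card_congr (Equiv.ofInjective f hinj)
  have hne : f.range ≠ ⊤ := by
    intro h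
    have h1 : v ∈ f.range := by
      rw [h]
      exact AddSubgroup.mem_top v
    obtain ⟨d, hd⟩ := h1
    obtain ⟨j, hj⟩ := hv d.1 d.2
    exact hj (congrFun hd j)
  have h1 := f.range.card_mul_index
  have h2 : 2 ≤ f.range.index := by
    have h3 : f.range.index ≠ 1 := fun h => hne (AddSubgroup.index_eq_one.1 h)
    have h4 : f.range.index ≠ 0 := AddSubgroup.index_ne_zero_of_finite
    omega
  rw [hU]
  calc 2 * Nat.card f.range ≤ f.range.index * Nat.card f.range := Nat.mul_le_mul_right _ h2
    _ = Nat.card (Fin δ → V) := by rw [mul_comm, h1]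
    _ = Nat.card V ^ δ := by rw [Nat.card_fun, Nat.card_fin]

end SO
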