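import Pool.Agent.Lib.MP_943dad_ag.SO.Aff
import Pool.Agent.Lib.MP_943dad_ag.SO.Cnt1
import Pool.Agent.Lib.MP_943dad_ag.SO.Up
import Pool.Agent.Lib.MP_943dad_ag.SO.Up1
import Pool.Agent.Lib.MP_943dad_ag.SO.Lo

/-!
# SO-Abs1: the abstract existence theorem (sharper form)
-/

namespace SO

section

variable {V H W : Type} [AddCommGroup V] [Group H] [DistribMulAction H V] [AddCommGroup W]

/-- the group of pairs -/
abbrev Pr (W H : Type) [Group H] : Type := Equiv.Perm (W × H) × (W → H)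

theorem abs1 [Finite V] [Finite W] (e : Emb V H) (hsimple : ∀ U : AddSubgroup V, (∀ g : H, ∀ u ∈ U, g • u ∈ U) → U = ⊥ ∨ U = ⊤) (s : V) (hs : s ≠ 0)
    (P : Subgroup (Pr W H)) (haff : ∀ a ∈ P, ∃ Δ E C, IsAff e s a.1 a.2 Δ E C) (hsurj : ∀ g : H, ∃ a ∈ P, ∃ v, a.2 0 = e.ι v * g)
    {δ : ℕ} (y : Fin δ → H) (hy : Subgroup.closure (Set.range y) = ⊤) (hsep : ∀ d : W, (∀ a ∈ P, a.2 d = a.2 0) → d = 0)
    (Wh : AddSubgroup W) (hWh : Wh ≤ AddSubgroup.closure {w | ∃ a ∈ P, ∃ Δ E C, IsAff e s a.1 a.2 Δ E C ∧ ∃ v, w = Δ v})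
    (hcard : Nat.card V ^ (2 * δ + 2) ≤ Nat.card Wh) (X : W → Subgroup H) (hX : ∀ t, ∀ a ∈ P, a.2 t ∈ X t) (r : V) :
    ∃ a ∈ P, ∃ t, a.1 (0, e.ι r) = (t, 1) ∧ X t = ⊤ := by
  classical
  -- the data of the elements of `P`
  choose Δ' hΔ' using fun a : P => haff a.1 a.2
  choose E' hE' using hΔ'
  choose C' hA using hE'
  have hAff : ∀ a : P, IsAff e s a.1.1 a.1.2 (Δ' a) (E' a) (C' a) := hA
  let Γ : P →* H := ⟨⟨fun a => a.1.2 0, rfl⟩, fun a b => rfl⟩
  have hΓ : ∀ a : P, Γ a = a.1.2 0 := fun a => rfl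
  -- uniqueness of `E`
  have hEu : ∀ (a : P) (E : W →+ V), (∀ t, a.1.2 t = e.ι (E t) * a.1.2 0) → ∀ t, E' a t = E t := by
    intro a E h t
    have h1 := (hAff a).G_eq t
    rw [h t] at h1
    exact (e.inj (mul_right_cancel h1)).symm
  have hEmul : ∀ a b : P, ∀ d, E' (a * b) d = E' a d + Γ a • E' b d := by
    intro a b d
    have h1 := ((hAff a).mul (hAff b)).G_eq
    have h2 := hEu (a * b) (E' a + (sm V (Γ a)).comp (E' b)) h1 d
    rw [h2]
    rfl
  -- uniqueness of `Δ`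
  have hΔu : ∀ (a : P) (Δ : V →+ W) E C, IsAff e s a.1.1 a.1.2 Δ E C → ∀ v, Δ' a v = Δ v := by
    intro a Δ E C h v
    have h1 : ∀ ρ : H, Δ' a (ρ • s) = Δ (ρ • s) := by
      intro ρ
      have h2 := (hAff a).τ_eq 0 ρ
      rw [h.τ_eq 0 ρ, Prod.mk.injEq] at h2
      exact (add_left_cancel h2.1).symm
    let U : AddSubgroup V := AddSubgroup.closure (Set.range fun ρ : H => ρ • s)
    have hU : U = ⊤ := by
      refine (hsimple U ?_).resolve_left ?_
      · intro g u hu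
        induction hu using AddSubgroup.closure_induction with
        | mem x hx =>
          obtain ⟨ρ, rfl⟩ := hx
          exact AddSubgroup.subset_closure ⟨g * ρ, mul_smul _ _ _⟩
        | zero => rw [smul_zero]; exact U.zero_mem
        | add x y _ _ h1 h2 => rw [smul_add]; exact U.add_mem h1 h2
        | neg x _ h1 => rw [smul_neg]; exact U.neg_mem h1
      · intro h0
        have h3 : s ∈ U := AddSubgroup.subset_closure ⟨1, one_smul _ _⟩
        rw [h0, AddSubgroup.mem_bot] at h3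
        exact hs h3
    have hv : v ∈ U := by rw [hU]; exact AddSubgroup.mem_top v
    induction hv using AddSubgroup.closure_induction with
    | mem x hx => obtain ⟨ρ, rfl⟩ := hx; exact h1 ρ
    | zero => rw [map_zero, map_zero]
    | add x y _ _ h2 h3 => rw [map_add, map_add, h2, h3]
    | neg x _ h2 => rw [map_neg, map_neg, h2]
  have hΔmul : ∀ a b : P, ∀ v, Δ' (a * b) v = Δ' b v + Δ' a (Γ b • v) := by
    intro a b v
    have h1 := hΔu (a * b) _ _ _ ((hAff a).mul (hAff b)) v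
    rw [h1]
    rfl
  -- closed words
  let K : Subgroup P :=
    { carrier := {a | ∃ v, Γ a = e.ι v}
      one_mem' := ⟨0, by rw [map_one, e.zero]⟩
      mul_mem' := by
        rintro a b ⟨v, hv⟩ ⟨w, hw⟩
        exact ⟨v + w, by rw [map_mul, hv, hw, e.add]⟩
      inv_mem' := by
        rintro a ⟨v, hv⟩
        exact ⟨-v, by rw [map_inv, hv, e.neg]⟩ }
  have hKact : ∀ w ∈ K, ∀ v : V, Γ w • v = v := by
    rintro w ⟨u, hu⟩ v
    rw [hu, e.triv]
  -- generators
  choose aj haj using fun j => hsurj (y j)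
  have hajP : ∀ j, aj j ∈ P := fun j => (haj j).1
  choose vj hvj using fun j => (haj j).2
  let a : Fin δ → P := fun j => ⟨aj j, hajP j⟩
  have hgen : Subgroup.closure ((K : Set P) ∪ Set.range a) = ⊤ := by
    rw [eq_top_iff]
    intro b _
    set Q := Subgroup.closure ((K : Set P) ∪ Set.range a) with hQ
    have hKQ : K ≤ Q := fun k hk => Subgroup.subset_closure (Or.inl hk)
    have h1 : ∀ g : H, ∃ c ∈ Q, ∃ v, Γ c = e.ι v * g := by
      intro g
      have hg : g ∈ Subgroup.closure (Set.range y) := by rw [hy]; exact Subgroup.mem_top g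
      induction hg using Subgroup.closure_induction with
      | mem x hx =>
        obtain ⟨j, rfl⟩ := hx
        exact ⟨a j, Subgroup.subset_closure (Or.inr ⟨j, rfl⟩), vj j, hvj j⟩
      | one => exact ⟨1, Q.one_mem, 0, by rw [map_one, e.zero, mul_one]⟩
      | mul g g' _ _ h h' =>
        obtain ⟨c, hc, v, hv⟩ := h
        obtain ⟨c', hc', v', hv'⟩ := h'
        refine ⟨c * c', Q.mul_mem hc hc', v + g • v', ?_⟩
        rw [map_mul, hv, hv', e.add, mul_assoc, ← mul_assoc g, e.mul]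
        simp only [mul_assoc]
      | inv g _ h =>
        obtain ⟨c, hc, v, hv⟩ := h
        refine ⟨c⁻¹, Q.inv_mem hc, -(g⁻¹ • v), ?_⟩
        rw [map_inv, hv, mul_inv_rev, ← e.neg, e.mul, smul_neg]
    obtain ⟨c, hc, v, hv⟩ := h1 (Γ b)
    have h2 : b * c⁻¹ ∈ K := by
      refine ⟨-v, ?_⟩
      rw [map_mul, map_inv, hv, mul_inv_rev, mul_inv_cancel_left, e.neg]
    have h3 := Q.mul_mem (hKQ h2) hc
    rwa [inv_mul_cancel_right] at h3
  -- dichotomy
  have hEconj : ∀ (f w : P), w ∈ K → ∀ d, E' (f * w * f⁻¹) d = Γ f • E' w d := by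
    intro f w hw d
    have h0 : E' (f * f⁻¹) d = E' f d + Γ f • E' f⁻¹ d := hEmul f f⁻¹ d
    have h00 : E' (1 : P) d = 0 := by
      have := hEmul 1 1 d
      rw [mul_one, map_one, one_smul] at this
      exact left_eq_add.1 this
    rw [mul_inv_cancel, h00] at h0
    rw [hEmul, hEmul, map_mul, mul_smul, hKact w hw, add_assoc, add_comm (Γ f • E' w d), ← add_assoc, ← h0, zero_add]
  have hKn : ∀ f w : P, w ∈ K → f * w * f⁻¹ ∈ K := by
    rintro f w ⟨v, hv⟩
    refine ⟨Γ f • v, ?_⟩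
    rw [map_mul, map_mul, map_inv, hv, e.conj]
  have hdich : ∀ d : W, (∀ w ∈ K, E' w d = 0) ∨ ∀ v, ∃ w ∈ K, E' w d = v := by
    intro d
    let U : AddSubgroup V :=
      { carrier := {v | ∃ w ∈ K, E' w d = v}
        zero_mem' := ⟨1, K.one_mem, by
          have := hEmul 1 1 d
          rw [mul_one, map_one, one_smul] at this
          exact left_eq_add.1 this⟩
        add_mem' := by
          rintro _ _ ⟨w, hw, rfl⟩ ⟨w', hw', rfl⟩
          exact ⟨w * w', K.mul_mem hw hw', by rw [hEmul, hKact w hw]⟩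
        neg_mem' := by
          rintro _ ⟨w, hw, rfl⟩
          refine ⟨w⁻¹, K.inv_mem hw, ?_⟩
          have h0 := hEmul w w⁻¹ d
          have h00 := hEmul 1 1 d
          rw [mul_one, map_one, one_smul] at h00
          rw [mul_inv_cancel, left_eq_add.1 h00, hKact w hw] at h0
          exact (neg_eq_of_add_eq_zero_right h0.symm).symm }
    rcases hsimple U (by
      rintro g _ ⟨w, hw, rfl⟩
      obtain ⟨b, hb, v, hbv⟩ := hsurj g
      refine ⟨⟨b, hb⟩ * w * ⟨b, hb⟩⁻¹, hKn _ w hw, ?_⟩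
      rw [hEconj _ w hw]
      have h1 : Γ ⟨b, hb⟩ = e.ι v * g := hbv
      rw [h1, mul_smul, e.triv]) with h | h
    · left
      intro w hw
      have h1 : E' w d ∈ U := ⟨w, hw, rfl⟩
      rw [h, AddSubgroup.mem_bot] at h1
      exact h1
    · right
      intro v
      have h1 : v ∈ U := by rw [h]; exact AddSubgroup.mem_top v
      exact h1
  -- the radical
  have hsep' : ∀ d : W, (∀ b, E' b d = 0) → d = 0 := by
    intro d hd
    refine hsep d fun b hb => ?_
    have h1 := (hAff ⟨b, hb⟩).G_eq d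
    rw [hd ⟨b, hb⟩, e.zero, one_mul] at h1
    exact h1
  set Rd : ℕ := Nat.card {d : W // ∀ w ∈ K, E' w d = 0} with hRd
  have hRad : Rd ≤ Nat.card V ^ δ := up Γ E' hEmul K a hgen hsep'
  have hRd0 : 0 < Rd := by
    have : Nonempty {d : W // ∀ w ∈ K, E' w d = 0} := ⟨⟨0, fun w _ => map_zero _⟩⟩
    exact Nat.card_pos
  -- displacements
  have hΔ1 : ∀ v, Δ' (1 : P) v = 0 := by
    intro v
    have := hΔmul 1 1 v
    rw [mul_one, map_one, one_smul] at this
    exact left_eq_add.1 this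
  have hΔinv : ∀ (b : P) (v : V), Δ' b⁻¹ (Γ b • v) = - Δ' b v := by
    intro b v
    have := hΔmul b⁻¹ b v
    rw [inv_mul_cancel, hΔ1] at this
    exact (neg_eq_of_add_eq_zero_right this.symm).symm
  let D : AddSubgroup W :=
    { carrier := {d | ∃ w ∈ K, Δ' w s = d}
      zero_mem' := ⟨1, K.one_mem, hΔ1 s⟩
      add_mem' := by
        rintro _ _ ⟨w, hw, rfl⟩ ⟨w', hw', rfl⟩
        exact ⟨w * w', K.mul_mem hw hw', by rw [hΔmul, hKact w' hw', add_comm]⟩
      neg_mem' := by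
        rintro _ ⟨w, hw, rfl⟩
        refine ⟨w⁻¹, K.inv_mem hw, ?_⟩
        have := hΔinv w s
        rwa [hKact w hw] at this }
  have hDall : ∀ w ∈ K, ∀ v, Δ' w v ∈ D := by
    let U : AddSubgroup V :=
      { carrier := {v | ∀ w ∈ K, Δ' w v ∈ D}
        zero_mem' := fun w _ => by rw [map_zero]; exact D.zero_mem
        add_mem' := fun {v v'} h h' w hw => by rw [map_add]; exact D.add_mem (h w hw) (h' w hw)
        neg_mem' := fun {v} h w hw => by rw [map_neg]; exact D.neg_mem (h w hw) }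
    have hU : U = ⊤ := by
      refine (hsimple U ?_).resolve_left ?_
      · intro g v hv w hw
        obtain ⟨b, hb, u, hbu⟩ := hsurj g
        set f : P := ⟨b, hb⟩ with hf
        have h1 : Γ f = e.ι u * g := hbu
        have h2 : ∀ x : V, Γ f • x = g • x := fun x => by rw [h1, mul_smul, e.triv]
        have h3 : f⁻¹ * w * f ∈ K := by
          have := hKn f⁻¹ w hw
          rwa [inv_inv] at this
        have h4 := hv _ h3
        have h5 : Δ' (f⁻¹ * w * f) v = Δ' w (g • v) := by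
          rw [hΔmul, hΔmul, hKact w hw, hΔinv, h2]
          abel
        rwa [h5] at h4
      · intro h0
        have h3 : s ∈ U := fun w hw => ⟨w, hw, rfl⟩
        rw [h0, AddSubgroup.mem_bot] at h3
        exact hs h3
    intro w hw v
    have hv : v ∈ U := by rw [hU]; exact AddSubgroup.mem_top v
    exact hv w hw
  have hlo : Nat.card Wh ≤ Nat.card D * Nat.card V ^ δ := by
    refine lo Γ Δ' hΔmul K a hgen D hDall Wh (hWh.trans ?_)
    refine AddSubgroup.closure_mono ?_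
    rintro _ ⟨b, hb, Δ, E, C, hA, v, rfl⟩
    exact ⟨⟨b, hb⟩, v, (hΔu ⟨b, hb⟩ Δ E C hA v).symm⟩
  have hq : 2 ≤ Nat.card V := by
    have : Nontrivial V := ⟨⟨s, 0, hs⟩⟩
    exact Finite.one_lt_card
  -- the values
  have hgK : ∀ w : K, ∃ v, Γ w.1 = e.ι v := fun w => w.2
  choose gK hgK using hgK
  let h : K → V := fun w => C' w.1 s + gK w
  have hτ : ∀ (w : K) (t : W) (ρ : V), w.1.1.1 (t, e.ι ρ) = (t + Δ' w.1 s, e.ι (ρ + h w + E' w.1 t)) := by
    intro w t ρ
    rw [(hAff w.1).τ_eq, e.triv, (hAff w.1).G_eq t]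
    have h1 : w.1.1.2 0 = e.ι (gK w) := hgK w
    rw [h1, ← e.add, ← e.add, ← e.add]
    refine Prod.ext rfl (congrArg e.ι ?_)
    change C' w.1 s + (E' w.1 t + gK w) + ρ = ρ + (C' w.1 s + gK w) + E' w.1 t
    abel
  have hhmul : ∀ w w' : K, h (w * w') = h w + h w' + E' w.1 (Δ' w'.1 s) := by
    intro w w'
    have h1 := hτ (w * w') 0 0
    have h2 : (w * w').1.1.1 (0, e.ι 0) = w.1.1.1 (w'.1.1.1 (0, e.ι 0)) := rfl
    rw [h2, hτ w' 0 0, hτ w, Prod.mk.injEq] at h1
    have h3 := e.inj h1.2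
    rw [map_zero, map_zero, add_zero, add_zero, zero_add, zero_add, zero_add] at h3
    rw [← h3]
    abel
  let M : AddSubgroup V :=
    { carrier := {m | ∀ t ∈ D, ∀ ρ : V, ∃ w : K, w.1.1.1 (t, e.ι ρ) = (t, e.ι (ρ + m))}
      zero_mem' := fun t _ ρ => ⟨1, by rw [add_zero]; rfl⟩
      add_mem' := by
        intro m m' hm hm' t ht ρ
        obtain ⟨w, hw⟩ := hm t ht ρ
        obtain ⟨w', hw'⟩ := hm' t ht (ρ + m)
        refine ⟨w' * w, ?_⟩
        have h2 : (w' * w).1.1.1 (t, e.ι ρ) = w'.1.1.1 (w.1.1.1 (t, e.ι ρ)) := rfl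
        rw [h2, hw, hw', add_assoc]
      neg_mem' := by
        intro m hm t ht ρ
        obtain ⟨w, hw⟩ := hm t ht (ρ + -m)
        refine ⟨w⁻¹, ?_⟩
        have h2 : (w⁻¹).1.1.1 (t, e.ι ρ) = (w.1.1.1)⁻¹ (t, e.ι ρ) := rfl
        rw [h2, Equiv.Perm.inv_eq_iff_eq, hw, neg_add_cancel_right] }
  have hmemM : ∀ m, m ∈ M ↔ ∀ t ∈ D, ∀ ρ : V, ∃ w : K, w.1.1.1 (t, e.ι ρ) = (t, e.ι (ρ + m)) := fun m => Iff.rfl
  have hM1 : ∀ w w' : K, E' w.1 (Δ' w'.1 s) - E' w'.1 (Δ' w.1 s) ∈ M := by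
    intro w w'
    rw [hmemM]
    intro t ht ρ
    refine ⟨(w' * w)⁻¹ * (w * w'), ?_⟩
    have h2 : ((w' * w)⁻¹ * (w * w')).1.1.1 (t, e.ι ρ) =
        (w'.1.1.1 * w.1.1.1)⁻¹ (w.1.1.1 (w'.1.1.1 (t, e.ι ρ))) := rfl
    rw [h2, Equiv.Perm.inv_eq_iff_eq, Equiv.Perm.mul_apply, hτ w', hτ w, hτ w, hτ w']
    refine Prod.ext ?_ (congrArg e.ι ?_)
    · dsimp only
      abel
    · rw [map_add, map_add]
      abel
  have hM2 : ∀ w : K, Δ' w.1 s = 0 → h w ∈ M := by
    intro w hw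
    rw [hmemM]
    intro t ht ρ
    obtain ⟨w0, hw0, rfl⟩ := ht
    have h3 := hM1 w ⟨w0, hw0⟩
    rw [hw, map_zero, sub_zero, hmemM] at h3
    have h4 := M.neg_mem ((hmemM _).2 h3)
    rw [hmemM] at h4
    obtain ⟨w1, hw1⟩ := h4 (Δ' w0 s) ⟨w0, hw0, rfl⟩ ρ
    refine ⟨w * w1, ?_⟩
    have h2 : (w * w1).1.1.1 (Δ' w0 s, e.ι ρ) = w.1.1.1 (w1.1.1.1 (Δ' w0 s, e.ι ρ)) := rfl
    rw [h2, hw1, hτ w, hw, add_zero]
    refine Prod.ext rfl (congrArg e.ι ?_)
    abel
  -- bad points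
  let B : Set W := {t | ∀ v, e.ι v ∈ X t → v = 0}
  have hBval : ∀ t ∈ B, ∀ w : K, E' w.1 t = - gK w := by
    intro t ht w
    have h1 := hX t w.1.1 w.1.2
    rw [(hAff w.1).G_eq t] at h1
    have h2 : w.1.1.2 0 = e.ι (gK w) := hgK w
    rw [h2, ← e.add] at h1
    exact eq_neg_of_add_eq_zero_left (ht _ h1)
  have hB : B.ncard ≤ Rd := by
    rcases Set.eq_empty_or_nonempty B with h0 | ⟨t0, ht0⟩
    · rw [h0, Set.ncard_empty]
      exact Nat.zero_le _
    · rw [← Nat.card_coe_set_eq]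
      refine Nat.card_le_card_of_injective (fun t : B => (⟨t.1 - t0, ?_⟩ : {d : W // ∀ w ∈ K, E' w d = 0})) ?_
      · intro w hw
        rw [map_sub, hBval t.1 t.2 ⟨w, hw⟩, hBval t0 ht0 ⟨w, hw⟩, sub_self]
      · intro t t' htt
        have := congrArg Subtype.val htt
        exact Subtype.ext (sub_left_injective this)
  have hBR : B.Nonempty → 2 * Rd ≤ Nat.card V ^ δ := by
    rintro ⟨t0, ht0⟩
    have hvj' : ∀ j, Γ (a j) = e.ι (vj j) * y j := hvj
    refine up1 Γ E' hEmul K a hgen hsep' (fun j => - E' (a j) t0 - vj j) ?_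
    intro d hd
    by_contra hcon
    push Not at hcon
    -- evaluation at `t0 + d`
    let f : P →* H := ⟨⟨fun b => b.1.2 (t0 + d), rfl⟩, fun b b' => rfl⟩
    have hf : ∀ b : P, f b = e.ι (E' b (t0 + d)) * Γ b := fun b => (hAff b).G_eq (t0 + d)
    have hfa : ∀ j, f (a j) = y j := by
      intro j
      rw [hf, hvj', map_add, hcon j, ← mul_assoc, ← e.add]
      have : E' (a j) t0 + (-E' (a j) t0 - vj j) + vj j = 0 := by abel
      rw [this, e.zero, one_mul]
    have hfK : ∀ w ∈ K, f w = 1 := by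
      intro w hw
      rw [hf, map_add, hd w hw, add_zero, hBval t0 ht0 ⟨w, hw⟩]
      have h2 : Γ w = e.ι (gK ⟨w, hw⟩) := hgK ⟨w, hw⟩
      rw [h2, ← e.add, neg_add_cancel, e.zero]
    have hfs : f.range = ⊤ := by
      rw [eq_top_iff, ← hy, Subgroup.closure_le]
      rintro _ ⟨j, rfl⟩
      exact ⟨a j, hfa j⟩
    have h3 : e.ι s ∈ f.range := by
      rw [hfs]
      exact Subgroup.mem_top _
    obtain ⟨b, hb⟩ := h3
    have h4 : b ∈ K := by
      refine ⟨-E' b (t0 + d) + s, ?_⟩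
      rw [e.add, ← hb, hf, ← mul_assoc, ← e.add, neg_add_cancel, e.zero, one_mul]
    rw [hfK b h4, ← e.zero] at hb
    exact hs (e.inj hb).symm
  have hgood : ∀ t, t ∉ B → X t = ⊤ := by
    intro t ht
    have h1 : ∃ v, e.ι v ∈ X t ∧ v ≠ 0 := by
      by_contra hcon
      apply ht
      intro v hv
      by_contra h0
      exact hcon ⟨v, hv, h0⟩
    obtain ⟨v0, hv0, hv1⟩ := h1
    have hsX : ∀ g : H, ∃ u, e.ι u * g ∈ X t := by
      intro g
      obtain ⟨b, hb, v, hbv⟩ := hsurj g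
      have h2 := hX t b hb
      rw [(hAff ⟨b, hb⟩).G_eq t, hbv, ← mul_assoc, ← e.add] at h2
      exact ⟨_, h2⟩
    let U : AddSubgroup V :=
      { carrier := {v | e.ι v ∈ X t}
        zero_mem' := by
          change e.ι 0 ∈ X t
          rw [e.zero]
          exact (X t).one_mem
        add_mem' := by
          intro v w hv hw
          change e.ι (v + w) ∈ X t
          rw [e.add]
          exact (X t).mul_mem hv hw
        neg_mem' := by
          intro v hv
          change e.ι (-v) ∈ X t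
          rw [e.neg]
          exact (X t).inv_mem hv }
    have hU : U = ⊤ := by
      refine (hsimple U ?_).resolve_left ?_
      · intro g u hu
        obtain ⟨w, hw⟩ := hsX g
        have h3 := (X t).mul_mem ((X t).mul_mem hw hu) ((X t).inv_mem hw)
        rw [e.conj, mul_smul, e.triv] at h3
        exact h3
      · intro h0
        have h3 : v0 ∈ U := hv0
        rw [h0, AddSubgroup.mem_bot] at h3
        exact hv1 h3
    rw [eq_top_iff]
    intro g _
    obtain ⟨u, hu⟩ := hsX g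
    have h3 : -u ∈ U := by rw [hU]; exact AddSubgroup.mem_top _
    have h4 := (X t).mul_mem h3 hu
    rwa [e.neg, inv_mul_cancel_left] at h4
  -- the count
  have hDcard : Nat.card V ^ δ * Nat.card V ^ 2 ≤ (Set.range fun w : K => Δ' w.1 s).ncard := by
    have h1 : (Set.range fun w : K => Δ' w.1 s) = (D : Set W) := by
      ext d
      constructor
      · rintro ⟨w, rfl⟩
        exact ⟨w.1, w.2, rfl⟩
      · rintro ⟨w, hw, rfl⟩
        exact ⟨⟨w, hw⟩, rfl⟩
    rw [h1, ← Nat.card_coe_set_eq]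
    have h2 : Nat.card V ^ δ * (Nat.card V ^ δ * Nat.card V ^ 2) ≤ Nat.card V ^ δ * Nat.card (D : Set W) := by
      calc Nat.card V ^ δ * (Nat.card V ^ δ * Nat.card V ^ 2) = Nat.card V ^ (2 * δ + 2) := by ring
        _ ≤ Nat.card Wh := hcard
        _ ≤ Nat.card D * Nat.card V ^ δ := hlo
        _ = Nat.card V ^ δ * Nat.card (D : Set W) := mul_comm _ _
    exact Nat.le_of_mul_le_mul_left h2 (by positivity)
  have hBD : B = ∅ ∨ 2 * Rd * Nat.card V ^ 2 ≤ (Set.range fun w : K => Δ' w.1 s).ncard := by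
    rcases Set.eq_empty_or_nonempty B with h0 | h0
    · exact Or.inl h0
    · exact Or.inr ((Nat.mul_le_mul_right _ (hBR h0)).trans hDcard)
  obtain ⟨w, hw1, hw2⟩ := cnt1 (fun w : K => Δ' w.1 s) h (fun w : K => E' w.1)
    (fun w w' => by
      change Δ' (w.1 * w'.1) s = _
      rw [hΔmul, hKact w'.1 w'.2, add_comm])
    (fun w w' d => by
      change E' (w.1 * w'.1) d = _
      rw [hEmul, hKact w.1 w.2]) hhmul
    (fun d => by
      rcases hdich d with h1 | h1
      · exact Or.inl fun w => h1 w.1 w.2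
      · refine Or.inr fun v => ?_
        obtain ⟨w, hw, hv⟩ := h1 v
        exact ⟨⟨w, hw⟩, hv⟩) Rd hRd0
    (by
      refine le_of_eq ?_
      refine Nat.card_congr (Equiv.subtypeEquivRight fun d => ?_)
      exact ⟨fun h w hw => h ⟨w, hw⟩, fun h w => h w.1 w.2⟩) B hB
    ((Nat.mul_le_mul_right _ hRad).trans hDcard) hBD M hM1 hM2 r
  have h5 := M.neg_mem hw2
  rw [hmemM] at h5
  obtain ⟨w1, hw1'⟩ := h5 (Δ' w.1 s) ⟨w.1, w.2, rfl⟩ (r + h w)
  refine ⟨(w1 * w).1.1, (w1 * w).1.2, Δ' w.1 s, ?_, hgood _ hw1⟩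
  have h2 : (w1 * w).1.1.1 (0, e.ι r) = w1.1.1.1 (w.1.1.1 (0, e.ι r)) := rfl
  rw [h2, hτ w, map_zero, add_zero, zero_add, hw1', add_neg_cancel, e.zero]

end

end SO
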