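import Mathlib

/-!
# SO-Aff: affine transformations of `W × H`
-/

namespace SO

/-- `V`, an additive group with an action of `H`, is embedded into `H` as a normal subgroup. -/
structure Emb (V H : Type) [AddCommGroup V] [Group H] [DistribMulAction H V] where
  ι : V → H
  add : ∀ v w, ι (v + w) = ι v * ι w
  inj : Function.Injective ι
  conj : ∀ (g : H) v, g * ι v * g⁻¹ = ι (g • v)

section

variable {V H W : Type} [AddCommGroup V] [Group H] [DistribMulAction H V] [AddCommGroup W]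

theorem Emb.zero (e : Emb V H) : e.ι 0 = 1 := by
  have := e.add 0 0
  rw [add_zero] at this
  exact (mul_eq_left.1 this.symm)

theorem Emb.neg (e : Emb V H) (v : V) : e.ι (-v) = (e.ι v)⁻¹ := by
  have := e.add (-v) v
  rw [neg_add_cancel, e.zero] at this
  exact eq_inv_of_mul_eq_one_left this.symm

theorem Emb.sub (e : Emb V H) (v w : V) : e.ι (v - w) = e.ι v * (e.ι w)⁻¹ := by
  rw [sub_eq_add_neg, e.add, e.neg]

theorem Emb.comm (e : Emb V H) (v w : V) : e.ι v * e.ι w = e.ι w * e.ι v := by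
  rw [← e.add, ← e.add, add_comm]

theorem Emb.triv (e : Emb V H) (v w : V) : e.ι v • w = w := by
  apply e.inj
  rw [← e.conj, e.comm, mul_inv_cancel_right]

theorem Emb.mul (e : Emb V H) (g : H) (v : V) : g * e.ι v = e.ι (g • v) * g := by
  rw [← e.conj, inv_mul_cancel_right]

/-- `τ (t, ρ) = (t + Δ (ρ • s), ι (C (ρ • s)) * G t * ρ)` with `G t = ι (E t) * G 0`. -/
structure IsAff (e : Emb V H) (s : V) (τ : Equiv.Perm (W × H)) (G : W → H) (Δ : V →+ W) (E : W →+ V) (C : V →+ V) : Prop where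
  G_eq : ∀ t, G t = e.ι (E t) * G 0
  τ_eq : ∀ t ρ, τ (t, ρ) = (t + Δ (ρ • s), e.ι (C (ρ • s)) * G t * ρ)

/-- the action of `g` as a homomorphism -/
def sm (V : Type) {H : Type} [AddCommGroup V] [Group H] [DistribMulAction H V] (g : H) : V →+ V := DistribSMul.toAddMonoidHom V g

theorem sm_apply (g : H) (v : V) : sm V g v = g • v := rfl

theorem IsAff.smul {e : Emb V H} {s : V} {τ : Equiv.Perm (W × H)} {G : W → H} {Δ : V →+ W} {E : W →+ V} {C : V →+ V} (h : IsAff e s τ G Δ E C)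
    (t : W) (v : V) : G t • v = G 0 • v := by
  rw [h.G_eq, mul_smul, e.triv]

theorem IsAff.one (e : Emb V H) (s : V) : IsAff e s (1 : Equiv.Perm (W × H)) 1 0 0 0 where
  G_eq := fun t => by simp [e.zero]
  τ_eq := fun t ρ => by simp [e.zero]

theorem IsAff.mul {e : Emb V H} {s : V} {τ τ' : Equiv.Perm (W × H)} {G G' : W → H} {Δ Δ' : V →+ W} {E E' : W →+ V} {C C' : V →+ V}
    (h' : IsAff e s τ' G' Δ' E' C') (h : IsAff e s τ G Δ E C) :
    IsAff e s (τ' * τ) (G' * G) (Δ + Δ'.comp (sm V (G 0))) (E' + (sm V (G' 0)).comp E)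
      (C'.comp (sm V (G 0)) + E'.comp Δ + (sm V (G' 0)).comp C) where
  G_eq := fun t => by
    rw [Pi.mul_apply, Pi.mul_apply, h'.G_eq, h.G_eq t, AddMonoidHom.add_apply, AddMonoidHom.comp_apply, sm_apply, e.add]
    rw [mul_assoc, ← mul_assoc (G' 0), e.mul]
    simp only [mul_assoc]
  τ_eq := fun t ρ => by
    rw [Equiv.Perm.mul_apply, h.τ_eq, h'.τ_eq]
    have h1 : (e.ι (C (ρ • s)) * G t * ρ) • s = G 0 • ρ • s := by
      rw [mul_smul, mul_smul, e.triv, h.smul]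
    rw [h1, Pi.mul_apply, h'.G_eq (t + Δ (ρ • s)), map_add, e.add, h'.G_eq t]
    refine Prod.ext ?_ ?_
    · simp only [AddMonoidHom.add_apply, AddMonoidHom.comp_apply, sm_apply, add_assoc]
    · simp only [AddMonoidHom.add_apply, AddMonoidHom.comp_apply, sm_apply, e.add]
      have h2 : e.ι (E' t) * e.ι (E' (Δ (ρ • s))) = e.ι (E' (Δ (ρ • s))) * e.ι (E' t) := e.comm _ _
      have h3 : G' 0 * e.ι (C (ρ • s)) = e.ι (G' 0 • C (ρ • s)) * G' 0 := e.mul _ _
      have h4 : e.ι (E' t) * e.ι (G' 0 • C (ρ • s)) = e.ι (G' 0 • C (ρ • s)) * e.ι (E' t) := e.comm _ _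
      calc e.ι (C' (G 0 • ρ • s)) * (e.ι (E' t) * e.ι (E' (Δ (ρ • s))) * G' 0) * (e.ι (C (ρ • s)) * G t * ρ)
          = e.ι (C' (G 0 • ρ • s)) * (e.ι (E' t) * e.ι (E' (Δ (ρ • s)))) * (G' 0 * e.ι (C (ρ • s))) * G t * ρ := by
            simp only [mul_assoc]
        _ = e.ι (C' (G 0 • ρ • s)) * e.ι (E' (Δ (ρ • s))) * (e.ι (E' t) * e.ι (G' 0 • C (ρ • s))) * G' 0 * G t * ρ := by
            rw [h2, h3]
            simp only [mul_assoc]
        _ = _ := by
            rw [h4]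
            simp only [mul_assoc]

theorem IsAff.inv {e : Emb V H} {s : V} {τ : Equiv.Perm (W × H)} {G : W → H} {Δ : V →+ W} {E : W →+ V} {C : V →+ V} (h : IsAff e s τ G Δ E C) :
    ∃ Δ' E' C', IsAff e s τ⁻¹ G⁻¹ Δ' E' C' := by
  have hEs : ∀ t, G t = e.ι (E t) * G 0 := h.G_eq
  refine ⟨-(Δ.comp (sm V (G 0)⁻¹)), -((sm V (G 0)⁻¹).comp E),
    (sm V (G 0)⁻¹).comp ((E.comp Δ).comp (sm V (G 0)⁻¹) - C.comp (sm V (G 0)⁻¹)), ?_, ?_⟩
  · intro t
    rw [Pi.inv_apply, Pi.inv_apply, h.G_eq t, mul_inv_rev, ← e.neg, e.mul]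
    simp only [AddMonoidHom.neg_apply, AddMonoidHom.comp_apply, sm_apply, smul_neg]
  · intro t ρ
    rw [Equiv.Perm.inv_eq_iff_eq, h.τ_eq]
    set v : V := (G 0)⁻¹ • ρ • s with hv
    simp only [AddMonoidHom.neg_apply, AddMonoidHom.comp_apply, AddMonoidHom.sub_apply, sm_apply, Pi.inv_apply, ← hv]
    have h1 : (e.ι ((G 0)⁻¹ • (E (Δ v) - C v)) * (G t)⁻¹ * ρ) • s = v := by
      rw [mul_smul, mul_smul, e.triv, inv_smul_eq_iff, h.smul, hv, smul_inv_smul]
    rw [h1, neg_add_cancel_right]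
    refine Prod.ext rfl ?_
    dsimp only
    have h2 : G (t + -Δ v) = e.ι (-E (Δ v)) * G t := by
      rw [hEs, hEs t, map_add, map_neg, e.add, ← mul_assoc, e.comm]
    have h3 : G t * e.ι ((G 0)⁻¹ • (E (Δ v) - C v)) = e.ι (E (Δ v) - C v) * G t := by
      rw [e.mul, h.smul, smul_inv_smul]
    rw [h2]
    calc ρ = e.ι (C v + (-E (Δ v) + (E (Δ v) - C v))) * ρ := by
          rw [show C v + (-E (Δ v) + (E (Δ v) - C v)) = 0 by abel, e.zero, one_mul]
      _ = e.ι (C v) * (e.ι (-E (Δ v)) * (e.ι (E (Δ v) - C v) * G t)) * (G t)⁻¹ * ρ := by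
          rw [e.add, e.add]
          group
      _ = e.ι (C v) * (e.ι (-E (Δ v)) * G t) * (e.ι ((G 0)⁻¹ • (E (Δ v) - C v)) * (G t)⁻¹ * ρ) := by
          rw [← h3]
          group

/-- the transformation with given data -/
def affPerm (e : Emb V H) (s : V) (Δ : V →+ W) (E : W →+ V) (C : V →+ V) (g : H) : Equiv.Perm (W × H) where
  toFun := fun x => (x.1 + Δ (x.2 • s), e.ι (C (x.2 • s)) * (e.ι (E x.1) * g) * x.2)
  invFun := fun x => (x.1 - Δ (g⁻¹ • x.2 • s),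
    (e.ι (C (g⁻¹ • x.2 • s)) * (e.ι (E (x.1 - Δ (g⁻¹ • x.2 • s))) * g))⁻¹ * x.2)
  left_inv := by
    rintro ⟨t, ρ⟩
    have h1 : (e.ι (C (ρ • s)) * (e.ι (E t) * g) * ρ) • s = g • ρ • s := by
      rw [mul_smul, mul_smul, mul_smul, e.triv, e.triv]
    simp only [h1, inv_smul_smul, add_sub_cancel_right]
    refine Prod.ext rfl ?_
    dsimp only
    group
  right_inv := by
    rintro ⟨t, ρ⟩
    set v : V := g⁻¹ • ρ • s with hv
    have h1 : ((e.ι (C v) * (e.ι (E (t - Δ v)) * g))⁻¹ * ρ) • s = v := by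
      rw [mul_smul, inv_smul_eq_iff, mul_smul, mul_smul, e.triv, e.triv, hv, smul_inv_smul]
    simp only [← hv, h1, sub_add_cancel]
    refine Prod.ext rfl ?_
    dsimp only
    group

theorem affPerm_apply (e : Emb V H) (s : V) (Δ : V →+ W) (E : W →+ V) (C : V →+ V) (g : H) (t : W) (ρ : H) :
    affPerm e s Δ E C g (t, ρ) = (t + Δ (ρ • s), e.ι (C (ρ • s)) * (e.ι (E t) * g) * ρ) := rfl

theorem isAff_affPerm (e : Emb V H) (s : V) (Δ : V →+ W) (E : W →+ V) (C : V →+ V) (g : H) :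
    IsAff e s (affPerm e s Δ E C g) (fun t => e.ι (E t) * g) Δ E C where
  G_eq := fun t => by simp [e.zero]
  τ_eq := fun t ρ => rfl

end

end SO
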