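import Pool.Agent.Lib.MP_943dad_ag.SO.Frame
import Pool.Agent.Lib.MP_943dad_ag.SO.Aff

/-!
The single step for lists from the single step for functions.
-/

namespace Pool.Agent.HMv

open Item

section Link

variable {H : Type} [Group H]

/-- A commutative normal subgroup, written additively. -/
def VN (N : Subgroup H) (_ : Comm N) : Type := N

namespace VN

variable {N : Subgroup H} {hN : Comm N}

/-- the element of `H` -/
def ι (v : VN N hN) : H := ((show N from v) : H)

theorem ι_mem (v : VN N hN) : ι v ∈ N := (show N from v).2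

/-- the element of `VN` -/
def mk (x : H) (hx : x ∈ N) : VN N hN := (show N from ⟨x, hx⟩)

theorem ι_mk (x : H) (hx : x ∈ N) : ι (mk x hx : VN N hN) = x := rfl

theorem ext {v w : VN N hN} (h : ι v = ι w) : v = w := Subtype.ext h

instance : Add (VN N hN) := ⟨fun v w => mk (ι v * ι w) (N.mul_mem (ι_mem v) (ι_mem w))⟩

instance : Zero (VN N hN) := ⟨mk 1 N.one_mem⟩

instance : Neg (VN N hN) := ⟨fun v => mk (ι v)⁻¹ (N.inv_mem (ι_mem v))⟩

theorem ι_add (v w : VN N hN) : ι (v + w) = ι v * ι w := rfl

theorem ι_zero : ι (0 : VN N hN) = 1 := rfl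

theorem ι_neg (v : VN N hN) : ι (-v) = (ι v)⁻¹ := rfl

instance : AddCommGroup (VN N hN) where
  add_assoc := fun a b c => ext (by rw [ι_add, ι_add, ι_add, ι_add, mul_assoc])
  zero_add := fun a => ext (by rw [ι_add, ι_zero, one_mul])
  add_zero := fun a => ext (by rw [ι_add, ι_zero, mul_one])
  nsmul := nsmulRec
  zsmul := zsmulRec
  neg_add_cancel := fun a => ext (by rw [ι_add, ι_neg, ι_zero, inv_mul_cancel])
  add_comm := fun a b => ext (by rw [ι_add, ι_add, hN _ (ι_mem a) _ (ι_mem b)])

instance [N.Normal] : SMul H (VN N hN) :=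
  ⟨fun g v => mk (g * ι v * g⁻¹) (Subgroup.Normal.conj_mem inferInstance _ (ι_mem v) g)⟩

theorem ι_smul [N.Normal] (g : H) (v : VN N hN) : ι (g • v) = g * ι v * g⁻¹ := rfl

instance [N.Normal] : DistribMulAction H (VN N hN) where
  one_smul := fun v => ext (by rw [ι_smul]; group)
  mul_smul := fun g h v => ext (by rw [ι_smul, ι_smul, ι_smul]; group)
  smul_zero := fun g => ext (by rw [ι_smul, ι_zero]; group)
  smul_add := fun g v w => ext (by rw [ι_smul, ι_add, ι_add, ι_smul, ι_smul]; group)

/-- the embedding -/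
def emb (N : Subgroup H) [N.Normal] (hN : Comm N) : SO.Emb (VN N hN) H where
  ι := ι
  add := fun _ _ => rfl
  inj := fun _ _ h => ext h
  conj := fun _ _ => rfl

theorem simple [N.Normal] (hmin : ∀ a ∈ N, a ≠ 1 → N ≤ Subgroup.normalClosure {a})
    (U : AddSubgroup (VN N hN)) (hU : ∀ g : H, ∀ u ∈ U, g • u ∈ U) : U = ⊥ ∨ U = ⊤ := by
  by_cases h : U = ⊥
  · exact Or.inl h
  · right
    obtain ⟨a, haU, ha⟩ : ∃ a ∈ U, a ≠ 0 := by
      by_contra hcon
      push Not at hcon
      exact h ((AddSubgroup.eq_bot_iff_forall U).2 hcon)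
    let K : Subgroup H :=
      { carrier := {x | ∃ u ∈ U, ι u = x}
        one_mem' := ⟨0, U.zero_mem, rfl⟩
        mul_mem' := by
          rintro _ _ ⟨u, hu, rfl⟩ ⟨v, hv, rfl⟩
          exact ⟨u + v, U.add_mem hu hv, rfl⟩
        inv_mem' := by
          rintro _ ⟨u, hu, rfl⟩
          exact ⟨-u, U.neg_mem hu, rfl⟩ }
    have hK : K.Normal := by
      constructor
      rintro _ ⟨u, hu, rfl⟩ g
      exact ⟨g • u, hU g u hu, rfl⟩
    have h1 : N ≤ K := by
      refine (hmin (ι a) (ι_mem a) (fun h' => ha (ext h'))).trans ?_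
      apply Subgroup.normalClosure_le_normal
      rw [Set.singleton_subset_iff]
      exact ⟨a, haU, rfl⟩
    rw [eq_top_iff]
    intro v _
    obtain ⟨u, hu, huv⟩ := h1 (ι_mem v)
    rw [← ext huv]
    exact hu

end VN

/-- the list of a function -/
def stt {c n : ℕ} (y : (Fin c × Bool) ⊕ Fin n → H) : List (Item H) :=
  hds (List.ofFn fun i : Fin c => (y (Sum.inl (i, false)), y (Sum.inl (i, true)))) ++
    pts (List.ofFn fun j : Fin n => y (Sum.inr j))

theorem gen_stt {c n : ℕ} (y : (Fin c × Bool) ⊕ Fin n → H) :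
    gen (stt y) = Subgroup.closure (Set.range y) := by
  apply le_antisymm
  · apply gen_le
    intro p hp z hz
    rcases List.mem_append.1 hp with hp | hp
    · unfold hds at hp
      rw [List.mem_map] at hp
      obtain ⟨q, hq, rfl⟩ := hp
      rw [List.mem_ofFn] at hq
      obtain ⟨i, rfl⟩ := hq
      rcases hz with h | h
      · rw [h]
        exact Subgroup.subset_closure ⟨Sum.inl (i, false), rfl⟩
      · have : z = y (Sum.inl (i, true)) := h
        rw [this]
        exact Subgroup.subset_closure ⟨Sum.inl (i, true), rfl⟩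
    · unfold pts at hp
      rw [List.mem_map] at hp
      obtain ⟨q, hq, rfl⟩ := hp
      rw [List.mem_ofFn] at hq
      obtain ⟨j, rfl⟩ := hq
      have : z = y (Sum.inr j) := hz
      rw [this]
      exact Subgroup.subset_closure ⟨Sum.inr j, rfl⟩
  · rw [Subgroup.closure_le]
    rintro _ ⟨l, rfl⟩
    rcases l with ⟨i, e⟩ | j
    · have hmem : (hd (y (Sum.inl (i, false))) (y (Sum.inl (i, true))) : Item H) ∈ stt y := by
        apply List.mem_append_left
        unfold hds
        rw [List.mem_map]
        exact ⟨(y (Sum.inl (i, false)), y (Sum.inl (i, true))), by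
          rw [List.mem_ofFn]
          exact ⟨i, rfl⟩, rfl⟩
      cases e
      · exact ent_mem_gen hmem (Or.inl rfl)
      · exact ent_mem_gen hmem (Or.inr rfl)
    · have hmem : (pt (y (Sum.inr j)) : Item H) ∈ stt y := by
        apply List.mem_append_right
        unfold pts
        rw [List.mem_map]
        exact ⟨y (Sum.inr j), by
          rw [List.mem_ofFn]
          exact ⟨j, rfl⟩, rfl⟩
      exact ent_mem_gen hmem rfl

/-- the function of two lists -/
def fnc (X : List (H × H)) (P : List H) : (Fin X.length × Bool) ⊕ Fin P.length → H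
  | Sum.inl (i, false) => (X.get i).1
  | Sum.inl (i, true) => (X.get i).2
  | Sum.inr j => P.get j

omit [Group H] in
theorem stt_fnc (X : List (H × H)) (P : List H) : stt (fnc X P) = hds X ++ pts P := by
  unfold stt
  congr 2
  · have : (fun i : Fin X.length => (fnc X P (Sum.inl (i, false)), fnc X P (Sum.inl (i, true)))) = X.get := by
      funext i
      rfl
    rw [this, List.ofFn_get]
  · have : (fun j : Fin P.length => fnc X P (Sum.inr j)) = P.get := by
      funext j
      rfl
    rw [this, List.ofFn_get]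

/-- The statement of the single step for functions. -/
def StepF (d c : ℕ) : Prop :=
  ∀ (H V : Type) [AddCommGroup V] [Group H] [DistribMulAction H V] [Finite H] [Finite V]
    (e : SO.Emb V H), (∀ U : AddSubgroup V, (∀ g : H, ∀ u ∈ U, g • u ∈ U) → U = ⊥ ∨ U = ⊤) →
    ∀ (y : Fin d → H), Subgroup.closure (Set.range y) = ⊤ → ∀ (n : ℕ)
      (x : (Fin c × Bool) ⊕ Fin n → H),
      Subgroup.closure (Set.range x) ⊔ Subgroup.closure (Set.range e.ι) = ⊤ →
      ∀ r s : V, s ≠ 0 → ∃ t : (Fin c × Bool) ⊕ Fin n → V,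
        Subgroup.closure (Set.range fun l => e.ι (t l) * x l) = ⊤ ∧
        Mv (stt x ++ [hd (e.ι r) (e.ι s)]) (stt (fun l => e.ι (t l) * x l) ++ [hd 1 (e.ι s)])

theorem stepS_of_stepF {d c : ℕ} (hF : StepF d c) (G : Type) [Group G] [Finite G] (V : Subgroup G)
    [V.Normal] (hV : Comm V) (hmin : ∀ a ∈ V, a ≠ 1 → V ≤ Subgroup.normalClosure {a})
    (hG : GenBy G d) : StepS G V c := by
  -- first with a nontrivial second coordinate
  have main : ∀ (X : List (G × G)) (P : List G) (r s : G), r ∈ V → s ∈ V → s ≠ 1 → X.length = c →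
    gen ((hds X ++ pts P) ++ [hd r s]) = ⊤ →
    ∃ (X' : List (G × G)) (P' : List G), X'.length = c ∧
      Mv ((hds X ++ pts P) ++ [hd r s]) ((hds X' ++ pts P') ++ [hd 1 1]) := by
    intro X P r s hr hs hs1 hX hg
    subst hX
    obtain ⟨y, hy⟩ := hG
    have : Finite (VN V hV) := inferInstanceAs (Finite V)
    obtain ⟨t, ht1, ht2⟩ := hF G (VN V hV) (VN.emb V hV) (VN.simple hmin) y hy P.length (fnc X P) (by
      rw [eq_top_iff, ← hg]
      apply gen_le
      intro p hp z hz
      rcases List.mem_append.1 hp with hp | hp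
      · apply (le_sup_left : Subgroup.closure (Set.range (fnc X P)) ≤ _)
        rw [← gen_stt, stt_fnc]
        exact ent_mem_gen hp hz
      · rw [List.mem_singleton] at hp
        subst hp
        have hzV : z ∈ V := by
          rcases hz with h | h
          · rw [h]
            exact hr
          · have : z = s := h
            rw [this]
            exact hs
        apply (le_sup_right : Subgroup.closure (Set.range (VN.emb V hV).ι) ≤ _)
        exact Subgroup.subset_closure ⟨VN.mk z hzV, rfl⟩) (VN.mk r hr) (VN.mk s hs) (by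
      intro h
      apply hs1
      exact congrArg VN.ι h)
    rw [stt_fnc] at ht2
    have e1 : (VN.emb V hV).ι (VN.mk r hr) = r := rfl
    have e2 : (VN.emb V hV).ι (VN.mk s hs) = s := rfl
    rw [e1, e2] at ht2
    have h3 : s ∈ gen (stt fun l => (VN.emb V hV).ι (t l) * fnc X P l) := by
      rw [gen_stt, ht1]
      trivial
    have h4 := kill_end h3
    refine ⟨List.ofFn fun i : Fin X.length => ((VN.emb V hV).ι (t (Sum.inl (i, false))) * fnc X P (Sum.inl (i, false)),
      (VN.emb V hV).ι (t (Sum.inl (i, true))) * fnc X P (Sum.inl (i, true))),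
      List.ofFn fun j : Fin P.length => (VN.emb V hV).ι (t (Sum.inr j)) * fnc X P (Sum.inr j), by simp, ?_⟩
    exact ht2.trans h4
  intro X P r s hr hs hX hg
  by_cases hs1 : s = 1
  · subst hs1
    by_cases hr1 : r = 1
    · subst hr1
      exact ⟨X, P, hX, Mv.refl _⟩
    · have h1 := (Mv.rot r 1 ([] : List (Item G))).app_left (hds X ++ pts P)
      have e : r * 1 * r⁻¹ = 1 := by group
      rw [e] at h1
      have hg' : gen ((hds X ++ pts P) ++ [hd 1 r⁻¹]) = ⊤ := by
        rw [← hg]
        exact h1.gen_eq.symm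
      obtain ⟨X', P', h2, h3⟩ := main X P 1 r⁻¹ V.one_mem (V.inv_mem hr) (inv_ne_one.2 hr1) hX hg'
      exact ⟨X', P', h2, h1.trans h3⟩
  · exact main X P r s hr hs hs1 hX hg

/-- **Final theorem, from the single step.** -/
theorem final_of_stepF {d c m : ℕ} (hF : StepF d c) {H : Type} [Group H] [Finite H] (hH : GenBy H d)
    (S : Subgroup H) [S.Normal] [Group.IsSolvable S] (hm : Kills (H ⧸ S) m) (hmc : m ≤ c)
    {g n : ℕ} (φ : F g n →* H) (hφ : Function.Surjective φ) :
    ∃ α : F g n ≃* F g n, α (R g n) = R g n ∧ (∀ j : Fin n, IsConj (α (HMv.c g j)) (HMv.c g j)) ∧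
      ∀ i : Fin g, c ≤ (i : ℕ) → φ (α (a n i)) = 1 ∧ φ (α (b n i)) = 1 := by
  refine handles_of_killsGen ?_ φ hφ
  refine killsGen_of_step d c (fun G _ _ V _ hV hmin _ hG => stepS_of_stepF hF G V hV hmin hG)
    (H ⧸ S) (killsGen_of_kills hm hmc) _ H (QuotientGroup.mk' S) (QuotientGroup.mk'_surjective S) ?_ rfl hH
  rw [QuotientGroup.ker_mk']
  infer_instance

end Link

end Pool.Agent.HMv
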