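import Pool.Agent.Lib.MP_943dad_ag.HMv.Fin
import Pool.Agent.Lib.MP_943dad_ag.SO.Link

/-!
All finite groups: a soluble normal subgroup changes the number of handles which are kept from `m`
to `max m c0`, the other factors are treated by `Kills`.
-/

namespace Pool.Agent.HMv

open Item

universe u

/-- The property is monotone in the number of handles which are kept. -/
theorem killsGen_mono {G : Type u} [Group G] {m c : ℕ} (h : KillsGen G m) (hmc : m ≤ c) : KillsGen G c := by
  intro k L P hg hL
  obtain ⟨L1, P1, h1⟩ := h (c - m + k) L P hg (by omega)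
  refine ⟨L1 ++ List.replicate (c - m) (1, 1), P1, ?_⟩
  rw [List.append_assoc, List.replicate_append_replicate]
  exact h1

/-- A normal subgroup in which the handles can be killed. -/
theorem killsGen_ext {G : Type u} [Group G] (N : Subgroup G) [N.Normal] {c m : ℕ}
    (hQ : KillsGen (G ⧸ N) c) (hN : Kills N m) : KillsGen G (c + m) := by
  intro k L P hg hL
  obtain ⟨A, D, P', hA, hD, hDN, m1⟩ := split_quot hQ (m + k) L P hg (by omega)
  obtain ⟨D', rfl⟩ := exists_pmap_subtype N hDN
  rw [pmap_length] at hD
  obtain ⟨L2, h2⟩ := hN k D' hD.ge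
  refine ⟨A ++ pmap N.subtype L2, P', m1.trans ?_⟩
  have h3 := Mv.mp (φ := N.subtype) h2
  rw [mp_hds, mp_hds, pmap_append, pmap_replicate] at h3
  rw [List.append_assoc, hds_append A, List.append_assoc]
  exact (h3.app_right (pts P')).app_left _

/-- A soluble normal subgroup. -/
theorem killsGen_sol {d c0 : ℕ} (hF : ∀ c, c0 ≤ c → StepF d c) {G : Type} [Group G] [Finite G]
    (N : Subgroup G) [N.Normal] (hN : Group.IsSolvable N)
    {m : ℕ} (hG : GenBy G d) (hQ : KillsGen (G ⧸ N) m) : KillsGen G (max m c0) := by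
  refine killsGen_of_step d (max m c0)
    (fun G' _ _ V _ hV hmin _ hG' => stepS_of_stepF (hF _ (le_max_right _ _)) G' V hV hmin hG')
    (G ⧸ N) (killsGen_mono hQ (le_max_left _ _)) _ G (QuotientGroup.mk' N) (QuotientGroup.mk'_surjective N) ?_ rfl hG
  rw [QuotientGroup.ker_mk']
  exact hN

end Pool.Agent.HMv
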