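import Pool.Agent.Lib.MP_943dad_ag.HMv.Fin
import Pool.Agent.Lib.MP_943dad_ag.SH.Gen

/-!
# SO-Card: in a finite group `G` all handles but `|G| - 1` can be killed
-/

namespace Pool.Agent.HMv

universe u

open Item

theorem kill_one_card : ∀ (m : ℕ) (G : Type u) [Group G] [Finite G], Nat.card G = m →
    ∀ L : List (G × G), Nat.card G ≤ L.length → ∃ L1 : List (G × G), Mv (hds L) (hds (L1 ++ [(1, 1)])) := by
  intro m
  induction m using Nat.strong_induction_on with
  | _ m ih =>
    intro G _ _ hm L hL
    obtain ⟨y, L', hL', h1⟩ := extract_one L hL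
    by_cases hy : y ∈ gen (hds L')
    · have h2 := slide_gen ((gen (hds L')).inv_mem hy) y
      rw [inv_mul_cancel] at h2
      have h3 := to_end (1 : G) L' []
      rw [List.append_nil] at h3
      refine ⟨L', (h1.trans h2).trans ?_⟩
      rw [hds_append]
      exact h3
    · have hKtop : gen (hds L') ≠ ⊤ := by
        intro h
        apply hy
        rw [h]
        exact Subgroup.mem_top y
      have hcard : Nat.card (gen (hds L')) < Nat.card G := by
        refine lt_of_le_of_ne (Subgroup.card_le_card_group _) fun h => hKtop ?_
        exact Subgroup.eq_top_of_card_eq _ h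
      obtain ⟨C', hC'⟩ := exists_pmap_subtype (gen (hds L')) (C := L') (fun p hp => by
        have h2 : (hd p.1 p.2 : Item G) ∈ hds L' := by
          unfold hds
          rw [List.mem_map]
          exact ⟨p, hp, rfl⟩
        exact ⟨ent_mem_gen h2 (Or.inl rfl), ent_mem_gen h2 (Or.inr rfl)⟩)
      have hlen : C'.length = L'.length := by
        have h2 := congrArg List.length hC'
        rwa [pmap_length] at h2
      obtain ⟨L2, h4⟩ := ih (Nat.card (gen (hds L'))) (hm ▸ hcard) (gen (hds L')) rfl C' (by omega)
      have h5 := Mv.mp (φ := (gen (hds L')).subtype) h4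
      rw [mp_hds, mp_hds, pmap_append, hC'] at h5
      refine ⟨(y, 1) :: pmap (gen (hds L')).subtype L2, h1.trans ?_⟩
      exact Mv.cons (hd y 1) h5

/-- In a finite group `G`, all handles but `|G| - 1` can be made trivial. -/
theorem kills_card (G : Type u) [Group G] [Finite G] : Kills G (Nat.card G - 1) := by
  have hpos : 0 < Nat.card G := Nat.card_pos
  apply kills_of_one
  intro L hL
  exact kill_one_card _ G rfl L (by omega)

/-- The cost of a group with a subnormal series whose factors are cyclic or finite. -/
inductive NCost : (G : Type u) → [Group G] → ℕ → Prop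
  | trivial (G : Type u) [Group G] : Subsingleton G → NCost G 0
  | cyclic (G : Type u) [Group G] (N : Subgroup G) [N.Normal] (m : ℕ) :
      IsCyclic (G ⧸ N) → NCost N m → NCost G (1 + m)
  | finite (G : Type u) [Group G] (N : Subgroup G) [N.Normal] (m : ℕ) :
      Finite (G ⧸ N) → NCost N m → NCost G (Nat.card (G ⧸ N) - 1 + m)

theorem kills_of_ncost {G : Type u} [Group G] {m : ℕ} (h : NCost G m) : Kills G m := by
  induction h with
  | trivial G hG =>
    haveI := hG
    exact kills_of_subsingleton G
  | cyclic G N m hN _ ih =>
    haveI := hN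
    exact kills_ext G N (kills_cyclic _) ih
  | finite G N m hN _ ih =>
    haveI := hN
    exact kills_ext G N (kills_card _) ih

end Pool.Agent.HMv
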