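import Pool.Agent.Lib.MP_943dad_ag.SH.Chief

/-!
Slides of the last handle over an item: `slq`, `slp`, `slc`, and killing of a last handle `(1, s)`.
-/

namespace Pool.Agent.HMv

universe u

open Item

section Slide

variable {G : Type u} [Group G]

theorem cp_cons (y : Item G) (T : List (Item G)) : cp (y :: T) = y.val * cp T := by
  simp [cp]

theorem cp_nil : cp ([] : List (Item G)) = 1 := by
  simp [cp]

/-- A handle moves to the left over `T`. -/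
theorem passL : ∀ (T : List (Item G)) (r s : G) (L : List (Item G)),
    Mv (T ++ hd r s :: L) (hd (cp T * r * (cp T)⁻¹) (cp T * s * (cp T)⁻¹) :: (T ++ L))
  | [], r, s, L => by
    rw [cp_nil]
    simpa using Mv.refl (hd r s :: L)
  | y :: T, r, s, L => by
    have h1 := Mv.cons y (passL T r s L)
    refine h1.trans ?_
    rw [cp_cons]
    generalize cp T = D
    cases y with
    | hd p q =>
      have h2 := Mv.exch p q (D * r * D⁻¹) (D * s * D⁻¹) (T ++ L)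
      have e1 : p * q * p⁻¹ * q⁻¹ * (D * r * D⁻¹) * (p * q * p⁻¹ * q⁻¹)⁻¹ =
        (Item.hd p q).val * D * r * ((Item.hd p q).val * D)⁻¹ := by
        simp only [Item.val]
        group
      have e2 : p * q * p⁻¹ * q⁻¹ * (D * s * D⁻¹) * (p * q * p⁻¹ * q⁻¹)⁻¹ =
        (Item.hd p q).val * D * s * ((Item.hd p q).val * D)⁻¹ := by
        simp only [Item.val]
        group
      rw [e1, e2] at h2
      exact h2
    | pt c =>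
      have h2 := (Mv.exchQ (c * (D * r * D⁻¹) * c⁻¹) (c * (D * s * D⁻¹) * c⁻¹) c (T ++ L)).symm
      have e1 : c⁻¹ * (c * (D * r * D⁻¹) * c⁻¹) * c = D * r * D⁻¹ := by group
      have e2 : c⁻¹ * (c * (D * s * D⁻¹) * c⁻¹) * c = D * s * D⁻¹ := by group
      rw [e1, e2] at h2
      have e3 : c * (D * r * D⁻¹) * c⁻¹ = (Item.pt c).val * D * r * ((Item.pt c).val * D)⁻¹ := by
        simp only [Item.val]
        group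
      have e4 : c * (D * s * D⁻¹) * c⁻¹ = (Item.pt c).val * D * s * ((Item.pt c).val * D)⁻¹ := by
        simp only [Item.val]
        group
      rw [e3, e4] at h2
      exact h2

/-- A handle moves to the right over `T`. -/
theorem passR (T : List (Item G)) (r s : G) (L : List (Item G)) :
    Mv (hd r s :: (T ++ L)) (T ++ hd ((cp T)⁻¹ * r * cp T) ((cp T)⁻¹ * s * cp T) :: L) := by
  have h := (passL T ((cp T)⁻¹ * r * cp T) ((cp T)⁻¹ * s * cp T) L).symm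
  have e1 : cp T * ((cp T)⁻¹ * r * cp T) * (cp T)⁻¹ = r := by group
  have e2 : cp T * ((cp T)⁻¹ * s * cp T) * (cp T)⁻¹ = s := by group
  rw [e1, e2] at h
  exact h

/-- Slide over the second coordinate of the neighbour. -/
theorem loc_q (p q r s : G) (L : List (Item G)) :
    Mv (hd p q :: hd r s :: L)
      (hd (p * (r * s * r⁻¹)) ((r * s * r⁻¹)⁻¹ * q * (r * s * r⁻¹)) ::
        hd ((r * s * r⁻¹)⁻¹ * q * r) s :: L) := by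
  have h1 := Mv.dd p q r s 1 L
  have h2 := Mv.twist (p * (q⁻¹ * r * s * r⁻¹) ^ (1 : ℤ))
    ((q⁻¹ * r * s * r⁻¹) ^ (-1 : ℤ) * q * (q⁻¹ * r * s * r⁻¹) ^ (1 : ℤ)) 1
    (hd ((q⁻¹ * r * s * r⁻¹) ^ (-1 : ℤ) * r) s :: L)
  have e1 : p * (q⁻¹ * r * s * r⁻¹) ^ (1 : ℤ) * ((q⁻¹ * r * s * r⁻¹) ^ (-1 : ℤ) * q *
      (q⁻¹ * r * s * r⁻¹) ^ (1 : ℤ)) ^ (1 : ℤ) = p * (r * s * r⁻¹) := by
    rw [zpow_one, zpow_one, zpow_neg, zpow_one]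
    group
  have e2 : (q⁻¹ * r * s * r⁻¹) ^ (-1 : ℤ) * q * (q⁻¹ * r * s * r⁻¹) ^ (1 : ℤ) =
      (r * s * r⁻¹)⁻¹ * q * (r * s * r⁻¹) := by
    rw [zpow_one, zpow_neg, zpow_one]
    group
  have e3 : (q⁻¹ * r * s * r⁻¹) ^ (-1 : ℤ) * r = (r * s * r⁻¹)⁻¹ * q * r := by
    rw [zpow_neg, zpow_one]
    group
  rw [e1] at h2
  rw [e2, e3] at h1 h2
  exact h1.trans h2

/-- Slide over the first coordinate of the neighbour. -/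
theorem loc_p (p q r s : G) (L : List (Item G)) :
    Mv (hd p q :: hd r s :: L)
      (hd ((r * s * r⁻¹)⁻¹ * p * (r * s * r⁻¹))
          ((r * s * r⁻¹)⁻¹ * (p⁻¹ * (r * s * r⁻¹) * p) * q * (r * s * r⁻¹)) ::
        hd ((r * s * r⁻¹)⁻¹ * p⁻¹ * r) s :: L) := by
  have h1 := Mv.rot p q (hd r s :: L)
  have h2 := loc_q (p * q * p⁻¹) p⁻¹ r s L
  have h3 := Mv.rotInv (p * q * p⁻¹ * (r * s * r⁻¹)) ((r * s * r⁻¹)⁻¹ * p⁻¹ * (r * s * r⁻¹))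
    (hd ((r * s * r⁻¹)⁻¹ * p⁻¹ * r) s :: L)
  have e1 : ((r * s * r⁻¹)⁻¹ * p⁻¹ * (r * s * r⁻¹))⁻¹ = (r * s * r⁻¹)⁻¹ * p * (r * s * r⁻¹) := by
    group
  have e2 : (r * s * r⁻¹)⁻¹ * p⁻¹ * (r * s * r⁻¹) * (p * q * p⁻¹ * (r * s * r⁻¹)) *
      ((r * s * r⁻¹)⁻¹ * p * (r * s * r⁻¹)) =
      (r * s * r⁻¹)⁻¹ * (p⁻¹ * (r * s * r⁻¹) * p) * q * (r * s * r⁻¹) := by
    group
  rw [e1, e2] at h3
  exact h1.trans (h2.trans h3)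

/-- Slide over a puncture. -/
theorem loc_c (c r s : G) (L : List (Item G)) :
    Mv (pt c :: hd r s :: L)
      (pt (c * (r * s * r⁻¹) * c * (c * (r * s * r⁻¹))⁻¹) :: hd (c * (r * s * r⁻¹) * r) s :: L) := by
  set P := c * r * c⁻¹ with hP
  set Q := c * s * c⁻¹ with hQ
  have h1 := (Mv.exchQ P Q c L).symm
  have e1 : c⁻¹ * P * c = r := by rw [hP]; group
  have e2 : c⁻¹ * Q * c = s := by rw [hQ]; group
  rw [e1, e2] at h1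
  have h2 := Mv.rot P Q (pt c :: L)
  have h3 := Mv.rot (P * Q * P⁻¹) P⁻¹ (pt c :: L)
  have h4 := Mv.dp (P * Q * P⁻¹ * P⁻¹ * (P * Q * P⁻¹)⁻¹) (P * Q * P⁻¹)⁻¹ c (-1) L
  set z := c * (r * s * r⁻¹) with hz
  have e3 : (P * Q * P⁻¹)⁻¹⁻¹ * c = z := by
    rw [hP, hQ, hz]
    group
  rw [e3] at h4
  have e4 : z ^ (-1 : ℤ) = z⁻¹ := by rw [zpow_neg, zpow_one]
  have e5 : z ^ (-(-1) : ℤ) = z := by rw [neg_neg, zpow_one]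
  rw [e4, e5] at h4
  have h5 := Mv.rotInv (P * Q * P⁻¹ * P⁻¹ * (P * Q * P⁻¹)⁻¹ * z⁻¹) (z * (P * Q * P⁻¹)⁻¹ * z⁻¹)
    (pt (z * c * z⁻¹) :: L)
  have h6 := Mv.rotInv ((z * (P * Q * P⁻¹)⁻¹ * z⁻¹)⁻¹) (z * (P * Q * P⁻¹)⁻¹ * z⁻¹ *
    (P * Q * P⁻¹ * P⁻¹ * (P * Q * P⁻¹)⁻¹ * z⁻¹) * (z * (P * Q * P⁻¹)⁻¹ * z⁻¹)⁻¹) (pt (z * c * z⁻¹) :: L)
  have h7 := h1.trans (h2.trans (h3.trans (h4.trans (h5.trans h6))))
  have h8 := Mv.exchQ ((z * (P * Q * P⁻¹)⁻¹ * z⁻¹ *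
    (P * Q * P⁻¹ * P⁻¹ * (P * Q * P⁻¹)⁻¹ * z⁻¹) * (z * (P * Q * P⁻¹)⁻¹ * z⁻¹)⁻¹)⁻¹)
    (z * (P * Q * P⁻¹)⁻¹ * z⁻¹ *
    (P * Q * P⁻¹ * P⁻¹ * (P * Q * P⁻¹)⁻¹ * z⁻¹) * (z * (P * Q * P⁻¹)⁻¹ * z⁻¹)⁻¹ *
      (z * (P * Q * P⁻¹)⁻¹ * z⁻¹)⁻¹ *
      (z * (P * Q * P⁻¹)⁻¹ * z⁻¹ *
    (P * Q * P⁻¹ * P⁻¹ * (P * Q * P⁻¹)⁻¹ * z⁻¹) * (z * (P * Q * P⁻¹)⁻¹ * z⁻¹)⁻¹)⁻¹) (z * c * z⁻¹) L
  have h9 := h7.trans h8
  convert h9 using 2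
  · rw [hP, hQ, hz]
    congr 2
    · group
    · group

/-- Slide of the last handle over the second coordinate of a handle. -/
theorem slq (T1 T2 : List (Item G)) (p q r s : G) :
    Mv (T1 ++ hd p q :: (T2 ++ [hd r s]))
      (T1 ++ hd (p * (cp T2 * (r * s * r⁻¹) * (cp T2)⁻¹))
          ((cp T2 * (r * s * r⁻¹) * (cp T2)⁻¹)⁻¹ * q * (cp T2 * (r * s * r⁻¹) * (cp T2)⁻¹)) ::
        (T2 ++ [hd ((r * s * r⁻¹)⁻¹ * ((cp T2)⁻¹ * q * cp T2) * r) s])) := by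
  apply Mv.app_left
  have h1 := Mv.cons (hd p q) (passL T2 r s [])
  have h2 := loc_q p q (cp T2 * r * (cp T2)⁻¹) (cp T2 * s * (cp T2)⁻¹) (T2 ++ [])
  have e1 : cp T2 * r * (cp T2)⁻¹ * (cp T2 * s * (cp T2)⁻¹) * (cp T2 * r * (cp T2)⁻¹)⁻¹ =
      cp T2 * (r * s * r⁻¹) * (cp T2)⁻¹ := by group
  rw [e1] at h2
  have h3 := Mv.cons (hd (p * (cp T2 * (r * s * r⁻¹) * (cp T2)⁻¹))
    ((cp T2 * (r * s * r⁻¹) * (cp T2)⁻¹)⁻¹ * q * (cp T2 * (r * s * r⁻¹) * (cp T2)⁻¹)))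
    (passR T2 ((cp T2 * (r * s * r⁻¹) * (cp T2)⁻¹)⁻¹ * q * (cp T2 * r * (cp T2)⁻¹))
      (cp T2 * s * (cp T2)⁻¹) [])
  have e2 : (cp T2)⁻¹ * ((cp T2 * (r * s * r⁻¹) * (cp T2)⁻¹)⁻¹ * q * (cp T2 * r * (cp T2)⁻¹)) * cp T2 =
      (r * s * r⁻¹)⁻¹ * ((cp T2)⁻¹ * q * cp T2) * r := by group
  have e3 : (cp T2)⁻¹ * (cp T2 * s * (cp T2)⁻¹) * cp T2 = s := by group
  rw [e2, e3] at h3
  exact h1.trans (h2.trans h3)

/-- Slide of the last handle over the first coordinate of a handle. -/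
theorem slp (T1 T2 : List (Item G)) (p q r s : G) :
    Mv (T1 ++ hd p q :: (T2 ++ [hd r s]))
      (T1 ++ hd ((cp T2 * (r * s * r⁻¹) * (cp T2)⁻¹)⁻¹ * p * (cp T2 * (r * s * r⁻¹) * (cp T2)⁻¹))
          ((cp T2 * (r * s * r⁻¹) * (cp T2)⁻¹)⁻¹ * (p⁻¹ * (cp T2 * (r * s * r⁻¹) * (cp T2)⁻¹) * p) * q *
            (cp T2 * (r * s * r⁻¹) * (cp T2)⁻¹)) ::
        (T2 ++ [hd ((r * s * r⁻¹)⁻¹ * ((cp T2)⁻¹ * p⁻¹ * cp T2) * r) s])) := by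
  apply Mv.app_left
  have h1 := Mv.cons (hd p q) (passL T2 r s [])
  have h2 := loc_p p q (cp T2 * r * (cp T2)⁻¹) (cp T2 * s * (cp T2)⁻¹) (T2 ++ [])
  have e1 : cp T2 * r * (cp T2)⁻¹ * (cp T2 * s * (cp T2)⁻¹) * (cp T2 * r * (cp T2)⁻¹)⁻¹ =
      cp T2 * (r * s * r⁻¹) * (cp T2)⁻¹ := by group
  rw [e1] at h2
  have h3 := Mv.cons
    (hd ((cp T2 * (r * s * r⁻¹) * (cp T2)⁻¹)⁻¹ * p * (cp T2 * (r * s * r⁻¹) * (cp T2)⁻¹))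
          ((cp T2 * (r * s * r⁻¹) * (cp T2)⁻¹)⁻¹ * (p⁻¹ * (cp T2 * (r * s * r⁻¹) * (cp T2)⁻¹) * p) * q *
            (cp T2 * (r * s * r⁻¹) * (cp T2)⁻¹)))
    (passR T2 ((cp T2 * (r * s * r⁻¹) * (cp T2)⁻¹)⁻¹ * p⁻¹ * (cp T2 * r * (cp T2)⁻¹))
      (cp T2 * s * (cp T2)⁻¹) [])
  have e2 : (cp T2)⁻¹ * ((cp T2 * (r * s * r⁻¹) * (cp T2)⁻¹)⁻¹ * p⁻¹ * (cp T2 * r * (cp T2)⁻¹)) * cp T2 =
      (r * s * r⁻¹)⁻¹ * ((cp T2)⁻¹ * p⁻¹ * cp T2) * r := by group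
  have e3 : (cp T2)⁻¹ * (cp T2 * s * (cp T2)⁻¹) * cp T2 = s := by group
  rw [e2, e3] at h3
  exact h1.trans (h2.trans h3)

/-- Slide of the last handle over a puncture. -/
theorem slc (T1 T2 : List (Item G)) (c r s : G) :
    Mv (T1 ++ pt c :: (T2 ++ [hd r s]))
      (T1 ++ pt (c * (cp T2 * (r * s * r⁻¹) * (cp T2)⁻¹) * c *
          (cp T2 * (r * s * r⁻¹) * (cp T2)⁻¹)⁻¹ * c⁻¹) ::
        (T2 ++ [hd (((cp T2)⁻¹ * c * cp T2) * (r * s * r⁻¹) * r) s])) := by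
  apply Mv.app_left
  have h1 := Mv.cons (pt c) (passL T2 r s [])
  have h2 := loc_c c (cp T2 * r * (cp T2)⁻¹) (cp T2 * s * (cp T2)⁻¹) (T2 ++ [])
  have e1 : cp T2 * r * (cp T2)⁻¹ * (cp T2 * s * (cp T2)⁻¹) * (cp T2 * r * (cp T2)⁻¹)⁻¹ =
      cp T2 * (r * s * r⁻¹) * (cp T2)⁻¹ := by group
  rw [e1] at h2
  have e0 : c * (cp T2 * (r * s * r⁻¹) * (cp T2)⁻¹) * c * (c * (cp T2 * (r * s * r⁻¹) * (cp T2)⁻¹))⁻¹ =
      c * (cp T2 * (r * s * r⁻¹) * (cp T2)⁻¹) * c * (cp T2 * (r * s * r⁻¹) * (cp T2)⁻¹)⁻¹ * c⁻¹ := by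
    rw [mul_inv_rev, ← mul_assoc]
  rw [e0] at h2
  have h3 := Mv.cons (pt (c * (cp T2 * (r * s * r⁻¹) * (cp T2)⁻¹) * c *
          (cp T2 * (r * s * r⁻¹) * (cp T2)⁻¹)⁻¹ * c⁻¹))
    (passR T2 (c * (cp T2 * (r * s * r⁻¹) * (cp T2)⁻¹) * (cp T2 * r * (cp T2)⁻¹))
      (cp T2 * s * (cp T2)⁻¹) [])
  have e2 : (cp T2)⁻¹ * (c * (cp T2 * (r * s * r⁻¹) * (cp T2)⁻¹) * (cp T2 * r * (cp T2)⁻¹)) * cp T2 =
      ((cp T2)⁻¹ * c * cp T2) * (r * s * r⁻¹) * r := by group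
  have e3 : (cp T2)⁻¹ * (cp T2 * s * (cp T2)⁻¹) * cp T2 = s := by group
  rw [e2, e3] at h3
  exact h1.trans (h2.trans h3)

/-- A commuting handle moves to the end. -/
theorem flat_end {r s : G} (h : Commute r s) (T : List (Item G)) :
    Mv (hd r s :: T) (T ++ [hd r s]) := by
  have := flat_right h T []
  rwa [List.append_nil] at this

/-- The last handle `(1, s)` is killed if `s` is generated by the other items. -/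
theorem kill_end {s : G} {T : List (Item G)} (hs : s ∈ gen T) :
    Mv (T ++ [hd 1 s]) (T ++ [hd 1 1]) := by
  have h1 := (flat_end (Commute.one_left s) T).symm
  have h2 := Mv.rot 1 s T
  have e : (1 : G) * s * 1⁻¹ = s := by group
  rw [e, inv_one] at h2
  have h3 := slide_gen ((gen T).inv_mem hs) s
  rw [inv_mul_cancel] at h3
  exact h1.trans (h2.trans (h3.trans (flat_end (Commute.one_left 1) T)))

end Slide

end Pool.Agent.HMv
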