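import Pool.Agent.Lib.MP_943dad_ag.SO.Aff
import Pool.Agent.Lib.MP_943dad_ag.SO.Slide

/-!
# SO-Conc: the letters
-/

namespace SO

open Pool.Agent.HMv Item

/-- places of the coordinates -/
abbrev L (c n : ℕ) : Type := (Fin c × Bool) ⊕ Fin n

/-- list of items of a tuple -/
def X {H : Type} {c n : ℕ} (y : L c n → H) : List (Item H) :=
  hds (List.ofFn fun i => (y (Sum.inl (i, false)), y (Sum.inl (i, true)))) ++ pts (List.ofFn fun j => y (Sum.inr j))

/-- the tuple changed by `t` -/
def tup {V H : Type} [AddCommGroup V] [Group H] [DistribMulAction H V] (e : Emb V H) {c n : ℕ} (x : L c n → H) (t : L c n → V) : L c n → H :=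
  fun l => e.ι (t l) * x l

section Lists

variable {c n : ℕ}

/-- the items by position -/
private def it {G : Type} (y : L c n → G) : Fin (c + n) → Item G :=
  Fin.append (fun i => hd (y (Sum.inl (i, false))) (y (Sum.inl (i, true)))) (fun j => pt (y (Sum.inr j)))

private theorem X_eq {G : Type} (y : L c n → G) : X y = List.ofFn (it y) := by
  rw [it, List.ofFn_fin_append, X, hds, pts, List.map_ofFn, List.map_ofFn]
  rfl

/-- the position of a letter -/
private def pos : L c n → Fin (c + n)
  | Sum.inl (i, _) => Fin.castAdd n i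
  | Sum.inr j => Fin.natAdd c j

private theorem it_hd {G : Type} (y : L c n → G) (i : Fin c) : it y (Fin.castAdd n i) = hd (y (Sum.inl (i, false))) (y (Sum.inl (i, true))) :=
  Fin.append_left _ _ i

private theorem it_pt {G : Type} (y : L c n → G) (j : Fin n) : it y (Fin.natAdd c j) = pt (y (Sum.inr j)) :=
  Fin.append_right _ _ j

private theorem it_congr {G : Type} (y y' : L c n → G) (k : Fin (c + n)) (h : ∀ l, pos l = k → y' l = y l) : it y' k = it y k := by
  refine Fin.addCases (fun i => ?_) (fun j => ?_) k (motive := fun k => (∀ l, pos l = k → y' l = y l) → it y' k = it y k) h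
  · intro h
    rw [it_hd, it_hd, h (Sum.inl (i, false)) rfl, h (Sum.inl (i, true)) rfl]
  · intro h
    rw [it_pt, it_pt, h (Sum.inr j) rfl]

private theorem val_mem {G : Type} [Group G] (S : Subgroup G) (y : L c n → G) (k : Fin (c + n)) (h : ∀ l, pos l = k → y l ∈ S) : (it y k).val ∈ S := by
  refine Fin.addCases (fun i => ?_) (fun j => ?_) k (motive := fun k => (∀ l, pos l = k → y l ∈ S) → (it y k).val ∈ S) h
  · intro h
    rw [it_hd]
    have h1 := h (Sum.inl (i, false)) rfl
    have h2 := h (Sum.inl (i, true)) rfl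
    exact S.mul_mem (S.mul_mem (S.mul_mem h1 h2) (S.inv_mem h1)) (S.inv_mem h2)
  · intro h
    rw [it_pt]
    exact h (Sum.inr j) rfl

private theorem split {G : Type} (y : L c n → G) (k : Fin (c + n)) :
    X y = (X y).take k ++ it y k :: (X y).drop (k + 1) := by
  have hk : (k : ℕ) < (X y).length := by rw [X_eq, List.length_ofFn]; exact k.2
  have h1 : (X y)[(k : ℕ)] = it y k := by
    simp only [X_eq, List.getElem_ofFn]
  conv_lhs => rw [← List.take_append_drop (k : ℕ) (X y), List.drop_eq_getElem_cons hk, h1]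

private theorem split' {G : Type} (y y' : L c n → G) (k : Fin (c + n)) (h : ∀ l, pos l ≠ k → y' l = y l) :
    X y' = (X y).take k ++ it y' k :: (X y).drop (k + 1) := by
  have h1 : ∀ k', k' ≠ k → it y' k' = it y k' := fun k' hk' =>
    it_congr y y' k' fun l hl => h l (by rw [hl]; exact hk')
  have h2 : (X y').take k = (X y).take k := by
    rw [X_eq, X_eq]
    refine List.ext_getElem (by simp) fun i hi hi' => ?_
    rw [List.getElem_take, List.getElem_take, List.getElem_ofFn, List.getElem_ofFn]
    refine h1 _ fun h => ?_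
    have : i = (k : ℕ) := by rw [← h]
    rw [List.length_take] at hi
    omega
  have h3 : (X y').drop (k + 1) = (X y).drop (k + 1) := by
    rw [X_eq, X_eq]
    refine List.ext_getElem (by simp) fun i hi hi' => ?_
    rw [List.getElem_drop, List.getElem_drop, List.getElem_ofFn, List.getElem_ofFn]
    refine h1 _ fun h => ?_
    have : (k : ℕ) + 1 + i = (k : ℕ) := by
      conv_rhs => rw [← h]
    omega
  rw [← h2, ← h3]
  exact split y' k

/-- product of the items after the letter `l` -/
private def dd {G : Type} [Group G] (y : L c n → G) (l : L c n) : G := cp ((X y).drop (pos l + 1))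

private theorem dd_mem {G : Type} [Group G] (S : Subgroup G) (y : L c n → G) (l : L c n) (h : ∀ l', pos l < pos l' → y l' ∈ S) :
    dd y l ∈ S := by
  rw [dd, cp, X_eq, List.map_drop, List.map_ofFn]
  refine S.list_prod_mem fun z hz => ?_
  obtain ⟨i, hi, rfl⟩ := List.mem_iff_getElem.1 hz
  rw [List.getElem_drop, List.getElem_ofFn]
  refine val_mem S y _ fun l' hl' => h l' ?_
  rw [hl', Fin.lt_def]
  simp only
  omega

private theorem X_map {G G' : Type} [Group G] [Group G'] (φ : G →* G') (y : L c n → G) : X (fun l => φ (y l)) = Pool.Agent.HMv.mp φ (X y) := by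
  simp only [X, hds, pts, List.map_ofFn]
  rw [Pool.Agent.HMv.mp, List.map_append, List.map_ofFn, List.map_ofFn]
  rfl

private theorem dd_map {G G' : Type} [Group G] [Group G'] (φ : G →* G') (y : L c n → G) (l : L c n) : dd (fun l => φ (y l)) l = φ (dd y l) := by
  rw [dd, X_map, Pool.Agent.HMv.mp, ← List.map_drop, dd, ← cp_mp]
  rfl

end Lists

section Letters

variable {V H : Type} [AddCommGroup V] [Group H] [DistribMulAction H V]

/-- the functions `f` with `f t = ι (E t) * f 0`, `E` additive -/
private def affS (e : Emb V H) (W : Type) [AddCommGroup W] : Subgroup (W → H) where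
  carrier := {f | ∃ E : W →+ V, ∀ t, f t = e.ι (E t) * f 0}
  one_mem' := ⟨0, fun t => by simp [e.zero]⟩
  mul_mem' := by
    rintro f f' ⟨E, hE⟩ ⟨E', hE'⟩
    refine ⟨E + (sm V (f 0)).comp E', fun t => ?_⟩
    rw [Pi.mul_apply, Pi.mul_apply, hE, hE' t, AddMonoidHom.add_apply, AddMonoidHom.comp_apply, sm_apply, e.add]
    rw [mul_assoc, ← mul_assoc (f 0), e.mul]
    simp only [mul_assoc]
  inv_mem' := by
    rintro f ⟨E, hE⟩
    refine ⟨-((sm V (f 0)⁻¹).comp E), fun t => ?_⟩
    rw [Pi.inv_apply, Pi.inv_apply, hE t, mul_inv_rev, ← e.neg, e.mul]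
    simp only [AddMonoidHom.neg_apply, AddMonoidHom.comp_apply, sm_apply, smul_neg]

private theorem affS_smul {e : Emb V H} {W : Type} [AddCommGroup W] {f : W → H} (hf : f ∈ affS e W) (t : W) (v : V) : f t • v = f 0 • v := by
  obtain ⟨E, hE⟩ := hf
  rw [hE, mul_smul, e.triv]

variable {c n : ℕ} (e : Emb V H) (x : L c n → H)

/-- a coordinate as a function of `t` -/
private def co (l : L c n) : (L c n → V) → H := fun t => tup e x t l

private theorem co_aff (l : L c n) : co e x l ∈ affS e (L c n → V) :=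
  ⟨Pi.evalAddMonoidHom _ l, fun t => by simp [co, tup, e.zero]⟩

/-- the product of the items after `l` -/
private def DD (l : L c n) : (L c n → V) → H := dd (co e x) l

private theorem DD_apply (l : L c n) (t : L c n → V) : DD e x l t = dd (tup e x t) l :=
  (dd_map (Pi.evalMonoidHom (fun _ : L c n → V => H) t) (co e x) l).symm

/-- the letter -/
private def lt : L c n → (L c n → V) → H
  | Sum.inl (i, false) => (co e x (Sum.inl (i, false)))⁻¹
  | Sum.inl (i, true) => co e x (Sum.inl (i, true))
  | Sum.inr j => co e x (Sum.inr j)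

private theorem lt_mem (S : Subgroup ((L c n → V) → H)) (l : L c n) : lt e x l ∈ S ↔ co e x l ∈ S := by
  rcases l with ⟨i, _ | _⟩ | j
  · exact inv_mem_iff
  · exact Iff.rfl
  · exact Iff.rfl

/-- the value -/
private def GG (l : L c n) : (L c n → V) → H := (DD e x l)⁻¹ * lt e x l * DD e x l

private theorem GG_mem (S : Subgroup ((L c n → V) → H)) (hS : ∀ l, co e x l ∈ S) (l : L c n) : GG e x l ∈ S := by
  have h1 : DD e x l ∈ S := dd_mem S _ l fun l' _ => hS l'
  exact S.mul_mem (S.mul_mem (S.inv_mem h1) ((lt_mem e x S l).2 (hS l))) h1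

private theorem sepG (l : L c n) : co e x l ∈ Subgroup.closure (Set.range (GG e x)) := by
  suffices h : ∀ m : ℕ, ∀ l : L c n, c + n ≤ pos l + m → co e x l ∈ Subgroup.closure (Set.range (GG e x)) from h (c + n) l (by omega)
  intro m
  induction m with
  | zero =>
    intro l hl
    have := (pos l).2
    omega
  | succ m ih =>
    intro l hl
    set S := Subgroup.closure (Set.range (GG e x)) with hS
    have h1 : DD e x l ∈ S := dd_mem S _ l fun l' hl' => ih l' (by
      have : (pos l : ℕ) < pos l' := hl'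
      omega)
    have h2 : GG e x l ∈ S := Subgroup.subset_closure ⟨l, rfl⟩
    rw [← lt_mem]
    have h3 := S.mul_mem (S.mul_mem h1 h2) (S.inv_mem h1)
    rwa [GG, show DD e x l * ((DD e x l)⁻¹ * lt e x l * DD e x l) * (DD e x l)⁻¹ = lt e x l by group] at h3

private theorem subG (l : L c n) (t : L c n → V) : GG e x l t ∈ Subgroup.closure (Set.range (tup e x t)) := by
  have h1 : GG e x l ∈ (Subgroup.closure (Set.range (tup e x t))).comap (Pi.evalMonoidHom (fun _ : L c n → V => H) t) :=
    GG_mem e x _ (fun l => (Subgroup.subset_closure (Set.mem_range_self l) : tup e x t l ∈ Subgroup.closure (Set.range (tup e x t)))) l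
  exact h1

/-- the displacement at the place `l'` of the letter `l` -/
private def Dl : L c n → L c n → V →+ V
  | Sum.inl (i, true), Sum.inl (i', false) => if i' = i then sm V (x (Sum.inl (i, false)) * DD e x (Sum.inl (i, true)) 0) else 0
  | Sum.inl (i, true), Sum.inl (i', true) => if i' = i then sm V (x (Sum.inl (i, true)) * DD e x (Sum.inl (i, true)) 0) - sm V (DD e x (Sum.inl (i, true)) 0) else 0
  | Sum.inl (i, false), Sum.inl (i', false) => if i' = i then sm V (x (Sum.inl (i, false)) * DD e x (Sum.inl (i, false)) 0) - sm V (DD e x (Sum.inl (i, false)) 0) else 0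
  | Sum.inl (i, false), Sum.inl (i', true) => if i' = i then sm V ((x (Sum.inl (i, false)))⁻¹ * DD e x (Sum.inl (i, false)) 0) +
      sm V (x (Sum.inl (i, true)) * DD e x (Sum.inl (i, false)) 0) - sm V (DD e x (Sum.inl (i, false)) 0) else 0
  | Sum.inr j, Sum.inr j' => if j' = j then sm V (x (Sum.inr j) * DD e x (Sum.inr j) 0) - sm V (x (Sum.inr j) * (x (Sum.inr j) * DD e x (Sum.inr j) 0)) else 0
  | Sum.inl _, Sum.inr _ => 0
  | Sum.inr _, Sum.inl _ => 0

private theorem Dl_off (l l' : L c n) (h : pos l' ≠ pos l) : Dl e x l l' = 0 := by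
  rcases l with ⟨i, _ | _⟩ | j <;> rcases l' with ⟨i', _ | _⟩ | j'
  all_goals first
    | rfl
    | (have h1 : i' ≠ i := fun h2 => h (by subst h2; rfl)
       simp only [Dl, if_neg h1])
    | (have h1 : j' ≠ j := fun h2 => h (by subst h2; rfl)
       simp only [Dl, if_neg h1])

/-- the displacement of the letter `l` -/
private def DL (l : L c n) : V →+ (L c n → V) := AddMonoidHom.pi (Dl e x l)

private theorem DL_apply (l l' : L c n) (v : V) : DL e x l v l' = Dl e x l l' v := rfl

private theorem ex_aff (l : L c n) : ∃ E : (L c n → V) →+ V, ∀ t, e.ι (E t) * GG e x l 0 = GG e x l t := by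
  obtain ⟨E, hE⟩ := GG_mem e x (affS e _) (co_aff e x) l
  exact ⟨E, fun t => (hE t).symm⟩

private theorem DD_smul (l : L c n) (t : L c n → V) (v : V) : DD e x l t • v = DD e x l 0 • v :=
  affS_smul (dd_mem (affS e _) _ l fun l' _ => co_aff e x l') t v

private theorem tup_smul (l : L c n) (t : L c n → V) (v : V) : tup e x t l • v = x l • v := by
  rw [tup, mul_smul, e.triv]

/-- conjugation of `ι v` by the product of the items after `l` -/
private theorem conjD (l : L c n) (t : L c n → V) (v : V) :
    DD e x l t * e.ι v * (DD e x l t)⁻¹ = e.ι (DD e x l 0 • v) := by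
  rw [e.conj, DD_smul]

/-- the list around a letter -/
private theorem pack (l : L c n) (t : L c n → V) (v : V) : ∃ A B : List (Item H), cp B = DD e x l t ∧
    X (tup e x t) = A ++ it (tup e x t) (pos l) :: B ∧
    X (tup e x (t + DL e x l v)) = A ++ it (tup e x (t + DL e x l v)) (pos l) :: B := by
  refine ⟨_, _, (DD_apply e x l t).symm, split (tup e x t) (pos l), split' (tup e x t) _ (pos l) fun l' hl' => ?_⟩
  rw [tup, tup, Pi.add_apply, DL_apply, Dl_off e x l l' hl', AddMonoidHom.zero_apply, add_zero]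

/-- the letter `q_i` moves -/
private theorem mvQ (s : V) (i : Fin c) (t : L c n → V) (ρ : H) :
    Mv (X (tup e x t) ++ [hd ρ (e.ι s)])
      (X (tup e x (t + DL e x (Sum.inl (i, true)) (ρ • s))) ++
        [hd ((e.ι (ρ • s))⁻¹ * GG e x (Sum.inl (i, true)) t * ρ) (e.ι s)]) := by
  set l : L c n := Sum.inl (i, true) with hl
  set v : V := ρ • s with hv
  set w : V := DD e x l 0 • v with hw
  obtain ⟨A, B, h4, h1, h2⟩ := pack e x l t v
  set t' := t + DL e x l v with ht'
  have h3 := slq A B (tup e x t (Sum.inl (i, false))) (tup e x t l) ρ (e.ι s)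
  rw [h4, e.conj, ← hv, conjD, ← hw] at h3
  rw [h2, h1, List.append_assoc, List.cons_append, List.append_assoc, List.cons_append]
  have h5 : it (tup e x t) (pos l) = hd (tup e x t (Sum.inl (i, false))) (tup e x t l) := it_hd _ i
  have h6 : it (tup e x t') (pos l) = hd (tup e x t' (Sum.inl (i, false))) (tup e x t' l) := it_hd _ i
  have h7 : tup e x t' (Sum.inl (i, false)) = tup e x t (Sum.inl (i, false)) * e.ι w := by
    rw [e.mul, tup_smul, tup, tup, ← mul_assoc, ← e.add, ht', Pi.add_apply, DL_apply, hl, Dl, if_pos rfl, sm_apply, mul_smul, add_comm]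
  have h8 : tup e x t' l = (e.ι w)⁻¹ * tup e x t l * e.ι w := by
    rw [mul_assoc, e.mul, tup_smul, tup, tup, ← e.neg, ← mul_assoc, ← mul_assoc, ← e.add, ← e.add, ht', Pi.add_apply, DL_apply, hl, Dl, if_pos rfl,
      AddMonoidHom.sub_apply, sm_apply, sm_apply, mul_smul]
    congr 2
    rw [hw, hl]
    abel
  rw [h5, h6, h7, h8]
  exact h3

/-- the letter `p_i` moves -/
private theorem mvP (s : V) (i : Fin c) (t : L c n → V) (ρ : H) :
    Mv (X (tup e x t) ++ [hd ρ (e.ι s)])
      (X (tup e x (t + DL e x (Sum.inl (i, false)) (ρ • s))) ++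
        [hd ((e.ι (ρ • s))⁻¹ * GG e x (Sum.inl (i, false)) t * ρ) (e.ι s)]) := by
  set l : L c n := Sum.inl (i, false) with hl
  set v : V := ρ • s with hv
  set w : V := DD e x l 0 • v with hw
  obtain ⟨A, B, h4, h1, h2⟩ := pack e x l t v
  set t' := t + DL e x l v with ht'
  have h3 := slp A B (tup e x t l) (tup e x t (Sum.inl (i, true))) ρ (e.ι s)
  rw [h4, e.conj, ← hv, conjD, ← hw] at h3
  rw [h2, h1, List.append_assoc, List.cons_append, List.append_assoc, List.cons_append]
  have h5 : it (tup e x t) (pos l) = hd (tup e x t l) (tup e x t (Sum.inl (i, true))) := it_hd _ i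
  have h6 : it (tup e x t') (pos l) = hd (tup e x t' l) (tup e x t' (Sum.inl (i, true))) := it_hd _ i
  have h7 : tup e x t' l = (e.ι w)⁻¹ * tup e x t l * e.ι w := by
    rw [mul_assoc, e.mul, tup_smul, tup, tup, ← e.neg, ← mul_assoc, ← mul_assoc, ← e.add, ← e.add, ht', Pi.add_apply, DL_apply, hl, Dl, if_pos rfl,
      AddMonoidHom.sub_apply, sm_apply, sm_apply, mul_smul]
    congr 2
    rw [hw, hl]
    abel
  have h9 : (tup e x t l)⁻¹ * e.ι w * tup e x t l = e.ι ((x l)⁻¹ • w) := by
    have h := e.conj (tup e x t l)⁻¹ w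
    rw [inv_inv] at h
    rw [h]
    congr 1
    rw [inv_smul_eq_iff, tup_smul, smul_inv_smul]
  have h8 : tup e x t' (Sum.inl (i, true)) = (e.ι w)⁻¹ * ((tup e x t l)⁻¹ * e.ι w * tup e x t l) * tup e x t (Sum.inl (i, true)) * e.ι w := by
    rw [h9, mul_assoc _ _ (e.ι w), e.mul (tup e x t (Sum.inl (i, true))) w, tup_smul, tup, tup, ← e.neg, ← mul_assoc, ← mul_assoc, ← e.add, ← e.add, ← e.add, ht', Pi.add_apply, DL_apply, hl, Dl,
      if_pos rfl, AddMonoidHom.sub_apply, AddMonoidHom.add_apply, sm_apply, sm_apply, sm_apply, mul_smul, mul_smul]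
    congr 2
    rw [hw, hl]
    abel
  rw [h5, h6, h7, h8]
  exact h3

/-- the letter `c_j` moves -/
private theorem mvC (s : V) (j : Fin n) (t : L c n → V) (ρ : H) :
    Mv (X (tup e x t) ++ [hd ρ (e.ι s)])
      (X (tup e x (t + DL e x (Sum.inr j) (ρ • s))) ++
        [hd (GG e x (Sum.inr j) t * e.ι (ρ • s) * ρ) (e.ι s)]) := by
  set l : L c n := Sum.inr j with hl
  set v : V := ρ • s with hv
  set w : V := DD e x l 0 • v with hw
  obtain ⟨A, B, h4, h1, h2⟩ := pack e x l t v
  set t' := t + DL e x l v with ht'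
  have h3 := slc A B (tup e x t l) ρ (e.ι s)
  rw [h4, e.conj, ← hv, conjD, ← hw] at h3
  rw [h2, h1, List.append_assoc, List.cons_append, List.append_assoc, List.cons_append]
  have h5 : it (tup e x t) (pos l) = pt (tup e x t l) := it_pt _ j
  have h6 : it (tup e x t') (pos l) = pt (tup e x t' l) := it_pt _ j
  have h7 : tup e x t' l = tup e x t l * e.ι w * tup e x t l * (e.ι w)⁻¹ * (tup e x t l)⁻¹ := by
    have h8 : tup e x t l * (tup e x t l * (e.ι w)⁻¹ * (tup e x t l)⁻¹) = e.ι (- (x l • x l • w)) * tup e x t l := by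
      rw [← e.neg, e.conj, e.mul, smul_neg, smul_neg, tup_smul, tup_smul]
    have h9 : tup e x t l * e.ι w * tup e x t l * (e.ι w)⁻¹ * (tup e x t l)⁻¹ =
        e.ι (x l • w) * (tup e x t l * (tup e x t l * (e.ι w)⁻¹ * (tup e x t l)⁻¹)) := by
      rw [e.mul, tup_smul]
      simp only [mul_assoc]
    rw [h9, h8, tup, tup, ← mul_assoc, ← mul_assoc, ← e.add, ← e.add, ht', Pi.add_apply, DL_apply, hl, Dl,
      if_pos rfl, AddMonoidHom.sub_apply, sm_apply, sm_apply, mul_smul, mul_smul, mul_smul]
    congr 2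
    rw [hw, hl]
    abel
  rw [h5, h6, h7]
  exact h3

/-- a vector at the handle `i` -/
private def sg (i : Fin c) (a b : V) : L c n → V
  | Sum.inl (i', false) => if i' = i then a else 0
  | Sum.inl (i', true) => if i' = i then b else 0
  | Sum.inr _ => 0

private theorem sg_add (i : Fin c) (a b a' b' : V) : (sg i (a + a') (b + b') : L c n → V) = sg i a b + sg i a' b' := by
  funext l
  rcases l with ⟨i', _ | _⟩ | j <;> simp only [sg, Pi.add_apply]
  · split_ifs <;> simp
  · split_ifs <;> simp
  · simp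

private theorem sg_sub (i : Fin c) (a b a' b' : V) : (sg i (a - a') (b - b') : L c n → V) = sg i a b - sg i a' b' := by
  funext l
  rcases l with ⟨i', _ | _⟩ | j <;> simp only [sg, Pi.sub_apply]
  · split_ifs <;> simp
  · split_ifs <;> simp
  · simp

private theorem genG (w : L c n → V) (hw : ∀ j, w (Sum.inr j) = 0) : w ∈ AddSubgroup.closure {y | ∃ l v, y = DL e x l v} := by
  set N : AddSubgroup (L c n → V) := AddSubgroup.closure {y | ∃ l v, y = DL e x l v} with hN
  have hmem : ∀ l v, DL e x l v ∈ N := fun l v => AddSubgroup.subset_closure ⟨l, v, rfl⟩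
  have hDD : ∀ i : Fin c, DD e x (Sum.inl (i, true)) = DD e x (Sum.inl (i, false)) := fun i => rfl
  -- the two letters
  have hα : ∀ (i : Fin c) (u : V), sg i (x (Sum.inl (i, false)) • u) (x (Sum.inl (i, true)) • u - u) ∈ N := by
    intro i u
    have h1 := hmem (Sum.inl (i, true)) ((DD e x (Sum.inl (i, true)) 0)⁻¹ • u)
    have h2 : DL e x (Sum.inl (i, true)) ((DD e x (Sum.inl (i, true)) 0)⁻¹ • u) = sg i (x (Sum.inl (i, false)) • u) (x (Sum.inl (i, true)) • u - u) := by
      funext l
      rw [DL_apply]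
      rcases l with ⟨i', _ | _⟩ | j
      · simp only [Dl, sg]
        split_ifs
        · rw [sm_apply, mul_smul, smul_inv_smul]
        · rfl
      · simp only [Dl, sg]
        split_ifs
        · rw [AddMonoidHom.sub_apply, sm_apply, sm_apply, mul_smul, smul_inv_smul]
        · rfl
      · rfl
    rwa [h2] at h1
  have hβ : ∀ (i : Fin c) (u : V), sg i (x (Sum.inl (i, false)) • u - u) ((x (Sum.inl (i, false)))⁻¹ • u + x (Sum.inl (i, true)) • u - u) ∈ N := by
    intro i u
    have h1 := hmem (Sum.inl (i, false)) ((DD e x (Sum.inl (i, false)) 0)⁻¹ • u)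
    have h2 : DL e x (Sum.inl (i, false)) ((DD e x (Sum.inl (i, false)) 0)⁻¹ • u) =
        sg i (x (Sum.inl (i, false)) • u - u) ((x (Sum.inl (i, false)))⁻¹ • u + x (Sum.inl (i, true)) • u - u) := by
      funext l
      rw [DL_apply]
      rcases l with ⟨i', _ | _⟩ | j
      · simp only [Dl, sg]
        split_ifs
        · rw [AddMonoidHom.sub_apply, sm_apply, sm_apply, mul_smul, smul_inv_smul]
        · rfl
      · simp only [Dl, sg]
        split_ifs
        · rw [AddMonoidHom.sub_apply, AddMonoidHom.add_apply, sm_apply, sm_apply, sm_apply, mul_smul, mul_smul, smul_inv_smul]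
        · rfl
      · rfl
    rwa [h2] at h1
  have hγ : ∀ (i : Fin c) (u : V), sg i u (-((x (Sum.inl (i, false)))⁻¹ • u)) ∈ N := by
    intro i u
    have h1 := N.sub_mem (hα i u) (hβ i u)
    rw [← sg_sub] at h1
    convert h1 using 2 <;> abel
  have h0b : ∀ (i : Fin c) (b : V), sg i 0 b ∈ N := by
    intro i b
    have h1 := hα i ((x (Sum.inl (i, true)))⁻¹ • b)
    have h2 := hγ i (x (Sum.inl (i, false)) • ((x (Sum.inl (i, true)))⁻¹ • b))
    have h3 := N.sub_mem h1 h2
    rw [← sg_sub, inv_smul_smul, smul_inv_smul] at h3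
    convert h3 using 2 <;> abel
  have hab : ∀ (i : Fin c) (a b : V), sg i a b ∈ N := by
    intro i a b
    have h3 := N.add_mem (hγ i a) (h0b i (b + (x (Sum.inl (i, false)))⁻¹ • a))
    rw [← sg_add] at h3
    convert h3 using 2 <;> abel
  have hsum : w = ∑ i : Fin c, sg i (w (Sum.inl (i, false))) (w (Sum.inl (i, true))) := by
    funext l
    rw [Finset.sum_apply]
    rcases l with ⟨i', _ | _⟩ | j
    · simp [sg]
    · simp [sg]
    · simp [sg, hw]
  rw [hsum]
  exact N.sum_mem fun i _ => hab i _ _

end Letters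

theorem con {V H : Type} [AddCommGroup V] [Group H] [DistribMulAction H V] (e : Emb V H) (c n : ℕ) (x : L c n → H) :
    ∃ (D : L c n → V →+ (L c n → V)) (E : L c n → (L c n → V) →+ V) (C : L c n → V →+ V) (g : L c n → H),
      (∀ (s : V) l t ρ, Mv (X (tup e x t) ++ [hd ρ (e.ι s)])
        (X (tup e x (t + D l (ρ • s))) ++ [hd (e.ι (C l (ρ • s)) * (e.ι (E l t) * g l) * ρ) (e.ι s)])) ∧
      (∀ l t, e.ι (E l t) * g l ∈ Subgroup.closure (Set.range (tup e x t))) ∧
      (∀ i, (fun t => tup e x t i) ∈ Subgroup.closure (Set.range fun l (t : L c n → V) => e.ι (E l t) * g l)) ∧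
      (∀ w : L c n → V, (∀ j, w (Sum.inr j) = 0) → w ∈ AddSubgroup.closure {y | ∃ l v, y = D l v}) := by
  classical
  choose E hE using ex_aff e x
  let C : L c n → V →+ V := fun l => Sum.elim (fun _ => -(AddMonoidHom.id V)) (fun _ => sm V (GG e x l 0)) l
  refine ⟨DL e x, E, C, fun l => GG e x l 0, ?_, ?_, ?_, genG e x⟩
  · intro s l t ρ
    simp only [hE]
    rcases l with ⟨i, _ | _⟩ | j
    · have h1 := mvP e x s i t ρ
      rw [← e.neg] at h1
      exact h1
    · have h1 := mvQ e x s i t ρ
      rw [← e.neg] at h1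
      exact h1
    · have h1 := mvC e x s j t ρ
      have h2 : GG e x (Sum.inr j) t • (ρ • s) = GG e x (Sum.inr j) 0 • (ρ • s) := affS_smul (GG_mem e x _ (co_aff e x) _) t _
      rw [e.mul, h2] at h1
      exact h1
  · intro l t
    simp only [hE]
    exact subG e x l t
  · intro i
    simp only [hE]
    exact sepG e x i

end SO
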