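import Pool.Agent.Lib.MP_943dad_ag.SO.Link
import Pool.Agent.Lib.MP_943dad_ag.SO.Step2

/-!
Cyclic normal subgroups cost nothing.
-/

namespace Pool.Agent.HMv

open Item

section Cyc

variable {H : Type} [Group H]

/-- A minimal normal subgroup which is cyclic is generated by each nontrivial element. -/
theorem cyc_gen {V : Subgroup H} [V.Normal] [IsCyclic V]
    (hmin : ∀ a ∈ V, a ≠ 1 → V ≤ Subgroup.normalClosure {a}) {r s : H} (hr : r ∈ V) (hs : s ∈ V)
    (hs1 : s ≠ 1) : ∃ k : ℤ, r = s ^ k := by
  have hn : (Subgroup.zpowers s).Normal := by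
    constructor
    intro x hx g
    obtain ⟨k, rfl⟩ := Subgroup.mem_zpowers_iff.1 hx
    obtain ⟨m, hm⟩ := MonoidHom.map_cyclic (MulAut.conjNormal g : V ≃* V).toMonoidHom
    have h1 : g * s * g⁻¹ = s ^ m := by
      have := congrArg Subtype.val (hm ⟨s, hs⟩)
      have e1 : ((MulAut.conjNormal g : V ≃* V).toMonoidHom ⟨s, hs⟩ : H) = g * s * g⁻¹ :=
        MulAut.conjNormal_apply g ⟨s, hs⟩
      rw [e1] at this
      rw [this]
      rfl
    have h2 : g * s ^ k * g⁻¹ = (g * s * g⁻¹) ^ k := (conj_zpow).symm
    rw [h2, h1]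
    exact Subgroup.zpow_mem _ (Subgroup.zpow_mem _ (Subgroup.mem_zpowers s) m) k
  have h1 : Subgroup.normalClosure {s} ≤ Subgroup.zpowers s := by
    apply Subgroup.normalClosure_le_normal
    rw [Set.singleton_subset_iff]
    exact Subgroup.mem_zpowers s
  obtain ⟨k, hk⟩ := Subgroup.mem_zpowers_iff.1 (h1 (hmin s hs hs1 hr))
  exact ⟨k, hk.symm⟩

theorem VN.ι_zsmul {N : Subgroup H} {hN : Comm N} (v : VN N hN) (k : ℤ) :
    VN.ι (k • v) = VN.ι v ^ k := by
  let φ : Multiplicative (VN N hN) →* H :=
    ⟨⟨fun v => VN.ι (Multiplicative.toAdd v), VN.ι_zero⟩, fun a b => VN.ι_add _ _⟩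
  exact map_zpow φ (Multiplicative.ofAdd v) k

theorem stepS_cyclic {d c : ℕ} (hc : d ≤ c) (G : Type) [Group G] [Finite G] (V : Subgroup G)
    [V.Normal] [IsCyclic V] (hV : Comm V) (hmin : ∀ a ∈ V, a ≠ 1 → V ≤ Subgroup.normalClosure {a})
    (hG : GenBy G d) : StepS G V c := by
  -- first with a nontrivial second coordinate
  have main : ∀ (X : List (G × G)) (P : List G) (r s : G), r ∈ V → s ∈ V → s ≠ 1 → X.length = c →
    gen ((hds X ++ pts P) ++ [hd r s]) = ⊤ →
    ∃ (X' : List (G × G)) (P' : List G), X'.length = c ∧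
      Mv ((hds X ++ pts P) ++ [hd r s]) ((hds X' ++ pts P') ++ [hd 1 1]) := by
    intro X P r s hr hs hs1 hX hg
    subst hX
    obtain ⟨y, hy⟩ := hG
    have : Finite (VN V hV) := inferInstanceAs (Finite V)
    obtain ⟨t, ht1, ht2⟩ := SO.step2 (VN.emb V hV) (VN.simple hmin) (by
      intro r' s' hs'
      obtain ⟨k, hk⟩ := cyc_gen hmin (VN.ι_mem r') (VN.ι_mem s') (by
        intro h
        apply hs'
        apply VN.ext
        rw [h, VN.ι_zero])
      refine ⟨k, VN.ext ?_⟩
      rw [hk, VN.ι_zsmul]) y hy X.length P.length hc (fnc X P) (by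
      rw [eq_top_iff, ← hg]
      apply gen_le
      intro p hp z hz
      rcases List.mem_append.1 hp with hp | hp
      · apply (le_sup_left : Subgroup.closure (Set.range (fnc X P)) ≤ _)
        rw [← gen_stt, stt_fnc]
        exact ent_mem_gen hp hz
      · rw [List.mem_singleton] at hp
        subst hp
        have hzV : z ∈ V := by
          rcases hz with h | h
          · rw [h]
            exact hr
          · have : z = s := h
            rw [this]
            exact hs
        apply (le_sup_right : Subgroup.closure (Set.range (VN.emb V hV).ι) ≤ _)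
        exact Subgroup.subset_closure ⟨VN.mk z hzV, rfl⟩) (VN.mk r hr) (VN.mk s hs) (by
      intro h
      apply hs1
      exact congrArg VN.ι h)
    have e0 : SO.X (fnc X P) = stt (fnc X P) := rfl
    have e0' : SO.X (SO.tup (VN.emb V hV) (fnc X P) t) =
      stt (fun l => (VN.emb V hV).ι (t l) * fnc X P l) := rfl
    rw [e0, e0', stt_fnc] at ht2
    have e1 : (VN.emb V hV).ι (VN.mk r hr) = r := rfl
    have e2 : (VN.emb V hV).ι (VN.mk s hs) = s := rfl
    rw [e1, e2] at ht2
    have h3 : s ∈ gen (stt fun l => (VN.emb V hV).ι (t l) * fnc X P l) := by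
      have e3 : SO.tup (VN.emb V hV) (fnc X P) t = fun l => (VN.emb V hV).ι (t l) * fnc X P l := rfl
      rw [e3] at ht1
      rw [gen_stt, ht1]
      trivial
    have h4 := kill_end h3
    refine ⟨List.ofFn fun i : Fin X.length => ((VN.emb V hV).ι (t (Sum.inl (i, false))) * fnc X P (Sum.inl (i, false)),
      (VN.emb V hV).ι (t (Sum.inl (i, true))) * fnc X P (Sum.inl (i, true))),
      List.ofFn fun j : Fin P.length => (VN.emb V hV).ι (t (Sum.inr j)) * fnc X P (Sum.inr j), by simp, ?_⟩
    exact ht2.trans h4
  intro X P r s hr hs hX hg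
  by_cases hs1 : s = 1
  · subst hs1
    by_cases hr1 : r = 1
    · subst hr1
      exact ⟨X, P, hX, Mv.refl _⟩
    · have h1 := (Mv.rot r 1 ([] : List (Item G))).app_left (hds X ++ pts P)
      have e : r * 1 * r⁻¹ = 1 := by group
      rw [e] at h1
      have hg' : gen ((hds X ++ pts P) ++ [hd 1 r⁻¹]) = ⊤ := by
        rw [← hg]
        exact h1.gen_eq.symm
      obtain ⟨X', P', h2, h3⟩ := main X P 1 r⁻¹ V.one_mem (V.inv_mem hr) (inv_ne_one.2 hr1) hX hg'
      exact ⟨X', P', h2, h1.trans h3⟩
  · exact main X P r s hr hs hs1 hX hg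

/-- Cyclic kernels. -/
theorem killsGen_cyc {d c : ℕ} (hc : d ≤ c) (Q : Type) [Group Q] (hQ : KillsGen Q c) :
    ∀ (m : ℕ) (G : Type) [Group G] [Finite G] (q : G →* Q), Function.Surjective q →
      IsCyclic q.ker → Nat.card q.ker = m → GenBy G d → KillsGen G c := by
  intro m
  induction m using Nat.strong_induction_on with
  | _ m ih =>
    intro G _ _ q hq hcyc hm hG
    by_cases hS : q.ker = ⊥
    · exact killsGen_of_inj hq ((MonoidHom.ker_eq_bot_iff q).1 hS) hQ
    · have := hcyc
      obtain ⟨V, hV, hVS, hV1, hV2⟩ := exists_min_normal q.ker hS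
      have := hV
      have hVcyc : IsCyclic V :=
        isCyclic_of_injective (Subgroup.inclusion hVS) (Subgroup.inclusion_injective hVS)
      have hVc : Comm V := by
        intro a ha b hb
        have h1 := (IsCyclic.commGroup (α := V)).mul_comm ⟨a, ha⟩ ⟨b, hb⟩
        exact congrArg Subtype.val h1
      have hch : Chain V := by
        intro a ha b hb
        by_cases h1 : b = 1
        · right
          rw [h1]
          exact Subgroup.one_mem _
        · left
          exact hV2 b hb h1 ha
      -- the induced homomorphism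
      set q' : G ⧸ V →* Q := QuotientGroup.lift V q hVS with hq'
      have hq's : Function.Surjective q' := by
        intro y
        obtain ⟨x, rfl⟩ := hq y
        exact ⟨QuotientGroup.mk' V x, rfl⟩
      have hker : q'.ker = q.ker.map (QuotientGroup.mk' V) := by
        ext y
        obtain ⟨x, rfl⟩ := QuotientGroup.mk'_surjective V y
        constructor
        · intro h
          exact ⟨x, h, rfl⟩
        · rintro ⟨z, hz, hzx⟩
          rw [← hzx]
          exact hz
      have hcyc' : IsCyclic q'.ker := by
        rw [hker]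
        exact isCyclic_of_surjective _ ((QuotientGroup.mk' V).subgroupMap_surjective q.ker)
      have hcard : Nat.card q'.ker < m := by
        rw [hker, ← hm]
        have hfin : Finite q.ker := inferInstance
        have hsur := (QuotientGroup.mk' V).subgroupMap_surjective q.ker
        by_contra hcon
        have hle : Nat.card q.ker ≤ Nat.card (q.ker.map (QuotientGroup.mk' V)) := not_lt.1 hcon
        have heq := le_antisymm hle (Nat.card_le_card_of_surjective _ hsur)
        have hbij : Function.Bijective ((QuotientGroup.mk' V).subgroupMap q.ker) := by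
          have hfin2 : Finite (q.ker.map (QuotientGroup.mk' V)) := Finite.of_surjective _ hsur
          exact (Nat.bijective_iff_surjective_and_card _).2 ⟨hsur, heq⟩
        apply hV1
        rw [eq_bot_iff]
        intro x hx
        have h1 : (QuotientGroup.mk' V).subgroupMap q.ker ⟨x, hVS hx⟩ =
            (QuotientGroup.mk' V).subgroupMap q.ker 1 := by
          apply Subtype.ext
          show QuotientGroup.mk' V x = QuotientGroup.mk' V 1
          rw [map_one, QuotientGroup.mk'_apply, QuotientGroup.eq_one_iff]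
          exact hx
        have h2 := congrArg Subtype.val (hbij.1 h1)
        rw [Subgroup.mem_bot]
        exact h2
      have hQ' := ih _ hcard (G ⧸ V) q' hq's hcyc' rfl (hG.map (QuotientGroup.mk'_surjective V))
      exact killsGen_step hVc hch hQ' (stepS_cyclic hc G V hVc hV2 hG)

/-- **A cyclic normal subgroup costs nothing.** -/
theorem killsGen_cyclic {d c : ℕ} (hdc : d ≤ c) {G : Type} [Group G] [Finite G] (N : Subgroup G)
    [N.Normal] [IsCyclic N] (hG : GenBy G d) (hQ : KillsGen (G ⧸ N) c) : KillsGen G c := by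
  refine killsGen_cyc hdc (G ⧸ N) hQ _ G (QuotientGroup.mk' N) (QuotientGroup.mk'_surjective N) ?_ rfl hG
  rw [QuotientGroup.ker_mk']
  infer_instance

end Cyc

end Pool.Agent.HMv
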