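import Pool.Agent.Lib.MP_943dad_ag.SO.Card

/-!
# SO-Idx: a subgroup `K` of finite index `I`, normal or not, costs `I - 1`

`kills_index`: if all handles with entries in `K` but `m` can be killed, then all handles with entries in `G` but
`I - 1 + m` can be killed. The main step (`fix_one`): a list of handles whose entries preserve a finite set `X` of
points, with at least `|X|` handles, can be moved such that both entries of the first handle fix a given point of `X`.
-/

namespace Pool.Agent.HMv

universe u v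

open Item
open scoped Pointwise

section

variable {G : Type u} [Group G]

/-- The handle `(p, q)` moves to the left without a change. -/
theorem left_one (r s p q : G) (L : List (Item G)) :
    ∃ r' s' : G, Mv (hd r s :: hd p q :: L) (hd p q :: hd r' s' :: L) := by
  refine ⟨(p * q * p⁻¹ * q⁻¹)⁻¹ * r * (p * q * p⁻¹ * q⁻¹), (p * q * p⁻¹ * q⁻¹)⁻¹ * s * (p * q * p⁻¹ * q⁻¹), ?_⟩
  have h := Mv.exch p q ((p * q * p⁻¹ * q⁻¹)⁻¹ * r * (p * q * p⁻¹ * q⁻¹))
    ((p * q * p⁻¹ * q⁻¹)⁻¹ * s * (p * q * p⁻¹ * q⁻¹)) L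
  have e1 : ∀ t : G, (p * q * p⁻¹ * q⁻¹) * ((p * q * p⁻¹ * q⁻¹)⁻¹ * t * (p * q * p⁻¹ * q⁻¹)) *
      (p * q * p⁻¹ * q⁻¹)⁻¹ = t := fun t => by group
  rw [e1, e1] at h
  exact h.symm

theorem left_all (p q : G) : ∀ (A : List (G × G)) (T : List (Item G)),
    ∃ A' : List (G × G), A'.length = A.length ∧ Mv (hds A ++ hd p q :: T) (hd p q :: (hds A' ++ T))
  | [], T => ⟨[], rfl, Mv.refl _⟩
  | a :: A, T => by
    obtain ⟨A', hA', h1⟩ := left_all p q A T
    obtain ⟨r', s', h2⟩ := left_one a.1 a.2 p q (hds A' ++ T)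
    exact ⟨(r', s') :: A', by simp [hA'], (Mv.cons _ h1).trans h2⟩

/-- The handle `(p, q)` moves to the right without a change. -/
theorem right_all (p q : G) : ∀ (A : List (G × G)) (T : List (Item G)),
    ∃ A' : List (G × G), A'.length = A.length ∧ Mv (hd p q :: (hds A ++ T)) (hds A' ++ hd p q :: T)
  | [], T => ⟨[], rfl, Mv.refl _⟩
  | a :: A, T => by
    have h1 := Mv.exch p q a.1 a.2 (hds A ++ T)
    obtain ⟨A', hA', h2⟩ := right_all p q A T
    exact ⟨(_, _) :: A', by simp [hA'], h1.trans (Mv.cons _ h2)⟩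

/-- The first entry of a handle can be multiplied into the first entry of the next handle, whose second entry does not
change. -/
theorem mult_one (p q x y : G) (L : List (Item G)) :
    ∃ r s : G, Mv (hd p q :: hd x y :: L) (hd r s :: hd (p * x) y :: L) := by
  have h1 := Mv.rot p q (hd x y :: L)
  have h2 := Mv.dd (p * q * p⁻¹) p⁻¹ x y (-1) L
  have h3 := Mv.twist (p * x * y) y (-1) L
  have e : p⁻¹⁻¹ * x * y * x⁻¹ = p * x * y * x⁻¹ := by rw [inv_inv]
  rw [e] at h2
  have e2 : (p * x * y * x⁻¹) ^ (- -1 : ℤ) * x = p * x * y := by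
    rw [neg_neg, zpow_one]
    group
  rw [e2] at h2
  have e3 : p * x * y * y ^ (-1 : ℤ) = p * x := by group
  rw [e3] at h3
  exact ⟨_, _, h1.trans (h2.trans (Mv.cons _ h3))⟩

end

section Act

variable {G : Type u} [Group G] {Ω : Type v} [MulAction G Ω]

open Classical in
/-- The points which are reached from `α` by products of entries of a list of handles, each handle used once. -/
noncomputable def pts' (α : Ω) : List (G × G) → Finset Ω
  | [] => {α}
  | u :: U => pts' α U ∪ ((pts' α U).image (fun β => u.1 • β) ∪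
      (pts' α U).image (fun β => (u.1 * u.2 * u.1⁻¹) • β))

theorem mem_pts' (α : Ω) : ∀ U : List (G × G), α ∈ pts' α U
  | [] => Finset.mem_singleton_self α
  | u :: U => by
    classical
    exact Finset.mem_union_left _ (mem_pts' α U)

theorem pts'_subset {α : Ω} {X : Finset Ω} (hα : α ∈ X) {K : Subgroup G} (hK : ∀ k ∈ K, ∀ x ∈ X, k • x ∈ X) :
    ∀ U : List (G × G), (∀ u ∈ U, u.1 ∈ K ∧ u.2 ∈ K) → pts' α U ⊆ X
  | [], _ => by
    intro β hβ
    rw [pts', Finset.mem_singleton] at hβ
    rwa [hβ]
  | u :: U, h => by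
    classical
    have hu := h u List.mem_cons_self
    have ih := pts'_subset hα hK U fun v hv => h v (List.mem_cons_of_mem _ hv)
    intro β hβ
    rw [pts', Finset.mem_union, Finset.mem_union, Finset.mem_image, Finset.mem_image] at hβ
    rcases hβ with h1 | ⟨γ, hγ, rfl⟩ | ⟨γ, hγ, rfl⟩
    · exact ih h1
    · exact hK _ hu.1 _ (ih hγ)
    · exact hK _ (mul_mem (mul_mem hu.1 hu.2) (inv_mem hu.1)) _ (ih hγ)

/-- The moves which reach a point. -/
theorem reach {x y : G} {ω : Ω} : ∀ (U : List (G × G)) (β : Ω), β ∈ pts' (x • ω) U → ∀ T : List (Item G),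
    ∃ (z : G) (U' : List (G × G)), z • ω = β ∧ U'.length = U.length ∧
      Mv (hds U ++ hd x y :: T) (hd z y :: (hds U' ++ T))
  | [], β, hβ, T => by
    rw [pts', Finset.mem_singleton] at hβ
    exact ⟨x, [], hβ.symm, rfl, Mv.refl _⟩
  | u :: U, β, hβ, T => by
    classical
    rw [pts', Finset.mem_union, Finset.mem_union, Finset.mem_image, Finset.mem_image] at hβ
    rcases hβ with h1 | ⟨γ, hγ, rfl⟩ | ⟨γ, hγ, rfl⟩
    · obtain ⟨z, U', hz, hU', h2⟩ := reach U β h1 T
      obtain ⟨r', s', h3⟩ := left_one u.1 u.2 z y (hds U' ++ T)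
      exact ⟨z, (r', s') :: U', hz, by simp [hU'], (Mv.cons _ h2).trans h3⟩
    · obtain ⟨z, U', hz, hU', h2⟩ := reach U γ hγ T
      obtain ⟨r, s, h3⟩ := mult_one u.1 u.2 z y (hds U' ++ T)
      obtain ⟨r', s', h4⟩ := left_one r s (u.1 * z) y (hds U' ++ T)
      exact ⟨u.1 * z, (r', s') :: U', by rw [mul_smul, hz], by simp [hU'],
        ((Mv.cons _ h2).trans h3).trans h4⟩
    · obtain ⟨z, U', hz, hU', h2⟩ := reach U γ hγ T
      have h5 := Mv.rot u.1 u.2 (hd z y :: (hds U' ++ T))
      obtain ⟨r, s, h3⟩ := mult_one (u.1 * u.2 * u.1⁻¹) u.1⁻¹ z y (hds U' ++ T)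
      obtain ⟨r', s', h4⟩ := left_one r s ((u.1 * u.2 * u.1⁻¹) * z) y (hds U' ++ T)
      exact ⟨(u.1 * u.2 * u.1⁻¹) * z, (r', s') :: U', by rw [mul_smul, hz], by simp [hU'],
        (((Mv.cons _ h2).trans h5).trans h3).trans h4⟩

/-- Prefix products: if the entries preserve a finite set `X` with at most as many elements as the list, a segment of
the list has a product which fixes a given point of `X`. -/
theorem exists_prod_fix {X : Finset Ω} {ω : Ω} (hω : ω ∈ X) {K : Subgroup G} (hK : ∀ k ∈ K, ∀ x ∈ X, k • x ∈ X)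
    (l : List G) (hl : ∀ g ∈ l, g ∈ K) (h : X.card ≤ l.length) :
    ∃ A S T : List G, l = A ++ (S ++ T) ∧ S ≠ [] ∧ S.prod • ω = ω := by
  have hmem : ∀ i : ℕ, (l.take i).prod ∈ K := fun i =>
    Subgroup.list_prod_mem _ fun g hg => hl g (List.mem_of_mem_take hg)
  have hf : ¬ Set.InjOn (fun i : ℕ => (l.take i).prod • ω) (Finset.range (l.length + 1)) := by
    intro hinj
    have h1 := Finset.card_le_card_of_injOn (s := Finset.range (l.length + 1)) (t := X)
      (fun i : ℕ => (l.take i).prod • ω) (fun i _ => hK _ (hmem i) _ hω) hinj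
    rw [Finset.card_range] at h1
    omega
  have key : ∀ i j : ℕ, i < j → j ≤ l.length → (l.take i).prod • ω = (l.take j).prod • ω →
      ∃ A S T : List G, l = A ++ (S ++ T) ∧ S ≠ [] ∧ S.prod • ω = ω := by
    intro i j hij hj hp
    have e1 : (l.take j).take i = l.take i := by
      rw [List.take_take, min_eq_left hij.le]
    refine ⟨l.take i, (l.take j).drop i, l.drop j, ?_, ?_, ?_⟩
    · rw [← List.append_assoc, ← e1, List.take_append_drop, List.take_append_drop]
    · intro h0
      have := congrArg List.length h0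
      simp only [List.length_drop, List.length_take, List.length_nil] at this
      omega
    · have h1 : (l.take i).prod * ((l.take j).drop i).prod = (l.take j).prod := by
        rw [← e1, ← List.prod_append, List.take_append_drop]
      rw [← h1, mul_smul] at hp
      exact (MulAction.injective _ hp).symm
  unfold Set.InjOn at hf
  push Not at hf
  obtain ⟨i, hi, j, hj, hp, hne⟩ := hf
  rw [Finset.coe_range, Set.mem_Iio] at hi hj
  rcases lt_or_gt_of_ne hne with h1 | h1
  · exact key i j h1 (by omega) hp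
  · exact key j i h1 (by omega) hp.symm

/-- One handle gets a second entry which fixes `ω`; it stands at the end of the list. -/
theorem extract_fix {X : Finset Ω} {ω : Ω} (hω : ω ∈ X) (L : List (G × G))
    (hK : ∀ k ∈ gen (hds L), ∀ x ∈ X, k • x ∈ X) (h : X.card ≤ L.length) :
    ∃ (x y : G) (L' : List (G × G)), y • ω = ω ∧ L'.length + 1 = L.length ∧
      Mv (hds L) (hds (L' ++ [(x, y)])) := by
  obtain ⟨A', S', T', hl, hS, hp⟩ := exists_prod_fix hω hK (L.map Prod.fst) (by
    intro g hg
    rw [List.mem_map] at hg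
    obtain ⟨p, hp, rfl⟩ := hg
    refine ent_mem_gen (p := hd p.1 p.2) ?_ (Or.inl rfl)
    unfold hds
    rw [List.mem_map]
    exact ⟨p, hp, rfl⟩) (by simpa using h)
  obtain ⟨A, ST, rfl, rfl, hST⟩ := List.map_eq_append_iff.1 hl
  obtain ⟨S, T, rfl, rfl, rfl⟩ := List.map_eq_append_iff.1 hST
  have hS' : S ≠ [] := by
    rintro rfl
    exact hS rfl
  obtain ⟨y, S1, hS1, h1⟩ := accumulate S hS' (hds T)
  have h2 := Mv.rot (S.map Prod.fst).prod y (hds S1 ++ hds T)
  obtain ⟨B, hB, h3⟩ := right_all ((S.map Prod.fst).prod * y * (S.map Prod.fst).prod⁻¹)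
    ((S.map Prod.fst).prod⁻¹) (S1 ++ T) []
  refine ⟨(S.map Prod.fst).prod * y * (S.map Prod.fst).prod⁻¹, (S.map Prod.fst).prod⁻¹, A ++ B, ?_, ?_, ?_⟩
  · rw [inv_smul_eq_iff, hp]
  · simp only [List.length_append] at hB ⊢
    omega
  · rw [hds_append] at h3
    rw [List.append_nil] at h3
    rw [hds_append, hds_append, hds_append, hds_append, List.append_assoc]
    exact Mv.app_left ((h1.trans h2).trans h3) (hds A)

/-- If a subgroup maps a finite set `S` into itself, it maps the complement of `S` in `X` into itself. -/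
theorem sdiff_pres [DecidableEq Ω] {X S : Finset Ω} {k : G} (hX : ∀ x ∈ X, k • x ∈ X) (hS : ∀ x ∈ S, k • x ∈ S) :
    ∀ x ∈ X \ S, k • x ∈ X \ S := by
  intro x hx
  rw [Finset.mem_sdiff] at hx ⊢
  refine ⟨hX x hx.1, fun h => hx.2 ?_⟩
  have h1 : S.image (fun x => k • x) = S := by
    apply Finset.eq_of_subset_of_card_le
    · intro y hy
      rw [Finset.mem_image] at hy
      obtain ⟨z, hz, rfl⟩ := hy
      exact hS z hz
    · rw [Finset.card_image_of_injective _ (MulAction.injective k)]
  rw [← h1, Finset.mem_image] at h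
  obtain ⟨z, hz, h2⟩ := h
  rwa [← MulAction.injective k h2]

/-- The elements which map `S` into itself and whose inverses do. -/
def prs (S : Finset Ω) : Subgroup G where
  carrier := {k | (∀ x ∈ S, k • x ∈ S) ∧ ∀ x ∈ S, k⁻¹ • x ∈ S}
  mul_mem' := by
    rintro k l ⟨h1, h2⟩ ⟨h3, h4⟩
    refine ⟨fun x hx => ?_, fun x hx => ?_⟩
    · rw [mul_smul]
      exact h1 _ (h3 _ hx)
    · rw [mul_inv_rev, mul_smul]
      exact h4 _ (h2 _ hx)
  one_mem' := by
    refine ⟨fun x hx => ?_, fun x hx => ?_⟩
    · rwa [one_smul]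
    · rwa [inv_one, one_smul]
  inv_mem' := by
    rintro k ⟨h1, h2⟩
    refine ⟨h2, fun x hx => ?_⟩
    rw [inv_inv]
    exact h1 x hx

theorem mem_prs {S : Finset Ω} {k : G} (h : ∀ x ∈ S, k • x ∈ S) : k ∈ (prs S : Subgroup G) := by
  classical
  refine ⟨h, fun x hx => ?_⟩
  have h1 : S.image (fun x => k • x) = S := by
    apply Finset.eq_of_subset_of_card_le
    · intro y hy
      rw [Finset.mem_image] at hy
      obtain ⟨z, hz, rfl⟩ := hy
      exact h z hz
    · rw [Finset.card_image_of_injective _ (MulAction.injective k)]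
  rw [← h1, Finset.mem_image] at hx
  obtain ⟨z, hz, rfl⟩ := hx
  rwa [inv_smul_smul]

/-- The greedy step. -/
theorem greedy {X : Finset Ω} {ω : Ω} (hω : ω ∈ X)
    (ih : ∀ Y : Finset Ω, Y.card < X.card → ω ∈ Y → ∀ L : List (G × G),
      (∀ k ∈ gen (hds L), ∀ x ∈ Y, k • x ∈ Y) → Y.card ≤ L.length →
      ∃ (p q : G) (L' : List (G × G)), p • ω = ω ∧ q • ω = ω ∧ L'.length + 1 = L.length ∧
        Mv (hds L) (hd p q :: hds L')) :
    ∀ (m : ℕ) (L U : List (G × G)) (x y : G), L.length = m → y • ω = ω →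
      (∀ k ∈ gen (hds (L ++ (U ++ [(x, y)]))), ∀ x ∈ X, k • x ∈ X) → X.card ≤ L.length + (U.length + 1) →
      U.length + 1 ≤ (pts' (x • ω) U).card →
      ∃ (p q : G) (L' : List (G × G)), p • ω = ω ∧ q • ω = ω ∧ L'.length = L.length + U.length ∧
        Mv (hds (L ++ (U ++ [(x, y)]))) (hd p q :: hds L') := by
  classical
  intro m
  induction m using Nat.strong_induction_on with
  | _ m ihm =>
    intro L U x y hLm hy hgen hcard hS
    have hentL : ∀ u ∈ L ++ (U ++ [(x, y)]), u.1 ∈ gen (hds (L ++ (U ++ [(x, y)]))) ∧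
        u.2 ∈ gen (hds (L ++ (U ++ [(x, y)]))) := by
      intro u hu
      have h2 : (hd u.1 u.2 : Item G) ∈ hds (L ++ (U ++ [(x, y)])) := by
        unfold hds
        rw [List.mem_map]
        exact ⟨u, hu, rfl⟩
      exact ⟨ent_mem_gen h2 (Or.inl rfl), ent_mem_gen h2 (Or.inr rfl)⟩
    have hxX : x • ω ∈ X := hgen _ (hentL (x, y) (by simp)).1 _ hω
    have hSX : pts' (x • ω) U ⊆ X := pts'_subset hxX hgen U fun u hu => hentL u (by simp [hu])
    by_cases hωS : ω ∈ pts' (x • ω) U
    · obtain ⟨z, U', hz, hU', h1⟩ := reach U ω hωS ([] : List (Item G))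
      obtain ⟨A', hA', h2⟩ := left_all z y L (hds U' ++ [])
      refine ⟨z, y, A' ++ U', hz, hy, by simp [hA', hU'], ?_⟩
      rw [List.append_nil] at h1 h2
      have h3 : (hds [(x, y)] : List (Item G)) = [hd x y] := rfl
      rw [hds_append, hds_append, h3, hds_append]
      exact (Mv.app_left h1 (hds L)).trans h2
    · by_cases hpres : ∀ u ∈ L, (∀ β ∈ pts' (x • ω) U, u.1 • β ∈ pts' (x • ω) U) ∧
          ∀ β ∈ pts' (x • ω) U, (u.1 * u.2 * u.1⁻¹) • β ∈ pts' (x • ω) U
      · have hle : gen (hds L) ≤ prs (pts' (x • ω) U) := by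
          apply gen_le
          intro p hp z hz
          unfold hds at hp
          rw [List.mem_map] at hp
          obtain ⟨u, hu, rfl⟩ := hp
          have h1 := mem_prs (hpres u hu).1
          have h2 := mem_prs (hpres u hu).2
          rcases hz with rfl | hz
          · exact h1
          · have h3 : z = u.2 := hz
            rw [h3]
            have h4 := mul_mem (mul_mem (inv_mem h1) h2) h1
            have h5 : u.1⁻¹ * (u.1 * u.2 * u.1⁻¹) * u.1 = u.2 := by group
            rwa [h5] at h4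
        have hmono : gen (hds L) ≤ gen (hds (L ++ (U ++ [(x, y)]))) := by
          apply gen_mono
          intro p hp
          rw [hds_append]
          exact List.mem_append_left _ hp
        have hcX : (X \ pts' (x • ω) U).card = X.card - (pts' (x • ω) U).card :=
          Finset.card_sdiff_of_subset hSX
        have hSle := Finset.card_le_card hSX
        obtain ⟨p, q, L', hp, hq, hL', h1⟩ := ih (X \ pts' (x • ω) U) (by omega)
          (Finset.mem_sdiff.2 ⟨hω, hωS⟩) L
          (fun k hk => sdiff_pres (hgen k (hmono hk)) (hle hk).1) (by omega)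
        refine ⟨p, q, L' ++ (U ++ [(x, y)]), hp, hq, ?_, ?_⟩
        · simp only [List.length_append, List.length_singleton]
          omega
        · rw [hds_append, hds_append L']
          exact h1.app_right _
      · push Not at hpres
        obtain ⟨u, huL, hu⟩ := hpres
        obtain ⟨L1, L2, rfl⟩ := List.append_of_mem huL
        obtain ⟨L2', hL2', h1⟩ := right_all u.1 u.2 L2 (hds (U ++ [(x, y)]))
        have h2 : Mv (hds (L1 ++ u :: L2 ++ (U ++ [(x, y)]))) (hds ((L1 ++ L2') ++ ((u :: U) ++ [(x, y)]))) := by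
          have h3 := Mv.app_left h1 (hds L1)
          have e1 : hds (L1 ++ u :: L2 ++ (U ++ [(x, y)])) =
              hds L1 ++ (hd u.1 u.2 :: (hds L2 ++ hds (U ++ [(x, y)]))) := by
            simp only [hds_append, hds_cons, List.append_assoc, List.cons_append]
          have e2 : hds ((L1 ++ L2') ++ ((u :: U) ++ [(x, y)])) =
              hds L1 ++ (hds L2' ++ hd u.1 u.2 :: hds (U ++ [(x, y)])) := by
            simp only [hds_append, hds_cons, List.append_assoc, List.cons_append]
          rw [e1, e2]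
          exact h3
        have hlt : (pts' (x • ω) U).card < (pts' (x • ω) (u :: U)).card := by
          apply Finset.card_lt_card
          rw [Finset.ssubset_iff_of_subset (by rw [pts']; exact Finset.subset_union_left)]
          by_cases h3 : ∀ β ∈ pts' (x • ω) U, u.1 • β ∈ pts' (x • ω) U
          · obtain ⟨β, hβ, h4⟩ := hu h3
            refine ⟨_, ?_, h4⟩
            rw [pts', Finset.mem_union, Finset.mem_union]
            exact Or.inr (Or.inr (Finset.mem_image_of_mem _ hβ))
          · push Not at h3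
            obtain ⟨β, hβ, h4⟩ := h3
            refine ⟨_, ?_, h4⟩
            rw [pts', Finset.mem_union, Finset.mem_union]
            exact Or.inr (Or.inl (Finset.mem_image_of_mem _ hβ))
        simp only [List.length_append, List.length_cons] at hLm hcard
        obtain ⟨p, q, L', hp, hq, hL', h5⟩ := ihm (L1 ++ L2').length
          (by simp only [List.length_append]; omega) (L1 ++ L2') (u :: U) x y rfl hy
          (by rw [← h2.gen_eq]; exact hgen)
          (by simp only [List.length_append, List.length_cons]; omega)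
          (by simp only [List.length_cons]; omega)
        refine ⟨p, q, L', hp, hq, ?_, h2.trans h5⟩
        simp only [List.length_append, List.length_cons] at hL' ⊢
        omega

/-- Among `|X|` handles whose entries preserve `X`, one gets entries which fix the point `ω` of `X`. -/
theorem fix_one {ω : Ω} : ∀ (N : ℕ) (X : Finset Ω), X.card = N → ω ∈ X → ∀ L : List (G × G),
    (∀ k ∈ gen (hds L), ∀ x ∈ X, k • x ∈ X) → X.card ≤ L.length →
    ∃ (p q : G) (L' : List (G × G)), p • ω = ω ∧ q • ω = ω ∧ L'.length + 1 = L.length ∧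
      Mv (hds L) (hd p q :: hds L') := by
  intro N
  induction N using Nat.strong_induction_on with
  | _ N ih =>
    intro X hX hω L hgen hL
    obtain ⟨x, y, L', hy, hL', h1⟩ := extract_fix hω L hgen hL
    obtain ⟨p, q, L2, hp, hq, hL2, h2⟩ := greedy hω
      (fun Y hY hωY L hgen hL => ih Y.card (hX ▸ hY) Y rfl hωY L hgen hL) L'.length L' [] x y rfl hy
      (by rw [List.nil_append, ← h1.gen_eq]; exact hgen) (by simp; omega) (by simp [pts'])
    refine ⟨p, q, L2, hp, hq, ?_, ?_⟩
    · simp only [List.length_nil] at hL2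
      omega
    · rw [List.nil_append] at h2
      exact h1.trans h2

end Act

section Kill

variable {G : Type u} [Group G]

/-- Handles with entries in a subgroup `K` of finite index. -/
theorem get_many (K : Subgroup G) (hK : K.index ≠ 0) : ∀ (l : ℕ) (L : List (G × G)),
    K.index - 1 + l ≤ L.length → ∃ D L' : List (G × G), D.length = l ∧ (∀ p ∈ D, p.1 ∈ K ∧ p.2 ∈ K) ∧
      Mv (hds L) (hds (D ++ L'))
  | 0, L, _ => ⟨[], L, rfl, by simp, Mv.refl _⟩
  | l + 1, L, hL => by
    classical
    have : Finite (G ⧸ K) := (Subgroup.finiteIndex_iff_finite_quotient.1 ⟨hK⟩)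
    have : Fintype (G ⧸ K) := Fintype.ofFinite _
    have hcard : (Finset.univ : Finset (G ⧸ K)).card = K.index := by
      rw [Finset.card_univ, ← Nat.card_eq_fintype_card]
      rfl
    have hfix : ∀ p : G, p • (QuotientGroup.mk 1 : G ⧸ K) = QuotientGroup.mk 1 → p ∈ K := by
      intro p hp
      have h1 : (QuotientGroup.mk (p * 1) : G ⧸ K) = QuotientGroup.mk 1 := hp
      rw [mul_one, eq_comm, QuotientGroup.eq, inv_one, one_mul] at h1
      exact h1
    obtain ⟨p, q, L1, hp, hq, hL1, h1⟩ := fix_one (ω := (QuotientGroup.mk 1 : G ⧸ K)) _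
      (Finset.univ : Finset (G ⧸ K)) rfl (Finset.mem_univ _) L (fun _ _ _ _ => Finset.mem_univ _)
      (by rw [hcard]; omega)
    obtain ⟨D, L', hD, hDK, h2⟩ := get_many K hK l L1 (by omega)
    refine ⟨(p, q) :: D, L', by simp [hD], ?_, h1.trans (Mv.cons _ h2)⟩
    intro r hr
    rcases List.mem_cons.1 hr with rfl | hr
    · exact ⟨hfix _ hp, hfix _ hq⟩
    · exact hDK r hr

/-- **A subgroup `K` of index `I` costs `I - 1`.** -/
theorem kills_index (K : Subgroup G) (hK : K.index ≠ 0) {m : ℕ} (h : Kills K m) :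
    Kills G (K.index - 1 + m) := by
  apply kills_of_one
  intro L hL
  obtain ⟨D, L', hD, hDK, h1⟩ := get_many K hK (m + 1) L (by omega)
  obtain ⟨C', rfl⟩ := exists_pmap_subtype K hDK
  rw [pmap_length] at hD
  obtain ⟨L2, h2⟩ := h 1 C' (by omega)
  have h3 := Mv.mp (φ := K.subtype) h2
  rw [mp_hds, mp_hds, pmap_append, pmap_replicate] at h3
  have h4 := to_end (1 : G) L' []
  refine ⟨pmap K.subtype L2 ++ L', h1.trans ?_⟩
  have h5 := h3.app_right (hds L')
  rw [← hds_append, ← hds_append] at h5
  refine h5.trans ?_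
  have e1 : hds (pmap K.subtype L2 ++ List.replicate 1 ((1 : G), (1 : G)) ++ L') =
      hds (pmap K.subtype L2) ++ (hd 1 1 :: (hds L' ++ [])) := by
    simp [hds_append]
  have e2 : hds (pmap K.subtype L2 ++ L' ++ [((1 : G), (1 : G))]) =
      hds (pmap K.subtype L2) ++ (hds L' ++ hd 1 1 :: []) := by
    simp [hds_append]
  rw [e1, e2]
  exact h4.app_left _

end Kill

end Pool.Agent.HMv
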