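import Pool.Agent.Lib.MP_943dad_ag.SO.Abs1
import Pool.Agent.Lib.MP_943dad_ag.SO.Conc

/-!
# SO-Step1 (sharper form): the commuting handle `(ι r, ι s)` becomes `(1, ι s)`, the other items generate `H`
-/

namespace SO

open Pool.Agent.HMv Item

theorem step1 {V H : Type} [AddCommGroup V] [Group H] [DistribMulAction H V] [Finite H] [Finite V] (e : Emb V H)
    (hsimple : ∀ U : AddSubgroup V, (∀ g : H, ∀ u ∈ U, g • u ∈ U) → U = ⊥ ∨ U = ⊤)
    {d : ℕ} (y : Fin d → H) (hy : Subgroup.closure (Set.range y) = ⊤) (c n : ℕ) (hc : d + 1 ≤ c)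
    (x : L c n → H) (hx : Subgroup.closure (Set.range x) ⊔ Subgroup.closure (Set.range e.ι) = ⊤) (r s : V) (hs : s ≠ 0) :
    ∃ t : L c n → V, Subgroup.closure (Set.range (tup e x t)) = ⊤ ∧
      Mv (X x ++ [hd (e.ι r) (e.ι s)]) (X (tup e x t) ++ [hd 1 (e.ι s)]) := by
  classical
  obtain ⟨D, E, C, g, hmv, hsub, hsep, hgen⟩ := con e c n x
  let A : L c n → Pr (L c n → V) H := fun l => (affPerm e s (D l) (E l) (C l) (g l), fun t => e.ι (E l t) * g l)
  set P : Subgroup (Pr (L c n → V) H) := Subgroup.closure (Set.range A) with hP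
  have hA : ∀ l, A l ∈ P := fun l => Subgroup.subset_closure ⟨l, rfl⟩
  -- affine
  have haff : ∀ a ∈ P, ∃ Δ E C, IsAff e s a.1 a.2 Δ E C := by
    intro a ha
    induction ha using Subgroup.closure_induction with
    | mem a ha =>
      obtain ⟨l, rfl⟩ := ha
      exact ⟨D l, E l, C l, isAff_affPerm e s (D l) (E l) (C l) (g l)⟩
    | one => exact ⟨0, 0, 0, IsAff.one e s⟩
    | mul a b _ _ ha hb =>
      obtain ⟨Δ, E, C, h⟩ := ha
      obtain ⟨Δ', E', C', h'⟩ := hb
      exact ⟨_, _, _, h.mul h'⟩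
    | inv a _ ha =>
      obtain ⟨Δ, E, C, h⟩ := ha
      exact h.inv
  -- moves
  have hM : ∀ a ∈ P, ∀ t ρ, Mv (X (tup e x t) ++ [hd ρ (e.ι s)]) (X (tup e x (a.1 (t, ρ)).1) ++ [hd (a.1 (t, ρ)).2 (e.ι s)]) := by
    intro a ha
    induction ha using Subgroup.closure_induction with
    | mem a ha =>
      obtain ⟨l, rfl⟩ := ha
      intro t ρ
      exact hmv s l t ρ
    | one => intro t ρ; exact Mv.refl _
    | mul a b _ _ ha hb =>
      intro t ρ
      exact (hb t ρ).trans (ha (b.1 (t, ρ)).1 (b.1 (t, ρ)).2)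
    | inv a _ ha =>
      intro t ρ
      have h1 := ha (a.1⁻¹ (t, ρ)).1 (a.1⁻¹ (t, ρ)).2
      have h2 : a.1 ((a.1⁻¹ (t, ρ)).1, (a.1⁻¹ (t, ρ)).2) = (t, ρ) := by
        change a.1 (a.1⁻¹ (t, ρ)) = (t, ρ)
        exact Equiv.apply_symm_apply a.1 _
      rw [h2] at h1
      exact h1.symm
  -- values in the generated subgroup
  have hX : ∀ t, ∀ a ∈ P, a.2 t ∈ Subgroup.closure (Set.range (tup e x t)) := by
    intro t a ha
    induction ha using Subgroup.closure_induction with
    | mem a ha =>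
      obtain ⟨l, rfl⟩ := ha
      exact hsub l t
    | one => exact Subgroup.one_mem _
    | mul a b _ _ ha hb => exact Subgroup.mul_mem _ ha hb
    | inv a _ ha => exact Subgroup.inv_mem _ ha
  -- coordinates are second components
  have hco : ∀ i, ∃ a ∈ P, a.2 = fun t => tup e x t i := by
    intro i
    have h1 : Subgroup.closure (Set.range fun l (t : L c n → V) => e.ι (E l t) * g l) ≤
        P.map (MonoidHom.snd (Equiv.Perm ((L c n → V) × H)) ((L c n → V) → H)) := by
      rw [Subgroup.closure_le]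
      rintro _ ⟨l, rfl⟩
      exact ⟨A l, hA l, rfl⟩
    exact h1 (hsep i)
  have htup0 : tup e x 0 = x := by
    funext l
    simp [tup, e.zero]
  have hsepd : ∀ w : L c n → V, (∀ a ∈ P, a.2 w = a.2 0) → w = 0 := by
    intro w hw
    funext i
    obtain ⟨a, ha, hai⟩ := hco i
    have h1 := hw a ha
    rw [hai] at h1
    have h2 : e.ι (w i) * x i = e.ι 0 * x i := h1
    exact e.inj (mul_right_cancel h2)
  have hsurj : ∀ g : H, ∃ a ∈ P, ∃ v, a.2 0 = e.ι v * g := by
    let S : Subgroup H :=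
      { carrier := {h | ∃ a ∈ P, ∃ v, a.2 0 = e.ι v * h}
        one_mem' := ⟨1, P.one_mem, 0, by rw [e.zero]; simp⟩
        mul_mem' := by
          rintro h h' ⟨a, ha, v, hv⟩ ⟨a', ha', v', hv'⟩
          refine ⟨a * a', P.mul_mem ha ha', v + h • v', ?_⟩
          change a.2 0 * a'.2 0 = _
          rw [hv, hv', e.add, mul_assoc, ← mul_assoc h, e.mul]
          simp only [mul_assoc]
        inv_mem' := by
          rintro h ⟨a, ha, v, hv⟩
          refine ⟨a⁻¹, P.inv_mem ha, -(h⁻¹ • v), ?_⟩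
          change (a.2 0)⁻¹ = _
          rw [hv, mul_inv_rev, ← e.neg, e.mul, smul_neg] }
    have hS : S = ⊤ := by
      rw [eq_top_iff, ← hx, sup_le_iff, Subgroup.closure_le, Subgroup.closure_le]
      constructor
      · rintro _ ⟨i, rfl⟩
        obtain ⟨a, ha, hai⟩ := hco i
        refine ⟨a, ha, 0, ?_⟩
        rw [hai]
        rfl
      · rintro _ ⟨v, rfl⟩
        refine ⟨1, P.one_mem, -v, ?_⟩
        rw [e.neg, inv_mul_cancel]
        rfl
    intro g
    have h1 : g ∈ S := by rw [hS]; exact Subgroup.mem_top g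
    exact h1
  let Wh : AddSubgroup (L c n → V) :=
    { carrier := {w | ∀ j, w (Sum.inr j) = 0}
      zero_mem' := fun j => rfl
      add_mem' := fun {w w'} h h' j => by
        change w _ + w' _ = 0
        rw [h j, h' j, add_zero]
      neg_mem' := fun {w} h j => by
        change - w _ = 0
        rw [h j, neg_zero] }
  have hWh : Wh ≤ AddSubgroup.closure {w | ∃ a ∈ P, ∃ Δ E C, IsAff e s a.1 a.2 Δ E C ∧ ∃ v, w = Δ v} := by
    intro w hw
    refine AddSubgroup.closure_mono ?_ (hgen w hw)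
    rintro _ ⟨l, v, rfl⟩
    exact ⟨A l, hA l, D l, E l, C l, isAff_affPerm e s (D l) (E l) (C l) (g l), v, rfl⟩
  have hcard : Nat.card V ^ (2 * d + 2) ≤ Nat.card Wh := by
    have h1 : Nat.card (Fin c × Bool → V) ≤ Nat.card Wh := by
      refine Nat.card_le_card_of_injective (fun f => (⟨Sum.elim f 0, fun j => rfl⟩ : Wh)) ?_
      intro f f' hf
      funext i
      have := congrFun (congrArg Subtype.val hf) (Sum.inl i)
      exact this
    rw [Nat.card_fun] at h1
    refine le_trans (Nat.pow_le_pow_right Nat.card_pos ?_) h1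
    have h2 : Nat.card (Fin c × Bool) = c * 2 := by simp
    rw [h2]
    omega
  obtain ⟨a, ha, t, hat, hXt⟩ := abs1 e hsimple s hs P haff hsurj y hy hsepd Wh hWh hcard
    (fun t => Subgroup.closure (Set.range (tup e x t))) hX r
  refine ⟨t, hXt, ?_⟩
  have h1 := hM a ha 0 (e.ι r)
  rw [hat, htup0] at h1
  exact h1

end SO
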