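import Pool.Agent.Lib.MP_943dad_ag.SO.All
import Pool.Agent.Lib.MP_943dad_ag.SO.Step1
import Pool.Agent.Lib.MP_943dad_ag.SO.Cyc
import Pool.Agent.Lib.MP_943dad_ag.SO.Idx

/-!
# The costs `Cost` and `GCost` of a group

`kills_of_cost`, `killsGen_of_cost`: the number of handles which are kept. `gcost_nilpotent`, `gcost_soluble`, `cost_perm`,
`gcost_of_cost`: examples.
-/

namespace Pool.Agent.HMv

/-- `Cost G m`: the group `G` has a chain of subgroups of cost `m`, where a normal subgroup with cyclic quotient costs
`1` and a subgroup of finite index `q`, normal or not, costs `q - 1`. -/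
inductive Cost : (G : Type) → [Group G] → ℕ → Prop
  | trivial (G : Type) [Group G] : Subsingleton G → Cost G 0
  | cyclic (G : Type) [Group G] (N : Subgroup G) [N.Normal] (m : ℕ) :
      IsCyclic (G ⧸ N) → Cost N m → Cost G (1 + m)
  | index (G : Type) [Group G] (K : Subgroup G) (m : ℕ) :
      K.index ≠ 0 → Cost K m → Cost G (K.index - 1 + m)

/-- `GCost d G m`: a normal subgroup `N` of `G` changes the cost `m` of `G / N` into `max m d` if `N` is cyclic, into
`max m (d + 1)` if `N` is soluble, and into `m + m'` if `Cost N m'`. -/
inductive GCost (d : ℕ) : (G : Type) → [Group G] → ℕ → Prop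
  | trivial (G : Type) [Group G] : Subsingleton G → GCost d G 0
  | cyclic (G : Type) [Group G] (N : Subgroup G) [N.Normal] (m : ℕ) :
      IsCyclic N → GCost d (G ⧸ N) m → GCost d G (max m d)
  | soluble (G : Type) [Group G] (N : Subgroup G) [N.Normal] (m : ℕ) :
      Group.IsSolvable N → GCost d (G ⧸ N) m → GCost d G (max m (d + 1))
  | normal (G : Type) [Group G] (N : Subgroup G) [N.Normal] (m m' : ℕ) :
      Cost N m' → GCost d (G ⧸ N) m → GCost d G (m + m')

theorem kills_of_cost {G : Type} [Group G] {m : ℕ} (h : Cost G m) : Kills G m := by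
  induction h with
  | trivial G hG =>
    have := hG
    exact kills_of_subsingleton G
  | cyclic G N m hN _ ih =>
    have := hN
    exact kills_ext G N (kills_cyclic _) ih
  | index G K m hK _ ih => exact kills_index K hK ih

/-- Isomorphic groups have the same costs. -/
theorem Cost.congr {G : Type} [Group G] {m : ℕ} (h : Cost G m) : ∀ {G' : Type} [Group G'], (G ≃* G') → Cost G' m := by
  induction h with
  | trivial G hG =>
    intro G' _ e
    exact Cost.trivial G' e.symm.toEquiv.subsingleton
  | cyclic G N m hN _ ih =>
    intro G' _ e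
    haveI : (N.map e.toMonoidHom).Normal := Subgroup.Normal.map inferInstance _ e.surjective
    refine Cost.cyclic G' (N.map e.toMonoidHom) m ?_ (ih (e.subgroupMap N))
    have e2 : G ⧸ N ≃* G' ⧸ N.map e.toMonoidHom := QuotientGroup.congr N _ e rfl
    exact isCyclic_of_surjective e2.toMonoidHom e2.surjective
  | index G K m hK _ ih =>
    intro G' _ e
    have h1 : (K.map e.toMonoidHom).index = K.index := Subgroup.index_map_equiv K e
    have h2 := Cost.index G' (K.map e.toMonoidHom) m (by rw [h1]; exact hK) (ih (e.subgroupMap K))
    rwa [h1] at h2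

theorem gcost_of_cost (d : ℕ) {G : Type} [Group G] {m : ℕ} (h : Cost G m) : GCost d G m := by
  have h1 : Subsingleton (G ⧸ (⊤ : Subgroup G)) := QuotientGroup.subsingleton_quotient_top
  have h2 := GCost.normal (d := d) G ⊤ 0 m (h.congr Subgroup.topEquiv.symm) (GCost.trivial _ h1)
  rwa [zero_add] at h2

/-- The symmetric group of a finite set with `k` elements costs `k (k - 1) / 2`. -/
theorem cost_perm : ∀ (k : ℕ) (α : Type) [Fintype α] [DecidableEq α], Fintype.card α = k →
    Cost (Equiv.Perm α) (k * (k - 1) / 2) := by
  intro k
  induction k with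
  | zero =>
    intro α _ _ hα
    haveI : IsEmpty α := Fintype.card_eq_zero_iff.1 hα
    exact Cost.trivial _ inferInstance
  | succ k ih =>
    intro α _ _ hα
    obtain ⟨a⟩ : Nonempty α := Fintype.card_pos_iff.1 (by omega)
    have hi : (MulAction.stabilizer (Equiv.Perm α) a).index = k + 1 := by
      rw [MulAction.index_stabilizer_of_transitive, Nat.card_eq_fintype_card, hα]
    let f : Equiv.Perm {x // x ≠ a} →* MulAction.stabilizer (Equiv.Perm α) a :=
      { toFun := fun σ => ⟨Equiv.Perm.ofSubtype σ, by
          rw [MulAction.mem_stabilizer_iff, Equiv.Perm.smul_def]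
          exact Equiv.Perm.ofSubtype_apply_of_not_mem σ (by simp)⟩
        map_one' := by
          apply Subtype.ext
          exact map_one _
        map_mul' := by
          intro σ τ
          apply Subtype.ext
          exact map_mul _ σ τ }
    have hf : Function.Bijective f := by
      constructor
      · intro σ τ h
        exact Equiv.Perm.ofSubtype_injective (congrArg Subtype.val h)
      · rintro ⟨τ, hτ⟩
        rw [MulAction.mem_stabilizer_iff, Equiv.Perm.smul_def] at hτ
        have hτ' : ∀ x, τ x ≠ a ↔ x ≠ a := by
          intro x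
          rw [not_iff_not]
          constructor
          · intro h
            exact τ.injective (h.trans hτ.symm)
          · rintro rfl
            exact hτ
        refine ⟨τ.subtypePerm hτ', ?_⟩
        apply Subtype.ext
        refine Equiv.Perm.ofSubtype_subtypePerm hτ' ?_
        intro x hx h
        rw [h] at hx
        exact hx hτ
    have h1 := (ih {x // x ≠ a} (by rw [Fintype.card_subtype_compl, hα]; simp)).congr (MulEquiv.ofBijective f hf)
    have h2 := Cost.index (Equiv.Perm α) (MulAction.stabilizer (Equiv.Perm α) a) _ (by omega) h1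
    rw [hi] at h2
    have h3 : k + 1 - 1 + k * (k - 1) / 2 = (k + 1) * (k + 1 - 1) / 2 := by
      rw [Nat.add_sub_cancel]
      have h4 : (k + 1) * k = k * (k - 1) + k * 2 := by
        cases k with
        | zero => rfl
        | succ k =>
          rw [Nat.add_sub_cancel]
          ring
      rw [h4, Nat.add_mul_div_right _ _ (by norm_num)]
      ring
    rwa [h3] at h2

theorem killsGen_of_cost {d : ℕ} {G : Type} [Group G] {c : ℕ} (h : GCost d G c) :
    Finite G → GenBy G d → KillsGen G c := by
  induction h with
  | trivial G hG =>
    intro _ _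
    haveI := hG
    exact killsGen_subsingleton 0
  | cyclic G N m hN _ ih =>
    intro hG hd
    haveI := hG
    haveI := hN
    exact killsGen_cyclic (le_max_right _ _) N hd
      (killsGen_mono (ih inferInstance (hd.map (QuotientGroup.mk'_surjective N))) (le_max_left _ _))
  | soluble G N m hN _ ih =>
    intro hG hd
    haveI := hG
    refine killsGen_sol (fun c hc => ?_) N hN hd (ih inferInstance (hd.map (QuotientGroup.mk'_surjective N)))
    intro G' V' _ _ _ _ _ e hsimple y hy n x hx r v hv
    exact SO.step1 e hsimple y hy c n hc x hx r v hv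
  | normal G N m m' hN _ ih =>
    intro hG hd
    haveI := hG
    exact killsGen_ext N (ih inferInstance (hd.map (QuotientGroup.mk'_surjective N))) (kills_of_cost hN)

/-- For nilpotent groups `m = d` (or `m = 0` for the trivial group). -/
theorem gcost_nilpotent (d : ℕ) : ∀ (k : ℕ) (G : Type) [Group G] [Finite G], Group.IsNilpotent G → Nat.card G = k →
    ∃ m ≤ d, GCost d G m := by
  intro k
  induction k using Nat.strong_induction_on with
  | _ k ih =>
    intro G _ _ hG hk
    rcases subsingleton_or_nontrivial G with h1 | h1
    · exact ⟨0, Nat.zero_le d, GCost.trivial G h1⟩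
    · obtain ⟨z, hz, hz1⟩ : ∃ z ∈ Subgroup.center G, z ≠ 1 := by
        have h2 := Group.IsNilpotent.center_ne_bot (G := G)
        by_contra hcon
        push Not at hcon
        exact h2 ((Subgroup.eq_bot_iff_forall _).2 hcon)
      have hle : Subgroup.zpowers z ≤ Subgroup.center G := by
        rw [Subgroup.zpowers_le]
        exact hz
      have hN : (Subgroup.zpowers z).Normal := by
        constructor
        intro x hx g
        have h2 := Subgroup.mem_center_iff.1 (hle hx) g
        rw [h2, mul_inv_cancel_right]
        exact hx
      have hlt : Nat.card (G ⧸ Subgroup.zpowers z) < k := by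
        have h2 := Subgroup.card_eq_card_quotient_mul_card_subgroup (Subgroup.zpowers z)
        have h3 : 1 < Nat.card (Subgroup.zpowers z) := by
          have : Nontrivial (Subgroup.zpowers z) :=
            ⟨⟨⟨z, Subgroup.mem_zpowers z⟩, 1, fun h => hz1 (congrArg Subtype.val h)⟩⟩
          exact Finite.one_lt_card
        have h4 : 0 < Nat.card (G ⧸ Subgroup.zpowers z) := Nat.card_pos
        rw [← hk, h2]
        exact lt_mul_of_one_lt_right h4 h3
      obtain ⟨m, hm, h2⟩ := ih _ hlt (G ⧸ Subgroup.zpowers z) inferInstance rfl
      exact ⟨max m d, max_le hm le_rfl, GCost.cyclic G (Subgroup.zpowers z) m inferInstance h2⟩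

/-- For soluble groups `m = d + 1`. -/
theorem gcost_soluble (d : ℕ) (G : Type) [Group G] (hG : Group.IsSolvable G) : GCost d G (d + 1) := by
  have h1 : Subsingleton (G ⧸ (⊤ : Subgroup G)) := QuotientGroup.subsingleton_quotient_top
  have h2 := GCost.soluble (d := d) G ⊤ 0 inferInstance (GCost.trivial _ h1)
  rwa [Nat.zero_max] at h2

end Pool.Agent.HMv
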