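import Pool.Agent.Lib.MP_943dad_ag.BM.Irr
import Pool.Agent.Lib.MP_943dad_ag.SO.GC

set_option linter.all false

/-!
# Examples for the hypothesis of the theorem

`irrK_center`: the group which acts faithfully by an irreducible representation has a cyclic centre. `adm_abelian`,
`adm_abelian_pair`: commutative groups.
-/

namespace Pool.Agent.BM

open Pool.Agent.HMv

/-- If `N` is the kernel of an irreducible representation, then the centre of `H / N` is cyclic. -/
theorem irrK_center {H : Type} [Group H] [Finite H] {N : Subgroup H} [N.Normal] (h : IrrK N) :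
    IsCyclic (Subgroup.center (H ⧸ N)) := by
  classical
  haveI : Fintype H := Fintype.ofFinite H
  obtain ⟨W, i1, i2, ρ, hnt, hirr, hker⟩ := h
  obtain ⟨w0, hw0⟩ := exists_ne (0 : W)
  have hmul : ∀ (x y : H) (v : W), ρ (x * y) v = ρ x (ρ y v) := fun x y v => by
    rw [map_mul, Module.End.mul_apply]
  have hone : ∀ v : W, ρ 1 v = v := fun v => by rw [map_one, Module.End.one_apply]
  have hfin : FiniteDimensional ℂ W := by
    have h1 : Submodule.span ℂ (Set.range fun x : H => ρ x w0) = ⊤ := by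
      refine (hirr _ ?_).resolve_left ?_
      · intro x v hv
        induction hv using Submodule.span_induction with
        | mem v hv =>
          obtain ⟨y, rfl⟩ := hv
          exact Submodule.subset_span ⟨x * y, hmul x y w0⟩
        | zero => rw [map_zero]; exact Submodule.zero_mem _
        | add u v _ _ hu hv => rw [map_add]; exact Submodule.add_mem _ hu hv
        | smul t v _ hv => rw [map_smul]; exact Submodule.smul_mem _ t hv
      · intro h2
        have h3 : w0 ∈ Submodule.span ℂ (Set.range fun x : H => ρ x w0) := Submodule.subset_span ⟨1, hone w0⟩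
        rw [h2, Submodule.mem_bot] at h3
        exact hw0 h3
    exact Module.finite_def.2 (h1 ▸ Submodule.fg_span (Set.finite_range _))
  have key : ∀ x : Subgroup.center (H ⧸ N), ∃ μ : ℂ, ∀ z : H, (z : H ⧸ N) = x.1 → ∀ w, ρ z w = μ • w := by
    rintro ⟨x, hx⟩
    obtain ⟨z0, rfl⟩ := QuotientGroup.mk_surjective x
    have hc : ∀ (h : H) (w : W), ρ z0 (ρ h w) = ρ h (ρ z0 w) := by
      intro h w
      have h1 := (Subgroup.mem_center_iff.1 hx (h : H ⧸ N))
      have h2 : ((h * z0 : H) : H ⧸ N) = ((z0 * h : H) : H ⧸ N) := h1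
      have h3 := QuotientGroup.eq.1 h2
      have h4 := LinearMap.congr_fun ((hker _).1 h3) w
      rw [Module.End.one_apply] at h4
      rw [← hmul, ← hmul]
      calc ρ (z0 * h) w = ρ (h * z0) (ρ ((h * z0)⁻¹ * (z0 * h)) w) := by
            rw [← hmul]; congr 2; group
        _ = ρ (h * z0) w := by rw [h4]
    obtain ⟨μ, hμ⟩ := Module.End.exists_eigenvalue (ρ z0)
    obtain ⟨v, hv1⟩ := hμ.exists_hasEigenvector
    have hv2 : ρ z0 v = μ • v := hv1.apply_eq_smul
    have h5 : LinearMap.ker (ρ z0 - μ • (1 : Module.End ℂ W)) = ⊤ := by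
      refine (hirr _ ?_).resolve_left ?_
      · intro h u hu
        rw [LinearMap.mem_ker, LinearMap.sub_apply, LinearMap.smul_apply, Module.End.one_apply,
          sub_eq_zero] at hu ⊢
        rw [hc h u, hu, map_smul]
      · intro h6
        have h7 : v ∈ LinearMap.ker (ρ z0 - μ • (1 : Module.End ℂ W)) := by
          rw [LinearMap.mem_ker, LinearMap.sub_apply, LinearMap.smul_apply, Module.End.one_apply, hv2, sub_self]
        rw [h6, Submodule.mem_bot] at h7
        exact hv1.2 h7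
    refine ⟨μ, fun z hz w => ?_⟩
    have h6 : z0⁻¹ * z ∈ N := QuotientGroup.eq.1 hz.symm
    have h7 : w ∈ LinearMap.ker (ρ z0 - μ • (1 : Module.End ℂ W)) := by rw [h5]; trivial
    rw [LinearMap.mem_ker, LinearMap.sub_apply, LinearMap.smul_apply, Module.End.one_apply, sub_eq_zero] at h7
    have h8 := LinearMap.congr_fun ((hker _).1 h6) w
    rw [Module.End.one_apply] at h8
    calc ρ z w = ρ z0 (ρ (z0⁻¹ * z) w) := by rw [← hmul, mul_inv_cancel_left]
      _ = μ • w := by rw [h8, h7]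
  choose μ hμ using key
  have canc : ∀ a b : ℂ, a • w0 = b • w0 → a = b := fun a b h => smul_left_injective ℂ hw0 h
  let χ : Subgroup.center (H ⧸ N) →* ℂ :=
    { toFun := μ
      map_one' := by
        refine canc _ _ ?_
        rw [← hμ 1 1 rfl w0, hone, one_smul]
      map_mul' := fun x y => by
        obtain ⟨z, hz⟩ := QuotientGroup.mk_surjective x.1
        obtain ⟨z', hz'⟩ := QuotientGroup.mk_surjective y.1
        refine canc _ _ ?_
        have h1 : ((z * z' : H) : H ⧸ N) = (x * y).1 := by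
          rw [QuotientGroup.mk_mul, hz, hz']
          rfl
        rw [← hμ (x * y) (z * z') h1 w0, hmul, hμ y z' hz' w0, map_smul, hμ x z hz w0, smul_smul,
          mul_comm] }
  refine isCyclic_of_subgroup_isDomain χ ((injective_iff_map_eq_one χ).2 fun x hx => ?_)
  obtain ⟨z, hz⟩ := QuotientGroup.mk_surjective x.1
  have h1 : z ∈ N := (hker z).2 (LinearMap.ext fun w => by
    rw [hμ x z hz w, Module.End.one_apply]
    change χ x • w = w
    rw [hx, one_smul])
  refine Subtype.ext ?_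
  rw [← hz]
  exact (QuotientGroup.eq_one_iff z).2 h1

theorem irrK_comm {H : Type} [Group H] [Finite H] (hH : ∀ x y : H, x * y = y * x) {N : Subgroup H} [N.Normal]
    (h : IrrK N) : IsCyclic (H ⧸ N) := by
  haveI := irrK_center h
  have h1 : (Subgroup.center (H ⧸ N)) = ⊤ := by
    rw [eq_top_iff]
    intro x _
    rw [Subgroup.mem_center_iff]
    intro y
    obtain ⟨x, rfl⟩ := QuotientGroup.mk_surjective x
    obtain ⟨y, rfl⟩ := QuotientGroup.mk_surjective y
    rw [← QuotientGroup.mk_mul, ← QuotientGroup.mk_mul, hH]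
  have h2 : Function.Surjective (Subgroup.center (H ⧸ N)).subtype := by
    intro x
    exact ⟨⟨x, by rw [h1]; trivial⟩, rfl⟩
  exact isCyclic_of_surjective _ h2

/-- A commutative group: one irreducible representation. -/
theorem adm_abelian {H : Type} [Group H] [Finite H] (hH : ∀ x y : H, x * y = y * x) {N : Subgroup H} [N.Normal]
    (h : IrrK N) : Adm 3 (H ⧸ N) := by
  haveI := irrK_comm hH h
  obtain ⟨z, hz⟩ := IsCyclic.exists_generator (α := H ⧸ N)
  refine ⟨1, 1, fun _ => z, ?_, ?_, by norm_num⟩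
  · rw [eq_top_iff]
    intro x _
    have h1 := hz x
    rw [Subgroup.mem_zpowers_iff] at h1
    obtain ⟨k, rfl⟩ := h1
    exact zpow_mem (Subgroup.subset_closure (Set.mem_range_self (0 : Fin 1))) k
  · have h1 : Subsingleton ((H ⧸ N) ⧸ (⊤ : Subgroup (H ⧸ N))) := QuotientGroup.subsingleton_quotient_top
    have h2 : IsCyclic (⊤ : Subgroup (H ⧸ N)) := isCyclic_of_surjective Subgroup.topEquiv.symm.toMonoidHom
      Subgroup.topEquiv.symm.surjective
    have h3 := GCost.cyclic (d := 1) (H ⧸ N) ⊤ 0 h2 (GCost.trivial _ h1)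
    rwa [Nat.zero_max] at h3

/-- A commutative group: two irreducible representations. -/
theorem adm_abelian_pair {H : Type} [Group H] [Finite H] (hH : ∀ x y : H, x * y = y * x) {N₁ N₂ : Subgroup H}
    [N₁.Normal] [N₂.Normal] (h1 : IrrK N₁) (h2 : IrrK N₂) : Adm 3 (H ⧸ (N₁ ⊓ N₂)) := by
  haveI := irrK_comm hH h1
  haveI := irrK_comm hH h2
  -- the image of `N₁` is cyclic
  let K : Subgroup (H ⧸ (N₁ ⊓ N₂)) := N₁.map (QuotientGroup.mk' (N₁ ⊓ N₂))
  haveI hK : K.Normal := Subgroup.Normal.map inferInstance _ (QuotientGroup.mk'_surjective _)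
  let f : H ⧸ (N₁ ⊓ N₂) →* H ⧸ N₂ := QuotientGroup.map (N₁ ⊓ N₂) N₂ (MonoidHom.id H) (fun x hx => hx.2)
  let f1 : H ⧸ (N₁ ⊓ N₂) →* H ⧸ N₁ := QuotientGroup.map (N₁ ⊓ N₂) N₁ (MonoidHom.id H) (fun x hx => hx.1)
  have hf1 : ∀ x : H ⧸ (N₁ ⊓ N₂), f1 x = 1 ↔ x ∈ K := by
    intro x
    obtain ⟨x, rfl⟩ := QuotientGroup.mk_surjective x
    change ((x : H) : H ⧸ N₁) = 1 ↔ _
    rw [QuotientGroup.eq_one_iff]
    constructor
    · intro hx
      exact ⟨x, hx, rfl⟩
    · rintro ⟨y, hy, hyx⟩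
      have h3 : y⁻¹ * x ∈ N₁ ⊓ N₂ := QuotientGroup.eq.1 hyx
      have h4 : x = y * (y⁻¹ * x) := by group
      rw [h4]
      exact mul_mem hy h3.1
  have hfK : ∀ x ∈ K, f x = 1 → x = 1 := by
    rintro _ ⟨y, hy, rfl⟩ hx
    have h3 : ((y : H) : H ⧸ N₂) = 1 := hx
    rw [QuotientGroup.eq_one_iff] at h3
    exact (QuotientGroup.eq_one_iff _).2 ⟨hy, h3⟩
  have hKc : IsCyclic K := by
    refine isCyclic_of_injective (f.comp K.subtype) ?_
    rw [injective_iff_map_eq_one]
    intro x hx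
    exact Subtype.ext (hfK x.1 x.2 hx)
  have hQc : IsCyclic ((H ⧸ (N₁ ⊓ N₂)) ⧸ K) := by
    let q : (H ⧸ (N₁ ⊓ N₂)) ⧸ K →* H ⧸ N₁ := QuotientGroup.lift K f1 (fun x hx => (hf1 x).2 hx)
    refine isCyclic_of_injective q ?_
    rw [injective_iff_map_eq_one]
    intro x hx
    obtain ⟨x, rfl⟩ := QuotientGroup.mk_surjective x
    exact (QuotientGroup.eq_one_iff _).2 ((hf1 x).1 hx)
  obtain ⟨⟨z, hzK⟩, hz⟩ := IsCyclic.exists_generator (α := K)
  obtain ⟨y', hy⟩ := IsCyclic.exists_generator (α := (H ⧸ (N₁ ⊓ N₂)) ⧸ K)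
  obtain ⟨y, rfl⟩ := QuotientGroup.mk_surjective y'
  refine ⟨2, 2, ![z, y], ?_, ?_, by norm_num⟩
  · rw [eq_top_iff]
    intro x _
    obtain ⟨k, hk⟩ := Subgroup.mem_zpowers_iff.1 (hy (x : (H ⧸ (N₁ ⊓ N₂)) ⧸ K))
    have h3 : (y ^ k)⁻¹ * x ∈ K := by
      rw [← QuotientGroup.mk_zpow] at hk
      exact QuotientGroup.eq.1 hk
    obtain ⟨l, hl⟩ := Subgroup.mem_zpowers_iff.1 (hz ⟨_, h3⟩)
    have h4 : z ^ l = (y ^ k)⁻¹ * x := congrArg Subtype.val hl
    have h5 : x = y ^ k * z ^ l := by rw [h4]; group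
    rw [h5]
    have h6 : y ∈ Subgroup.closure (Set.range ![z, (y : H ⧸ (N₁ ⊓ N₂))]) := Subgroup.subset_closure ⟨1, rfl⟩
    have h7 : z ∈ Subgroup.closure (Set.range ![z, (y : H ⧸ (N₁ ⊓ N₂))]) := Subgroup.subset_closure ⟨0, rfl⟩
    exact mul_mem (zpow_mem h6 k) (zpow_mem h7 l)
  · have h1 : Subsingleton (((H ⧸ (N₁ ⊓ N₂)) ⧸ K) ⧸ (⊤ : Subgroup ((H ⧸ (N₁ ⊓ N₂)) ⧸ K))) :=
      QuotientGroup.subsingleton_quotient_top
    have h2 : IsCyclic (⊤ : Subgroup ((H ⧸ (N₁ ⊓ N₂)) ⧸ K)) := isCyclic_of_surjective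
      Subgroup.topEquiv.symm.toMonoidHom Subgroup.topEquiv.symm.surjective
    have h3 := GCost.cyclic (d := 2) ((H ⧸ (N₁ ⊓ N₂)) ⧸ K) ⊤ 0 h2 (GCost.trivial _ h1)
    rw [Nat.zero_max] at h3
    have h4 := GCost.cyclic (d := 2) (H ⧸ (N₁ ⊓ N₂)) K 2 hKc h3
    rwa [max_self] at h4

end Pool.Agent.BM
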