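import Pool.Agent.Lib.MP_943dad_ag.SO.Slide

/-!
The induction: if one handle with entries in a minimal normal abelian subgroup can be killed, then in
a finite soluble group all handles but the first ones can be killed.
-/

namespace Pool.Agent.HMv

universe u v

open scoped commutatorElement

open Item

section Frame

/-- Among `c + k` handles which together with punctures generate `G`, the last `k` can be killed. -/
def KillsGen (G : Type u) [Group G] (c : ℕ) : Prop :=
  ∀ (k : ℕ) (L : List (G × G)) (P : List G), gen (hds L ++ pts P) = ⊤ → L.length = c + k →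
    ∃ (L1 : List (G × G)) (P1 : List G),
      Mv (hds L ++ pts P) (hds (L1 ++ List.replicate k (1, 1)) ++ pts P1)

/-- One handle with entries in `V` at the end can be killed. -/
def StepS (G : Type u) [Group G] (V : Subgroup G) (c : ℕ) : Prop :=
  ∀ (X : List (G × G)) (P : List G) (r s : G), r ∈ V → s ∈ V → X.length = c →
    gen ((hds X ++ pts P) ++ [hd r s]) = ⊤ →
    ∃ (X' : List (G × G)) (P' : List G), X'.length = c ∧
      Mv ((hds X ++ pts P) ++ [hd r s]) ((hds X' ++ pts P') ++ [hd 1 1])

variable {G : Type u} {H : Type v} [Group G] [Group H]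

theorem gen_mp_top {φ : G →* H} (hφ : Function.Surjective φ) {L : List (Item G)} (hL : gen L = ⊤) :
    gen (mp φ L) = ⊤ := by
  have h1 : gen L ≤ (gen (mp φ L)).comap φ := by
    apply gen_le
    intro p hp z hz
    have hp' : p.mp φ ∈ mp φ L := List.mem_map_of_mem hp
    rw [Subgroup.mem_comap]
    apply ent_mem_gen hp'
    cases p with
    | hd x y =>
      rcases hz with rfl | hz
      · exact Or.inl rfl
      · have : z = y := hz
        rw [this]
        exact Or.inr rfl
    | pt c =>
      have : z = c := hz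
      rw [this]
      exact rfl
  rw [hL, top_le_iff] at h1
  rw [eq_top_iff]
  intro y _
  obtain ⟨x, rfl⟩ := hφ y
  have : x ∈ (gen (mp φ L)).comap φ := by
    rw [h1]
    trivial
  exact this

theorem gen_append_ones (L : List (Item G)) (k : ℕ) (h : gen (L ++ hds (List.replicate k (1, 1))) = ⊤) :
    gen L = ⊤ := by
  rw [eq_top_iff, ← h]
  apply gen_le
  intro p hp z hz
  rcases List.mem_append.1 hp with hp | hp
  · exact ent_mem_gen hp hz
  · unfold hds at hp
    rw [List.mem_map] at hp
    obtain ⟨q, hq, rfl⟩ := hp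
    have hq' := List.eq_of_mem_replicate hq
    subst hq'
    have : z = 1 := by
      rcases hz with h | h
      · exact h
      · exact h
    rw [this]
    exact (gen L).one_mem

theorem ones_commute (k : ℕ) : ∀ p ∈ List.replicate k ((1 : G), (1 : G)), Commute p.1 p.2 := by
  intro p hp
  rw [List.eq_of_mem_replicate hp]

/-- The splitting of the handles given by a quotient. -/
theorem split_surj {Q : Type v} [Group Q] {q : G →* Q} (hq : Function.Surjective q) {c : ℕ}
    (hQ : KillsGen Q c) (k : ℕ)
    (L : List (G × G)) (P : List G) (hg : gen (hds L ++ pts P) = ⊤) (hL : L.length = c + k) :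
    ∃ (A D : List (G × G)) (P' : List G), A.length = c ∧ D.length = k ∧
      (∀ p ∈ D, q p.1 = 1 ∧ q p.2 = 1) ∧ Mv (hds L ++ pts P) (hds A ++ (hds D ++ pts P')) := by
  have h1 := gen_mp_top hq hg
  rw [mp_append, mp_hds, mp_pts] at h1
  obtain ⟨L1, P1, m⟩ := hQ k _ _ h1 (by rw [pmap_length, hL])
  rw [← mp_hds, ← mp_pts, ← mp_append] at m
  obtain ⟨B, mB, eB⟩ := Mv.lift q m
  obtain ⟨B1, B2, rfl, e1, e2⟩ := mp_eq_append eB
  obtain ⟨L2, rfl, hL2⟩ := mp_eq_hds e1
  obtain ⟨P2, rfl, hP2⟩ := mp_eq_pts e2
  obtain ⟨A, D, rfl, hD, hDN⟩ := pmap_eq_replicate_split hL2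
  have hcl : (hds (A ++ D) ++ pts P2).length = (hds L ++ pts P).length := mB.length_eq.symm
  have hpt : P2.length = P.length := by
    have := congrArg List.length mB.cls_eq
    rw [cls_hds_pts, cls_hds_pts, List.length_map, List.length_map] at this
    exact this.symm
  rw [List.length_append, List.length_append, hds_length, pts_length, hds_length, pts_length,
    List.length_append] at hcl
  refine ⟨A, D, P2, by omega, hD, hDN, ?_⟩
  rw [hds_append, List.append_assoc] at mB
  exact mB

/-- The splitting of the handles given by the quotient. -/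
theorem split_quot {V : Subgroup G} [V.Normal] {c : ℕ} (hQ : KillsGen (G ⧸ V) c) (k : ℕ)
    (L : List (G × G)) (P : List G) (hg : gen (hds L ++ pts P) = ⊤) (hL : L.length = c + k) :
    ∃ (A D : List (G × G)) (P' : List G), A.length = c ∧ D.length = k ∧
      (∀ p ∈ D, p.1 ∈ V ∧ p.2 ∈ V) ∧ Mv (hds L ++ pts P) (hds A ++ (hds D ++ pts P')) := by
  obtain ⟨A, D, P', hA, hD, hDN, m⟩ := split_surj (QuotientGroup.mk'_surjective V) hQ k L P hg hL
  refine ⟨A, D, P', hA, hD, fun p hp => ?_, m⟩
  have := hDN p hp
  simpa using this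

/-- The property passes through injective surjections. -/
theorem killsGen_of_inj {Q : Type v} [Group Q] {q : G →* Q} (hq : Function.Surjective q)
    (hi : Function.Injective q) {c : ℕ} (hQ : KillsGen Q c) : KillsGen G c := by
  intro k L P hg hL
  obtain ⟨A, D, P', hA, hD, hDN, m⟩ := split_surj hq hQ k L P hg hL
  refine ⟨A, P', ?_⟩
  have e : D = List.replicate k (1, 1) := by
    rw [List.eq_replicate_iff]
    refine ⟨hD, fun p hp => ?_⟩
    have := hDN p hp
    exact Prod.ext (hi (this.1.trans (map_one q).symm)) (hi (this.2.trans (map_one q).symm))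
  rw [hds_append, List.append_assoc, ← e]
  exact m

theorem killsGen_step {V : Subgroup G} [V.Normal] (hV : Comm V) (hc : Chain V) {c : ℕ}
    (hQ : KillsGen (G ⧸ V) c) (hS : StepS G V c) : KillsGen G c := by
  intro k L P hg hL
  obtain ⟨A, D, P', hA, hD, hDN, m1⟩ := split_quot hQ k L P hg hL
  cases k with
  | zero =>
    exact ⟨L, P, by simpa using Mv.refl _⟩
  | succ k =>
    have hDc : ∀ p ∈ D, Commute p.1 p.2 := fun p hp => hV _ (hDN p hp).1 _ (hDN p hp).2
    -- the handles in `V` to the front
    have m2 : Mv (hds L ++ pts P) (hds D ++ (hds A ++ pts P')) :=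
      m1.trans (flat_list D hDc (hds A) (pts P')).symm
    have hg2 : gen (hds D ++ (hds A ++ pts P')) = ⊤ := by
      rw [← hg]
      exact m2.gen_eq.symm
    obtain ⟨d, hd1, hd2, m3⟩ := chain_step hV hc k D hD hDN (hds A ++ pts P') hg2
    -- the trivial handles and `d` to the end
    have m4 := Mv.cons (hd d.1 d.2) (flat_list (List.replicate k ((1 : G), (1 : G))) (ones_commute k)
      (hds A ++ pts P') [])
    have m5 := flat_right (show Commute d.1 d.2 from hV _ hd1 _ hd2) (hds A ++ pts P')
      (hds (List.replicate k ((1 : G), (1 : G))))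
    have m6 : Mv (hds L ++ pts P) (((hds A ++ pts P') ++ [hd d.1 d.2]) ++
        hds (List.replicate k ((1 : G), (1 : G)))) := by
      have e1 : hds (List.replicate k ((1 : G), (1 : G))) ++ (hds A ++ pts P') =
        hds (List.replicate k ((1 : G), (1 : G))) ++ ((hds A ++ pts P') ++ []) := by
        rw [List.append_nil]
      rw [e1] at m3
      rw [List.append_nil (hds (List.replicate k ((1 : G), (1 : G))))] at m4
      rw [List.append_assoc _ [hd d.1 d.2], List.singleton_append]
      exact m2.trans (m3.trans (m4.trans m5))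
    have hg6 : gen ((hds A ++ pts P') ++ [hd d.1 d.2]) = ⊤ := by
      apply gen_append_ones _ k
      rw [← hg]
      exact m6.gen_eq.symm
    obtain ⟨X', P'', hX', m7⟩ := hS A P' d.1 d.2 hd1 hd2 hA hg6
    have m8 := m6.trans (m7.app_right (hds (List.replicate k ((1 : G), (1 : G)))))
    -- the trivial handles back
    have m9 := (flat_list (List.replicate (k + 1) ((1 : G), (1 : G))) (ones_commute (k + 1))
      (pts P'') []).symm
    have m10 := m9.app_left (hds X')
    have e2 : hds X' ++ (pts P'' ++ (hds (List.replicate (k + 1) ((1 : G), (1 : G))) ++ [])) =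
        ((hds X' ++ pts P'') ++ [hd 1 1]) ++ hds (List.replicate k ((1 : G), (1 : G))) := by
      rw [List.append_nil, List.replicate_succ, hds_cons, List.append_assoc, List.append_assoc]
      rfl
    have e3 : hds X' ++ (hds (List.replicate (k + 1) ((1 : G), (1 : G))) ++ (pts P'' ++ [])) =
        hds (X' ++ List.replicate (k + 1) ((1 : G), (1 : G))) ++ pts P'' := by
      rw [List.append_nil, hds_append, List.append_assoc]
    rw [e2, e3] at m10
    exact ⟨X', P'', m8.trans m10⟩

/-- A minimal normal subgroup inside an abelian normal subgroup. -/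
theorem exists_min_normal [Finite G] (A : Subgroup G) [A.Normal] (hA : A ≠ ⊥) :
    ∃ V : Subgroup G, V.Normal ∧ V ≤ A ∧ V ≠ ⊥ ∧ ∀ a ∈ V, a ≠ 1 → V ≤ Subgroup.normalClosure {a} := by
  obtain ⟨V, hV⟩ := Set.Finite.exists_minimal (s := {U : Subgroup G | U.Normal ∧ U ≤ A ∧ U ≠ ⊥})
    (Set.toFinite _) ⟨A, inferInstance, le_rfl, hA⟩
  refine ⟨V, hV.1.1, hV.1.2.1, hV.1.2.2, fun a ha hne => ?_⟩
  have := hV.1.1
  have h1 : Subgroup.normalClosure {a} ≤ V := by
    apply Subgroup.normalClosure_le_normal
    rw [Set.singleton_subset_iff]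
    exact ha
  refine hV.2 ⟨Subgroup.normalClosure_normal, h1.trans hV.1.2.1, ?_⟩ h1
  intro h
  apply hne
  have h2 : a ∈ Subgroup.normalClosure ({a} : Set G) :=
    Subgroup.subset_normalClosure (Set.mem_singleton a)
  rw [h, Subgroup.mem_bot] at h2
  exact h2

/-- A nontrivial soluble normal subgroup contains a nontrivial commutative normal subgroup. -/
theorem exists_comm_normal (S : Subgroup G) [S.Normal] [Group.IsSolvable S] (hS : S ≠ ⊥) :
    ∃ A : Subgroup G, A.Normal ∧ A ≤ S ∧ A ≠ ⊥ ∧ Comm A := by
  obtain ⟨n, hn⟩ := (Group.isSolvable_def S).1 inferInstance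
  classical
  have hex : ∃ n, derivedSeries S n = ⊥ := ⟨n, hn⟩
  set m := Nat.find hex with hm
  have hm1 : derivedSeries S m = ⊥ := Nat.find_spec hex
  have hm0 : m ≠ 0 := by
    intro h
    rw [h, derivedSeries_zero] at hm1
    apply hS
    rw [eq_bot_iff]
    intro x hx
    have h2 : (⟨x, hx⟩ : S) ∈ (⊤ : Subgroup S) := Subgroup.mem_top _
    rw [hm1, Subgroup.mem_bot] at h2
    have h3 := congrArg Subtype.val h2
    rw [Subgroup.mem_bot]
    exact h3
  obtain ⟨j, hj⟩ := Nat.exists_eq_succ_of_ne_zero hm0
  have hj1 : derivedSeries S j ≠ ⊥ := Nat.find_min hex (by rw [← hm, hj]; exact Nat.lt_succ_self j)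
  refine ⟨(derivedSeries S j).map S.subtype, ConjAct.normal_of_characteristic_of_normal, ?_, ?_, ?_⟩
  · rintro _ ⟨x, _, rfl⟩
    exact x.2
  · intro h
    apply hj1
    rw [Subgroup.map_eq_bot_iff_of_injective _ S.subtype_injective] at h
    exact h
  · rintro _ ⟨a, ha, rfl⟩ _ ⟨b, hb, rfl⟩
    rw [hj, derivedSeries_succ] at hm1
    have h1 : ⁅a, b⁆ ∈ ⁅derivedSeries S j, derivedSeries S j⁆ := Subgroup.commutator_mem_commutator ha hb
    rw [hm1, Subgroup.mem_bot, commutatorElement_eq_one_iff_mul_comm] at h1
    rw [← map_mul, ← map_mul, h1]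

/-- `G` is generated by `d` elements. -/
def GenBy (G : Type u) [Group G] (d : ℕ) : Prop :=
  ∃ s : Fin d → G, Subgroup.closure (Set.range s) = ⊤

theorem GenBy.map {d : ℕ} (h : GenBy G d) {φ : G →* H} (hφ : Function.Surjective φ) : GenBy H d := by
  obtain ⟨s, hs⟩ := h
  refine ⟨φ ∘ s, ?_⟩
  rw [Set.range_comp, ← MonoidHom.map_closure, hs, ← MonoidHom.range_eq_map, MonoidHom.range_eq_top]
  exact hφ

theorem killsGen_subsingleton [Subsingleton G] (c : ℕ) : KillsGen G c := by
  intro k L P _ hL
  refine ⟨List.replicate c (1, 1), P, ?_⟩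
  have : L = List.replicate c (1, 1) ++ List.replicate k (1, 1) := by
    rw [List.replicate_append_replicate, List.eq_replicate_iff]
    exact ⟨hL, fun p _ => Subsingleton.elim _ _⟩
  rw [this]
  exact Mv.refl _

/-- **Soluble kernels.** -/
theorem killsGen_of_step (d c : ℕ)
    (hstep : ∀ (G : Type) [Group G] [Finite G] (V : Subgroup G) [V.Normal], Comm V →
      (∀ a ∈ V, a ≠ 1 → V ≤ Subgroup.normalClosure {a}) → V ≠ ⊥ → GenBy G d → StepS G V c)
    (Q : Type) [Group Q] (hQ : KillsGen Q c) :
    ∀ (m : ℕ) (G : Type) [Group G] [Finite G] (q : G →* Q), Function.Surjective q →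
      Group.IsSolvable q.ker → Nat.card q.ker = m → GenBy G d → KillsGen G c := by
  intro m
  induction m using Nat.strong_induction_on with
  | _ m ih =>
    intro G _ _ q hq hsol hm hG
    by_cases hS : q.ker = ⊥
    · exact killsGen_of_inj hq ((MonoidHom.ker_eq_bot_iff q).1 hS) hQ
    · have := hsol
      obtain ⟨A, hA, hAS, hA1, hA2⟩ := exists_comm_normal q.ker hS
      have := hA
      obtain ⟨V, hV, hVA, hV1, hV2⟩ := exists_min_normal A hA1
      have := hV
      have hVc : Comm V := fun a ha b hb => hA2 a (hVA ha) b (hVA hb)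
      have hch : Chain V := by
        intro a ha b hb
        by_cases h1 : b = 1
        · right
          rw [h1]
          exact Subgroup.one_mem _
        · left
          exact hV2 b hb h1 ha
      have hVS : V ≤ q.ker := hVA.trans hAS
      -- the induced homomorphism
      set q' : G ⧸ V →* Q := QuotientGroup.lift V q hVS with hq'
      have hq's : Function.Surjective q' := by
        intro y
        obtain ⟨x, rfl⟩ := hq y
        exact ⟨QuotientGroup.mk' V x, rfl⟩
      have hker : q'.ker = q.ker.map (QuotientGroup.mk' V) := by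
        ext y
        obtain ⟨x, rfl⟩ := QuotientGroup.mk'_surjective V y
        constructor
        · intro h
          exact ⟨x, h, rfl⟩
        · rintro ⟨z, hz, hzx⟩
          rw [← hzx]
          exact hz
      have hsol' : Group.IsSolvable q'.ker := by
        rw [hker]
        exact solvable_of_surjective ((QuotientGroup.mk' V).subgroupMap_surjective q.ker)
      have hcard : Nat.card q'.ker < m := by
        rw [hker, ← hm]
        -- the map is surjective and not injective
        have hfin : Finite q.ker := inferInstance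
        have hsur := (QuotientGroup.mk' V).subgroupMap_surjective q.ker
        by_contra hcon
        have hle : Nat.card q.ker ≤ Nat.card (q.ker.map (QuotientGroup.mk' V)) := not_lt.1 hcon
        have heq := le_antisymm hle (Nat.card_le_card_of_surjective _ hsur)
        have hbij : Function.Bijective ((QuotientGroup.mk' V).subgroupMap q.ker) := by
          have hfin2 : Finite (q.ker.map (QuotientGroup.mk' V)) := Finite.of_surjective _ hsur
          exact (Nat.bijective_iff_surjective_and_card _).2 ⟨hsur, heq⟩
        apply hV1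
        rw [eq_bot_iff]
        intro x hx
        have h1 : (QuotientGroup.mk' V).subgroupMap q.ker ⟨x, hVS hx⟩ =
            (QuotientGroup.mk' V).subgroupMap q.ker 1 := by
          apply Subtype.ext
          show QuotientGroup.mk' V x = QuotientGroup.mk' V 1
          rw [map_one, QuotientGroup.mk'_apply, QuotientGroup.eq_one_iff]
          exact hx
        have h2 := congrArg Subtype.val (hbij.1 h1)
        rw [Subgroup.mem_bot]
        exact h2
      have hQ' := ih _ hcard (G ⧸ V) q' hq's hsol' rfl (hG.map (QuotientGroup.mk'_surjective V))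
      exact killsGen_step hVc hch hQ' (hstep G V hVc hV2 hV1 hG)

/-- The base case. -/
theorem killsGen_of_kills {m c : ℕ} (h : Kills G m) (hmc : m ≤ c) : KillsGen G c := by
  intro k L P _ hL
  obtain ⟨L1, h1⟩ := h k L (by omega)
  exact ⟨L1, P, h1.app_right (pts P)⟩

/-- The theorem on automorphisms. -/
theorem handles_of_killsGen {c g n : ℕ} (hH : KillsGen H c) (φ : F g n →* H)
    (hφ : Function.Surjective φ) :
    ∃ α : F g n ≃* F g n, α (R g n) = R g n ∧ (∀ j : Fin n, IsConj (α (HMv.c g j)) (HMv.c g j)) ∧
      ∀ i : Fin g, c ≤ (i : ℕ) → φ (α (a n i)) = 1 ∧ φ (α (b n i)) = 1 := by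
  by_cases hg : c ≤ g
  · obtain ⟨k, rfl⟩ := Nat.exists_eq_add_of_le hg
    have h1 : gen (mp φ (B0 (c + k) n)) = ⊤ := by
      apply gen_mp_top hφ
      rw [eq_top_iff]
      intro x _
      have h2 : x ∈ Subgroup.closure (Set.range (FreeGroup.of (α := (Fin (c + k) × Bool) ⊕ Fin n))) := by
        rw [FreeGroup.closure_range_of]
        trivial
      refine (Subgroup.closure_le (K := gen (B0 (c + k) n))).2 ?_ h2
      rintro _ ⟨i, rfl⟩
      rcases i with ⟨i, e⟩ | j
      · have hmem : (hd (a n i) (b n i) : Item (F (c + k) n)) ∈ B0 (c + k) n := by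
          unfold B0 hds
          apply List.mem_append_left
          rw [List.mem_map]
          exact ⟨(a n i, b n i), by rw [List.mem_ofFn]; exact ⟨i, rfl⟩, rfl⟩
        cases e
        · exact ent_mem_gen hmem (Or.inl rfl)
        · exact ent_mem_gen hmem (Or.inr rfl)
      · have hmem : (pt (HMv.c (c + k) j) : Item (F (c + k) n)) ∈ B0 (c + k) n := by
          unfold B0 pts
          apply List.mem_append_right
          rw [List.mem_map]
          exact ⟨HMv.c (c + k) j, by rw [List.mem_ofFn]; exact ⟨j, rfl⟩, rfl⟩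
        exact ent_mem_gen hmem rfl
    rw [mp_B0] at h1
    obtain ⟨L1, P1, m⟩ := hH k _ _ h1 (by simp)
    rw [← mp_B0] at m
    obtain ⟨α, h2, h3, h4⟩ := kills_apply φ m
    exact ⟨α, h2, h3, fun i hi => h4 i (by omega)⟩
  · refine ⟨MulEquiv.refl _, rfl, fun j => IsConj.refl _, fun i hi => ?_⟩
    have := i.2
    omega

end Frame

end Pool.Agent.HMv
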