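import Pool.Agent.Lib.MP_943dad_ag.HMv.Defs

/-!
# SO-Width: the commutator width from the theorem on handles
-/

namespace SO

open Pool.Agent.HMv

private theorem prod_range_eq {H : Type} [Group H] (f : ℕ → H) (k₀ : ℕ) (hf : ∀ i, k₀ ≤ i → f i = 1) :
    ∀ k, k₀ ≤ k → ((List.range k).map f).prod = ((List.range k₀).map f).prod := by
  intro k hk
  induction k, hk using Nat.le_induction with
  | base => rfl
  | succ k hk ih =>
    rw [List.range_succ, List.map_append, List.prod_append, ih]
    simp [hf k hk]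

private theorem ofFn_eq {H : Type} (f : ℕ → H) (k : ℕ) : (List.ofFn fun i : Fin k => f i) = (List.range k).map f := by
  apply List.ext_getElem
  · simp
  · intro i h1 h2
    simp

private theorem exists_list {H : Type} [Group H] {h : H} (hh : h ∈ commutator H) :
    ∃ l : List (H × H), (l.map fun p => p.1 * p.2 * p.1⁻¹ * p.2⁻¹).prod = h := by
  rw [commutator_eq_closure] at hh
  induction hh using Subgroup.closure_induction with
  | mem x hx =>
    obtain ⟨u, v, rfl⟩ := hx
    exact ⟨[(u, v)], by simp [commutatorElement_def]⟩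
  | one => exact ⟨[], rfl⟩
  | mul x y _ _ hx hy =>
    obtain ⟨l, rfl⟩ := hx
    obtain ⟨l', rfl⟩ := hy
    exact ⟨l ++ l', by rw [List.map_append, List.prod_append]⟩
  | inv x _ hx =>
    obtain ⟨l, rfl⟩ := hx
    refine ⟨(l.map fun p => (p.2, p.1)).reverse, ?_⟩
    rw [List.prod_inv_reverse, List.map_map, List.map_reverse, List.map_map]
    congr 2
    apply List.map_congr_left
    intro p _
    simp only [Function.comp_apply]
    group

/-- If the handles `i ≥ c` of all surjections can be killed, each element of the derived group is a product of `c` commutators. -/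
theorem width {H : Type} [Group H] {d c : ℕ} (s : Fin d → H) (hs : Subgroup.closure (Set.range s) = ⊤)
    (hc : ∀ (g : ℕ) (φ : F g 0 →* H), Function.Surjective φ → ∃ α : F g 0 ≃* F g 0, α (R g 0) = R g 0 ∧
      ∀ i : Fin g, c ≤ (i : ℕ) → φ (α (a 0 i)) = 1 ∧ φ (α (b 0 i)) = 1)
    (h : H) (hh : h ∈ commutator H) :
    ∃ u v : Fin c → H, h = (List.ofFn fun i => u i * v i * (u i)⁻¹ * (v i)⁻¹).prod := by
  obtain ⟨l, hl⟩ := exists_list hh
  let X : Fin (l.length + d) → H := Fin.append (fun i => (l.get i).1) s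
  let Y : Fin (l.length + d) → H := Fin.append (fun i => (l.get i).2) (fun _ => 1)
  let φ : F (l.length + d) 0 →* H := FreeGroup.lift (fun x => match x with
    | Sum.inl (i, false) => X i
    | Sum.inl (i, true) => Y i
    | Sum.inr j => j.elim0)
  have ha : ∀ i, φ (a 0 i) = X i := fun i => by simp [φ, a]
  have hb : ∀ i, φ (b 0 i) = Y i := fun i => by simp [φ, b]
  have hR : ∀ ψ : F (l.length + d) 0 →* H, ψ (R (l.length + d) 0) =
      (List.ofFn fun i => ψ (a 0 i) * ψ (b 0 i) * (ψ (a 0 i))⁻¹ * (ψ (b 0 i))⁻¹).prod := by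
    intro ψ
    rw [R, map_mul, map_list_prod, List.map_ofFn]
    have h1 : ψ (List.ofFn fun j : Fin 0 => Pool.Agent.HMv.c (l.length + d) j).prod = 1 := by simp
    rw [h1, mul_one]
    congr 2
    funext i
    simp
  have hφR : φ (R (l.length + d) 0) = h := by
    rw [hR, List.ofFn_add, List.prod_append]
    simp only [ha, hb]
    have h1 : (List.ofFn fun j : Fin d => X (Fin.natAdd l.length j) * Y (Fin.natAdd l.length j) *
        (X (Fin.natAdd l.length j))⁻¹ * (Y (Fin.natAdd l.length j))⁻¹).prod = 1 := by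
      apply List.prod_eq_one
      intro x hx
      rw [List.mem_ofFn] at hx
      obtain ⟨j, rfl⟩ := hx
      simp [X, Y, Fin.append_right]
    rw [h1, mul_one, ← hl]
    congr 1
    apply List.ext_getElem
    · simp
    · intro i h1 h2
      simp [X, Y]
  have hφs : Function.Surjective φ := by
    rw [← MonoidHom.range_eq_top, eq_top_iff, ← hs, Subgroup.closure_le]
    rintro _ ⟨j, rfl⟩
    refine ⟨a 0 (Fin.natAdd l.length j), ?_⟩
    rw [ha]
    simp [X, Fin.append_right]
  obtain ⟨α, hαR, hα⟩ := hc _ φ hφs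
  let f : ℕ → H := fun i => if hi : i < l.length + d then
    φ (α (a 0 ⟨i, hi⟩)) * φ (α (b 0 ⟨i, hi⟩)) * (φ (α (a 0 ⟨i, hi⟩)))⁻¹ * (φ (α (b 0 ⟨i, hi⟩)))⁻¹ else 1
  have hfc : ∀ i, c ≤ i → f i = 1 := by
    intro i hi
    by_cases h1 : i < l.length + d
    · have h2 := hα ⟨i, h1⟩ hi
      simp only [f, dif_pos h1, h2.1, h2.2]
      simp
    · simp only [f, dif_neg h1]
  have hfg : ∀ i, l.length + d ≤ i → f i = 1 := by
    intro i hi
    simp only [f, dif_neg (not_lt.2 hi)]
  have h1 : h = ((List.range (l.length + d)).map f).prod := by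
    rw [← ofFn_eq, ← hφR, ← hαR]
    have h2 := hR (φ.comp α.toMonoidHom)
    have h3 : (φ.comp α.toMonoidHom) (R (l.length + d) 0) = φ (α (R (l.length + d) 0)) := rfl
    rw [h3] at h2
    rw [h2]
    congr 2
    funext i
    simp only [f, dif_pos i.2]
    rfl
  have h2 : h = ((List.range c).map f).prod := by
    rw [h1, ← prod_range_eq f (l.length + d) hfg (max (l.length + d) c) (le_max_left _ _),
      prod_range_eq f c hfc (max (l.length + d) c) (le_max_right _ _)]
  refine ⟨fun i => if hi : (i : ℕ) < l.length + d then φ (α (a 0 ⟨i, hi⟩)) else 1,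
    fun i => if hi : (i : ℕ) < l.length + d then φ (α (b 0 ⟨i, hi⟩)) else 1, ?_⟩
  rw [h2, ← ofFn_eq]
  congr 2
  funext i
  by_cases h1 : (i : ℕ) < l.length + d
  · simp only [f, dif_pos h1]
  · simp only [f, dif_neg h1]
    simp

end SO
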